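import Mathlib

/-!
# Mertens' theorems in interval form
-/

set_option autoImplicit false

open Finset Real
open scoped ArithmeticFunction.vonMangoldt

namespace Pool.Agent.Helper44

/-- `log N! = ∑_{d ≤ N} Λ(d) ⌊N/d⌋`. -/
theorem log_factorial_eq_sum (N : ℕ) :
    Real.log (N.factorial : ℝ) = ∑ d ∈ Ioc 0 N, Λ d * ((N / d : ℕ) : ℝ) := by
  have h1 : Real.log (N.factorial : ℝ) = ∑ m ∈ Ioc 0 N, Real.log m := by
    rw [← Finset.prod_Ico_id_eq_factorial, Nat.cast_prod, Real.log_prod]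
    · apply Finset.sum_congr _ (fun _ _ => rfl)
      ext i
      simp only [Finset.mem_Ico, Finset.mem_Ioc]
      omega
    · intro i hi
      have := (Finset.mem_Ico.mp hi).1
      positivity
  rw [h1]
  have h2 : ∀ m ∈ Ioc 0 N, Real.log m = ∑ d ∈ Ioc 0 N, if d ∣ m then Λ d else 0 := by
    intro m hm
    rw [← ArithmeticFunction.vonMangoldt_sum, ← Finset.sum_filter]
    apply Finset.sum_congr _ (fun _ _ => rfl)
    ext d
    simp only [Nat.mem_divisors, Finset.mem_filter, Finset.mem_Ioc]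
    rw [Finset.mem_Ioc] at hm
    constructor
    · rintro ⟨h, h0⟩
      exact ⟨⟨Nat.pos_of_dvd_of_pos h hm.1, (Nat.le_of_dvd hm.1 h).trans hm.2⟩, h⟩
    · rintro ⟨_, h⟩
      exact ⟨h, by omega⟩
  rw [Finset.sum_congr rfl h2, Finset.sum_comm]
  apply Finset.sum_congr rfl
  intro d hd
  rw [← Finset.sum_filter, Finset.sum_const, nsmul_eq_mul, mul_comm]
  congr 2
  rw [Nat.Ioc_filter_dvd_card_eq_div]

theorem log_factorial_le (N : ℕ) : Real.log (N.factorial : ℝ) ≤ N * Real.log N := by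
  rcases Nat.eq_zero_or_pos N with h | h
  · simp [h]
  rw [← Real.log_pow]
  apply Real.log_le_log
  · positivity
  · exact_mod_cast Nat.factorial_le_pow N

theorem le_log_factorial (N : ℕ) : (N : ℝ) * Real.log N - N ≤ Real.log (N.factorial : ℝ) := by
  rcases Nat.eq_zero_or_pos N with h | h
  · simp [h]
  have hN : (0 : ℝ) < N := by exact_mod_cast h
  have h1 : (N : ℝ) ^ N / N.factorial ≤ Real.exp N := by
    exact Real.pow_div_factorial_le_exp _ hN.le N
  have h2 : Real.log ((N : ℝ) ^ N / N.factorial) ≤ N := by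
    calc Real.log ((N : ℝ) ^ N / N.factorial) ≤ Real.log (Real.exp N) :=
          Real.log_le_log (by positivity) h1
      _ = N := Real.log_exp _
  rw [Real.log_div (by positivity) (by positivity), Real.log_pow] at h2
  linarith

/-- First theorem, with `Λ`, integer argument. -/
theorem abs_sum_vonMangoldt_div_sub_log_nat (N : ℕ) (hN : 1 ≤ N) :
    |∑ d ∈ Ioc 0 N, Λ d / d - Real.log N| ≤ 6 := by
  have hN0 : (0 : ℝ) < N := by exact_mod_cast hN
  have h1 := log_factorial_eq_sum N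
  have h2 := log_factorial_le N
  have h3 := le_log_factorial N
  have h4 : ∑ d ∈ Ioc 0 N, Λ d * ((N / d : ℕ) : ℝ) ≤ N * ∑ d ∈ Ioc 0 N, Λ d / d := by
    rw [Finset.mul_sum]
    apply Finset.sum_le_sum
    intro d hd
    have hd0 : (0 : ℝ) < d := by exact_mod_cast (Finset.mem_Ioc.mp hd).1
    have : ((N / d : ℕ) : ℝ) ≤ N / d := Nat.cast_div_le
    calc Λ d * ((N / d : ℕ) : ℝ) ≤ Λ d * (N / d) :=
          mul_le_mul_of_nonneg_left this ArithmeticFunction.vonMangoldt_nonneg
      _ = N * (Λ d / d) := by ring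
  have h5 : N * ∑ d ∈ Ioc 0 N, Λ d / d - Chebyshev.psi N
      ≤ ∑ d ∈ Ioc 0 N, Λ d * ((N / d : ℕ) : ℝ) := by
    have : Chebyshev.psi N = ∑ d ∈ Ioc 0 N, Λ d := by
      simp [Chebyshev.psi]
    rw [this, Finset.mul_sum, ← Finset.sum_sub_distrib]
    apply Finset.sum_le_sum
    intro d hd
    have hd0 : (0 : ℝ) < d := by exact_mod_cast (Finset.mem_Ioc.mp hd).1
    have : (N / d : ℝ) - 1 ≤ ((N / d : ℕ) : ℝ) := by
      have h := Nat.div_add_mod N d
      have h' := Nat.mod_lt N (Finset.mem_Ioc.mp hd).1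
      have h6 : (N : ℝ) ≤ d * ((N / d : ℕ) : ℝ) + d := by
        have : N ≤ d * (N / d) + d := by omega
        exact_mod_cast this
      rw [sub_le_iff_le_add, div_le_iff₀ hd0]
      linarith
    calc N * (Λ d / d) - Λ d = Λ d * (N / d - 1) := by ring
      _ ≤ _ := mul_le_mul_of_nonneg_left this ArithmeticFunction.vonMangoldt_nonneg
  have h6 : Chebyshev.psi N ≤ (Real.log 4 + 4) * N := Chebyshev.psi_le_const_mul_self hN0.le
  have h7 : Real.log 4 ≤ 2 := by
    have : Real.log 4 = 2 * Real.log 2 := by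
      rw [show (4 : ℝ) = 2 ^ 2 by norm_num, Real.log_pow]; norm_num
    have := Real.log_two_lt_d9
    linarith
  rw [abs_le]
  constructor
  · -- lower bound
    have : N * (Real.log N - 1) ≤ N * ∑ d ∈ Ioc 0 N, Λ d / d := by
      calc (N : ℝ) * (Real.log N - 1) = N * Real.log N - N := by ring
        _ ≤ _ := by linarith
    have := le_of_mul_le_mul_left this hN0
    linarith
  · have : N * ∑ d ∈ Ioc 0 N, Λ d / d ≤ N * (Real.log N + 6) := by
      have : N * ∑ d ∈ Ioc 0 N, Λ d / d ≤ N * Real.log N + (Real.log 4 + 4) * N := by linarith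
      have h8 : (Real.log 4 + 4) * N ≤ 6 * N := by
        apply mul_le_mul_of_nonneg_right _ hN0.le
        linarith
      calc _ ≤ _ := this
        _ ≤ N * Real.log N + 6 * N := by linarith
        _ = _ := by ring
    have := le_of_mul_le_mul_left this hN0
    linarith


/-- A constant bounding the contribution of proper prime powers. -/
noncomputable def ppC : ℝ := ∑' n : ℕ, 4 / (n : ℝ) ^ (3 / 2 : ℝ)

theorem summable_ppC : Summable (fun n : ℕ => 4 / (n : ℝ) ^ (3 / 2 : ℝ)) := by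
  have h : Summable (fun n : ℕ => ((n : ℝ) ^ (3 / 2 : ℝ))⁻¹) :=
    Real.summable_nat_rpow_inv.mpr (by norm_num)
  simpa [div_eq_mul_inv] using h.mul_left 4

theorem ppC_nonneg : 0 ≤ ppC := tsum_nonneg fun n => by positivity

theorem log_div_sq_le (n : ℕ) : Real.log n / (n : ℝ) ^ 2 * 2 ≤ 4 / (n : ℝ) ^ (3 / 2 : ℝ) := by
  rcases Nat.eq_zero_or_pos n with h | h
  · simp [h]
  have hn : (0 : ℝ) < n := by exact_mod_cast h
  have h1 : Real.log n ≤ 2 * (n : ℝ) ^ (1 / 2 : ℝ) := by
    have := Real.log_le_rpow_div hn.le (show (0 : ℝ) < 1 / 2 by norm_num)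
    calc Real.log n ≤ (n : ℝ) ^ (1 / 2 : ℝ) / (1 / 2) := this
      _ = _ := by ring
  have h2 : (n : ℝ) ^ 2 = (n : ℝ) ^ (1 / 2 : ℝ) * (n : ℝ) ^ (3 / 2 : ℝ) := by
    rw [← Real.rpow_natCast, ← Real.rpow_add hn]; norm_num
  rw [h2, div_mul_eq_mul_div, div_le_div_iff₀ (by positivity) (by positivity)]
  calc Real.log n * 2 * (n : ℝ) ^ (3 / 2 : ℝ)
      ≤ (2 * (n : ℝ) ^ (1 / 2 : ℝ)) * 2 * (n : ℝ) ^ (3 / 2 : ℝ) := by gcongr
    _ = _ := by ring

theorem sum_vonMangoldt_div_sub_primes (N : ℕ) :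
    0 ≤ ∑ d ∈ Ioc 0 N, Λ d / d - ∑ q ∈ (Ioc 0 N).filter Nat.Prime, Real.log q / q ∧
    ∑ d ∈ Ioc 0 N, Λ d / d - ∑ q ∈ (Ioc 0 N).filter Nat.Prime, Real.log q / q ≤ ppC := by
  have hsplit : ∑ d ∈ Ioc 0 N, Λ d / d = ∑ d ∈ (Ioc 0 N).filter IsPrimePow, Λ d / d := by
    rw [Finset.sum_filter]
    apply Finset.sum_congr rfl
    intro d _
    split_ifs with h
    · rfl
    · rw [ArithmeticFunction.vonMangoldt_eq_zero_iff.mpr h, zero_div]
  have hN0 : (0 : ℝ) ≤ (N : ℝ) := by positivity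
  have hpp := Chebyshev.sum_PrimePow_eq_sum_sum (R := ℝ) (fun n => Λ n / n) hN0
  rw [Nat.floor_natCast] at hpp
  set K := ⌊Real.log N / Real.log 2⌋₊ with hK
  have hfk : ∀ k ∈ Icc 1 K, ∑ p ∈ Ioc 0 ⌊(N : ℝ) ^ ((1 : ℝ) / k)⌋₊ with p.Prime,
      (Λ (p ^ k) / ((p ^ k : ℕ) : ℝ)) =
      ∑ p ∈ Ioc 0 ⌊(N : ℝ) ^ ((1 : ℝ) / k)⌋₊ with p.Prime, Real.log p / (p : ℝ) ^ k := by
    intro k hk
    apply Finset.sum_congr rfl
    intro p hp
    have hk1 := (Finset.mem_Icc.mp hk).1
    rw [ArithmeticFunction.vonMangoldt_apply_pow (by omega),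
      ArithmeticFunction.vonMangoldt_apply_prime (Finset.mem_filter.mp hp).2, Nat.cast_pow]
  rw [hsplit, hpp, Finset.sum_congr rfl hfk]
  rcases Nat.lt_or_ge N 2 with hN2 | hN2
  · have hK0 : K = 0 := by
      rw [hK]
      interval_cases N <;> simp
    have : (Ioc 0 N).filter Nat.Prime = ∅ := by
      ext q
      simp only [Finset.mem_filter, Finset.mem_Ioc, Finset.notMem_empty, iff_false]
      rintro ⟨⟨_, h⟩, hq⟩
      have := hq.two_le
      omega
    rw [hK0, this]
    simp [ppC_nonneg]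
  have hK1 : 1 ≤ K := by
    rw [hK, Nat.one_le_floor_iff, one_le_div (Real.log_pos (by norm_num))]
    exact Real.log_le_log (by norm_num) (by exact_mod_cast hN2)
  rw [← Finset.add_sum_Ioc_eq_sum_Icc hK1]
  have h1 : ∑ p ∈ Ioc 0 ⌊(N : ℝ) ^ ((1 : ℝ) / (1 : ℕ))⌋₊ with p.Prime, Real.log p / (p : ℝ) ^ 1
      = ∑ q ∈ (Ioc 0 N).filter Nat.Prime, Real.log q / q := by
    simp
  rw [h1, add_sub_cancel_left]
  have hnn : ∀ k p : ℕ, 0 ≤ Real.log p / (p : ℝ) ^ k := by
    intro k p
    apply div_nonneg (Real.log_natCast_nonneg p) (by positivity)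
  refine ⟨Finset.sum_nonneg fun k _ => Finset.sum_nonneg fun p _ => hnn k p, ?_⟩
  calc ∑ k ∈ Ioc 1 K, ∑ p ∈ Ioc 0 ⌊(N : ℝ) ^ ((1 : ℝ) / k)⌋₊ with p.Prime, Real.log p / (p : ℝ) ^ k
      ≤ ∑ k ∈ Ioc 1 K, ∑ p ∈ (Ioc 0 N).filter Nat.Prime, Real.log p / (p : ℝ) ^ k := by
        apply Finset.sum_le_sum
        intro k hk
        apply Finset.sum_le_sum_of_subset_of_nonneg
        · intro p hp
          rw [Finset.mem_filter, Finset.mem_Ioc] at hp ⊢
          refine ⟨⟨hp.1.1, hp.1.2.trans ?_⟩, hp.2⟩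
          have hk1 := (Finset.mem_Ioc.mp hk).1
          have : (N : ℝ) ^ ((1 : ℝ) / k) ≤ N := by
            apply Real.rpow_le_self_of_one_le
            · exact_mod_cast (by omega : 1 ≤ N)
            · rw [div_le_one (by positivity)]
              exact_mod_cast hk1.le
          calc ⌊(N : ℝ) ^ ((1 : ℝ) / k)⌋₊ ≤ ⌊(N : ℝ)⌋₊ := Nat.floor_le_floor this
            _ = N := Nat.floor_natCast N
        · intro p _ _
          exact hnn k p
    _ = ∑ p ∈ (Ioc 0 N).filter Nat.Prime, ∑ k ∈ Ioc 1 K, Real.log p / (p : ℝ) ^ k :=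
        Finset.sum_comm
    _ ≤ ∑ p ∈ (Ioc 0 N).filter Nat.Prime, 4 / (p : ℝ) ^ (3 / 2 : ℝ) := by
        apply Finset.sum_le_sum
        intro p hp
        have hpp := (Finset.mem_filter.mp hp).2
        have hp2 : (2 : ℝ) ≤ p := by exact_mod_cast hpp.two_le
        refine le_trans ?_ (log_div_sq_le p)
        have hgeo : ∑ k ∈ Ioc 1 K, (1 / (p : ℝ)) ^ k ≤ 2 * (1 / (p : ℝ)) ^ 2 := by
          have h0 : ∀ K : ℕ, ∑ k ∈ Ioc 1 K, (1 / (p : ℝ)) ^ k ≤
              2 * (1 / (p : ℝ)) ^ 2 * (1 - (1 / (p : ℝ)) ^ (K - 1)) := by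
            intro K
            induction K with
            | zero => simp
            | succ n ih =>
              rcases Nat.eq_zero_or_pos n with h | h
              · subst h; simp
              · rw [Finset.sum_Ioc_succ_top (by omega)]
                obtain ⟨m, rfl⟩ : ∃ m, n = m + 1 := ⟨n - 1, by omega⟩
                simp only [Nat.add_sub_cancel] at ih ⊢
                have hx : (1 / (p : ℝ)) ≤ 1 / 2 := by
                  apply one_div_le_one_div_of_le (by norm_num) hp2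
                have hx0 : (0 : ℝ) ≤ 1 / (p : ℝ) := by positivity
                set x := 1 / (p : ℝ)
                have e1 : x ^ (m + 1 + 1) = x ^ 2 * x ^ m := by ring
                have e2 : x ^ (m + 1) = x ^ m * x := by ring
                rw [e1, e2]
                have hxm : 0 ≤ x ^ m := by positivity
                have : 0 ≤ x ^ 2 * x ^ m * (1 - 2 * x) := by
                  apply mul_nonneg (by positivity); linarith
                nlinarith
          refine (h0 K).trans ?_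
          have : 0 ≤ (1 / (p : ℝ)) ^ (K - 1) := by positivity
          have h2 : (0 : ℝ) ≤ 2 * (1 / (p : ℝ)) ^ 2 := by positivity
          nlinarith
        calc ∑ k ∈ Ioc 1 K, Real.log p / (p : ℝ) ^ k
            = Real.log p * ∑ k ∈ Ioc 1 K, (1 / (p : ℝ)) ^ k := by
              rw [Finset.mul_sum]
              apply Finset.sum_congr rfl
              intro k _
              rw [one_div, inv_pow]; rfl
          _ ≤ Real.log p * (2 * (1 / (p : ℝ)) ^ 2) :=
              mul_le_mul_of_nonneg_left hgeo (Real.log_natCast_nonneg p)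
          _ = Real.log p / (p : ℝ) ^ 2 * 2 := by
              rw [one_div, inv_pow]; ring
    _ ≤ ppC := by
        unfold ppC
        exact summable_ppC.sum_le_tsum _ (fun n _ => by positivity)

/-- Mertens' first theorem for primes. -/
theorem mertens_first : ∃ C : ℝ, 0 < C ∧ ∀ N : ℕ, 1 ≤ N →
    |∑ q ∈ (Ioc 0 N).filter Nat.Prime, Real.log q / q - Real.log N| ≤ C := by
  refine ⟨6 + ppC, by have := ppC_nonneg; linarith, ?_⟩
  intro N hN
  have h1 := abs_sum_vonMangoldt_div_sub_log_nat N hN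
  have h2 := sum_vonMangoldt_div_sub_primes N
  rw [abs_le] at h1 ⊢
  constructor <;> linarith [h1.1, h1.2, h2.1, h2.2]

end Pool.Agent.Helper44
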