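import Pool.Agent.Helper44.Mertens

set_option autoImplicit false

open Finset Real
open scoped ArithmeticFunction.vonMangoldt

namespace Pool.Agent.Helper44

/-- Mertens' second theorem on intervals. -/
theorem mertens_interval : ∃ C : ℝ, 0 < C ∧ ∀ x y : ℝ, 2 ≤ x → x ≤ y →
    |∑ q ∈ (Finset.Ioc ⌊x⌋₊ ⌊y⌋₊).filter Nat.Prime, (1:ℝ)/q - Real.log (Real.log y / Real.log x)|
      ≤ C / Real.log x := by
  obtain ⟨C0, hC0, hM⟩ := mertens_first
  set C1 := C0 + 1 with hC1
  refine ⟨3 * C1, by positivity, ?_⟩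
  intro x y hx hxy
  have hx0 : (0 : ℝ) < x := by linarith
  have hlx : 0 < Real.log x := Real.log_pos (by linarith)
  have hly : 0 < Real.log y := Real.log_pos (by linarith)
  set c : ℕ → ℝ := fun n => if n.Prime then Real.log n / n else 0 with hc
  set A : ℝ → ℝ := fun t => ∑ k ∈ Icc 0 ⌊t⌋₊, c k with hA
  have hAbound : ∀ t : ℝ, 2 ≤ t → |A t - Real.log t| ≤ C1 := by
    intro t ht
    have hN : 1 ≤ ⌊t⌋₊ := by
      rw [Nat.one_le_floor_iff]; linarith
    have h1 := hM ⌊t⌋₊ hN
    have h2 : A t = ∑ q ∈ (Ioc 0 ⌊t⌋₊).filter Nat.Prime, Real.log q / q := by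
      simp only [hA, hc]
      rw [← Finset.sum_filter]
      apply Finset.sum_congr _ (fun _ _ => rfl)
      ext q
      simp only [Finset.mem_filter, Finset.mem_Icc, Finset.mem_Ioc]
      constructor
      · rintro ⟨⟨_, h⟩, hq⟩; exact ⟨⟨hq.pos, h⟩, hq⟩
      · rintro ⟨⟨_, h⟩, hq⟩; exact ⟨⟨Nat.zero_le _, h⟩, hq⟩
    rw [← h2] at h1
    have hfl : (⌊t⌋₊ : ℝ) ≤ t := Nat.floor_le (by linarith)
    have hfl2 : t ≤ 2 * (⌊t⌋₊ : ℝ) := by
      have := (Nat.lt_floor_add_one t).le
      have h3 : (1 : ℝ) ≤ (⌊t⌋₊ : ℝ) := by exact_mod_cast hN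
      linarith
    have hf0 : (0 : ℝ) < (⌊t⌋₊ : ℝ) := by exact_mod_cast hN
    have h4 : Real.log (⌊t⌋₊ : ℝ) ≤ Real.log t := Real.log_le_log hf0 hfl
    have h5 : Real.log t ≤ Real.log 2 + Real.log (⌊t⌋₊ : ℝ) := by
      rw [← Real.log_mul (by norm_num) hf0.ne']
      exact Real.log_le_log (by linarith) hfl2
    have h6 : Real.log 2 ≤ 1 := by
      have := Real.log_two_lt_d9; linarith
    rw [abs_le] at h1 ⊢
    constructor <;> linarith [h1.1, h1.2]
  -- Abel summation
  have hderiv : ∀ t ∈ Set.Icc x y, HasDerivAt (fun t => (Real.log t)⁻¹) (-(t * Real.log t ^ 2)⁻¹) t := by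
    intro t ht
    have ht0 : 0 < t := by linarith [ht.1]
    have hlt : Real.log t ≠ 0 := (Real.log_pos (by linarith [ht.1])).ne'
    refine HasDerivAt.congr_deriv ((Real.hasDerivAt_log ht0.ne').inv hlt) ?_
    rw [mul_inv, neg_div, div_eq_mul_inv]
  have hdiff : ∀ t ∈ Set.Icc x y, DifferentiableAt ℝ (fun t => (Real.log t)⁻¹) t :=
    fun t ht => (hderiv t ht).differentiableAt
  have hcont : ContinuousOn (fun t : ℝ => -(t * Real.log t ^ 2)⁻¹) (Set.Icc x y) := by
    intro t ht
    have ht0 : 0 < t := by linarith [ht.1]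
    have hlt : Real.log t ≠ 0 := (Real.log_pos (by linarith [ht.1])).ne'
    apply ContinuousAt.continuousWithinAt
    have : t * Real.log t ^ 2 ≠ 0 := by positivity
    fun_prop (disch := first | exact this | exact ht0.ne')
  have hint : MeasureTheory.IntegrableOn (fun t : ℝ => -(t * Real.log t ^ 2)⁻¹) (Set.Icc x y) :=
    hcont.integrableOn_Icc
  have hint' : MeasureTheory.IntegrableOn (deriv (fun t => (Real.log t)⁻¹)) (Set.Icc x y) := by
    apply hint.congr_fun _ measurableSet_Icc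
    intro t ht
    exact (hderiv t ht).deriv.symm
  have habel := sum_mul_eq_sub_sub_integral_mul c (f := fun t => (Real.log t)⁻¹) hx0.le hxy hdiff hint'
  have hlhs : ∑ k ∈ Ioc ⌊x⌋₊ ⌊y⌋₊, (Real.log (k : ℝ))⁻¹ * c k =
      ∑ q ∈ (Finset.Ioc ⌊x⌋₊ ⌊y⌋₊).filter Nat.Prime, (1:ℝ)/q := by
    rw [Finset.sum_filter]
    apply Finset.sum_congr rfl
    intro k hk
    simp only [hc]
    split_ifs with h
    · have : Real.log (k : ℝ) ≠ 0 := (Real.log_pos (by exact_mod_cast h.one_lt)).ne'
      field_simp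
    · simp
  rw [hlhs] at habel
  have hcongr : ∫ t in Set.Ioc x y, deriv (fun t => (Real.log t)⁻¹) t * ∑ k ∈ Icc 0 ⌊t⌋₊, c k =
      ∫ t in Set.Ioc x y, -(t * Real.log t ^ 2)⁻¹ * A t := by
    apply MeasureTheory.setIntegral_congr_fun measurableSet_Ioc
    intro t ht
    simp only [hA]
    rw [(hderiv t ⟨ht.1.le, ht.2⟩).deriv]
  rw [hcongr] at habel
  -- integrability
  have hiA : MeasureTheory.IntegrableOn (fun t => -(t * Real.log t ^ 2)⁻¹ * A t) (Set.Ioc x y) :=
    (integrableOn_mul_sum_Icc c (m := 0) hx0.le hint).mono_set Set.Ioc_subset_Icc_self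
  have hcontL : ContinuousOn (fun t : ℝ => -(t * Real.log t)⁻¹) (Set.Icc x y) := by
    intro t ht
    have ht0 : 0 < t := by linarith [ht.1]
    have hlt : Real.log t ≠ 0 := (Real.log_pos (by linarith [ht.1])).ne'
    apply ContinuousAt.continuousWithinAt
    have : t * Real.log t ≠ 0 := by positivity
    fun_prop (disch := first | exact this | exact ht0.ne')
  have hiL : MeasureTheory.IntegrableOn (fun t => -(t * Real.log t ^ 2)⁻¹ * Real.log t) (Set.Ioc x y) := by
    have h1 : MeasureTheory.IntegrableOn (fun t : ℝ => -(t * Real.log t)⁻¹) (Set.Ioc x y) :=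
      hcontL.integrableOn_Icc.mono_set Set.Ioc_subset_Icc_self
    apply h1.congr_fun _ measurableSet_Ioc
    intro t ht
    have ht0 : 0 < t := by linarith [ht.1]
    have hlt : Real.log t ≠ 0 := (Real.log_pos (by linarith [ht.1])).ne'
    simp only
    field_simp
  have hI1 : ∫ t in Set.Ioc x y, -(t * Real.log t ^ 2)⁻¹ * Real.log t =
      -(Real.log (Real.log y / Real.log x)) := by
    rw [← intervalIntegral.integral_of_le hxy]
    have : ∀ t ∈ Set.uIcc x y, HasDerivAt (fun t => -Real.log (Real.log t))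
        (-(t * Real.log t ^ 2)⁻¹ * Real.log t) t := by
      intro t ht
      rw [Set.uIcc_of_le hxy] at ht
      have ht0 : 0 < t := by linarith [ht.1]
      have hlt : Real.log t ≠ 0 := (Real.log_pos (by linarith [ht.1])).ne'
      refine HasDerivAt.congr_deriv (((Real.hasDerivAt_log ht0.ne').log hlt).neg) ?_
      rw [mul_inv, neg_mul, mul_assoc, sq, mul_inv, mul_assoc, inv_mul_cancel₀ hlt, mul_one,
        div_eq_mul_inv]
    rw [intervalIntegral.integral_eq_sub_of_hasDerivAt this]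
    · rw [Real.log_div hly.ne' hlx.ne']; ring
    · rw [intervalIntegrable_iff_integrableOn_Ioc_of_le hxy]
      exact hiL
  have hI2 : ∫ t in Set.Ioc x y, (t * Real.log t ^ 2)⁻¹ = (Real.log x)⁻¹ - (Real.log y)⁻¹ := by
    rw [← intervalIntegral.integral_of_le hxy]
    have : ∀ t ∈ Set.uIcc x y, HasDerivAt (fun t => -(Real.log t)⁻¹)
        ((t * Real.log t ^ 2)⁻¹) t := by
      intro t ht
      rw [Set.uIcc_of_le hxy] at ht
      have := (hderiv t ht).neg
      rw [neg_neg] at this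
      exact this
    rw [intervalIntegral.integral_eq_sub_of_hasDerivAt this]
    · ring
    · rw [intervalIntegrable_iff_integrableOn_Ioc_of_le hxy]
      have := hint.neg.mono_set (Set.Ioc_subset_Icc_self (a := x) (b := y))
      apply this.congr_fun _ measurableSet_Ioc
      intro t _
      simp
  have hdiffI : |∫ t in Set.Ioc x y, -(t * Real.log t ^ 2)⁻¹ * (A t - Real.log t)| ≤
      C1 * ((Real.log x)⁻¹ - (Real.log y)⁻¹) := by
    rw [← hI2, ← MeasureTheory.integral_const_mul]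
    rw [← Real.norm_eq_abs]
    apply MeasureTheory.norm_integral_le_of_norm_le
    · have := hint.neg.mono_set (Set.Ioc_subset_Icc_self (a := x) (b := y))
      have h2 : MeasureTheory.IntegrableOn (fun t => (t * Real.log t ^ 2)⁻¹) (Set.Ioc x y) := by
        apply this.congr_fun _ measurableSet_Ioc
        intro t _
        simp
      exact h2.const_mul C1
    · rw [MeasureTheory.ae_restrict_iff' measurableSet_Ioc]
      apply Filter.Eventually.of_forall
      intro t ht
      have ht0 : 0 < t := by linarith [ht.1]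
      have hlt : 0 < Real.log t := (Real.log_pos (by linarith [ht.1]))
      rw [norm_mul, norm_neg, Real.norm_eq_abs, Real.norm_eq_abs,
        abs_of_pos (by positivity : 0 < (t * Real.log t ^ 2)⁻¹), mul_comm]
      exact mul_le_mul_of_nonneg_right (hAbound t (by linarith [ht.1])) (by positivity)
  have hsplitI : ∫ t in Set.Ioc x y, -(t * Real.log t ^ 2)⁻¹ * (A t - Real.log t) =
      (∫ t in Set.Ioc x y, -(t * Real.log t ^ 2)⁻¹ * A t) +
        Real.log (Real.log y / Real.log x) := by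
    have : ∀ t, -(t * Real.log t ^ 2)⁻¹ * (A t - Real.log t) =
      -(t * Real.log t ^ 2)⁻¹ * A t - -(t * Real.log t ^ 2)⁻¹ * Real.log t := by
      intro t; ring
    simp_rw [this]
    rw [MeasureTheory.integral_sub hiA hiL, hI1]
    ring
  rw [hsplitI] at hdiffI
  have hbx := hAbound x hx
  have hby := hAbound y (by linarith)
  have hly' : (Real.log y)⁻¹ ≤ (Real.log x)⁻¹ :=
    inv_anti₀ hlx (Real.log_le_log hx0 hxy)
  have e1 : |(Real.log y)⁻¹ * A y - 1| ≤ C1 * (Real.log y)⁻¹ := by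
    have : (Real.log y)⁻¹ * A y - 1 = (A y - Real.log y) * (Real.log y)⁻¹ := by
      field_simp
    rw [this, abs_mul, abs_of_pos (inv_pos.mpr hly)]
    exact mul_le_mul_of_nonneg_right hby (inv_pos.mpr hly).le
  have e2 : |(Real.log x)⁻¹ * A x - 1| ≤ C1 * (Real.log x)⁻¹ := by
    have : (Real.log x)⁻¹ * A x - 1 = (A x - Real.log x) * (Real.log x)⁻¹ := by
      field_simp
    rw [this, abs_mul, abs_of_pos (inv_pos.mpr hlx)]
    exact mul_le_mul_of_nonneg_right hbx (inv_pos.mpr hlx).le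
  have habel' : ∑ q ∈ (Finset.Ioc ⌊x⌋₊ ⌊y⌋₊).filter Nat.Prime, (1:ℝ)/q =
    (Real.log y)⁻¹ * A y - (Real.log x)⁻¹ * A x -
      ∫ t in Set.Ioc x y, -(t * Real.log t ^ 2)⁻¹ * A t := habel
  rw [habel']
  have hC1pos : 0 < C1 := by positivity
  have h9 : C1 * (Real.log y)⁻¹ ≤ C1 * (Real.log x)⁻¹ := mul_le_mul_of_nonneg_left hly' hC1pos.le
  have h10 : 3 * C1 / Real.log x = 3 * (C1 * (Real.log x)⁻¹) := by ring
  rw [h10]
  rw [abs_le] at e1 e2 hdiffI ⊢
  have h11 : 0 < (Real.log y)⁻¹ := inv_pos.mpr hly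
  have h12 : 0 < C1 * (Real.log y)⁻¹ := by positivity
  constructor <;> nlinarith [e1.1, e1.2, e2.1, e2.2, hdiffI.1, hdiffI.2]

end Pool.Agent.Helper44
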