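import Pool.Agent.Helper44.MertensInterval

/-!
# Mertens' product, up to constants
-/

set_option autoImplicit false

open Finset Real

namespace Pool.Agent.Helper44

theorem one_sub_ge_exp {x : ℝ} (h0 : 0 ≤ x) (h1 : x ≤ 1 / 2) : Real.exp (-(2 * x)) ≤ 1 - x := by
  have h2 : 2 * x + 1 ≤ Real.exp (2 * x) := Real.add_one_le_exp _
  have h3 : 0 < Real.exp (2 * x) := Real.exp_pos _
  rw [Real.exp_neg, inv_le_comm₀ h3 (by linarith)]
  refine le_trans ?_ h2
  rw [inv_le_iff_one_le_mul₀ (by linarith)]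
  nlinarith

theorem one_sub_ge_exp' {x : ℝ} (h0 : 0 ≤ x) (h1 : x ≤ 1 / 2) :
    Real.exp (-(x + 2 * x ^ 2)) ≤ 1 - x := by
  have h2 : (x + 2 * x ^ 2) + 1 ≤ Real.exp (x + 2 * x ^ 2) := Real.add_one_le_exp _
  have h3 : 0 < Real.exp (x + 2 * x ^ 2) := Real.exp_pos _
  rw [Real.exp_neg, inv_le_comm₀ h3 (by linarith)]
  refine le_trans ?_ h2
  rw [inv_le_iff_one_le_mul₀ (by linarith)]
  nlinarith [sq_nonneg x, mul_nonneg h0 h0, mul_nonneg (mul_nonneg h0 h0) (by linarith : 0 ≤ 1 - 2 * x)]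

theorem sum_inv_sq_le : ∃ C : ℝ, 0 ≤ C ∧ ∀ s : Finset ℕ, ∑ n ∈ s, ((1 : ℝ) / n) ^ 2 ≤ C := by
  have h : Summable (fun n : ℕ => ((1 : ℝ) / n) ^ 2) := by
    have := Real.summable_one_div_nat_pow.mpr (by norm_num : 1 < 2)
    refine this.congr ?_
    intro n
    rw [div_pow, one_pow]
  exact ⟨∑' n : ℕ, ((1 : ℝ) / n) ^ 2, tsum_nonneg fun n => by positivity,
    fun s => h.sum_le_tsum s (fun n _ => by positivity)⟩

/-- Primes up to `w`. -/
noncomputable def primesUpTo (w : ℝ) : Finset ℕ := (Finset.Ioc 0 ⌊w⌋₊).filter Nat.Prime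

theorem mem_primesUpTo {w : ℝ} (hw : 0 ≤ w) {q : ℕ} : q ∈ primesUpTo w ↔ q.Prime ∧ (q : ℝ) ≤ w := by
  unfold primesUpTo
  rw [Finset.mem_filter, Finset.mem_Ioc]
  constructor
  · rintro ⟨⟨_, h⟩, hq⟩
    exact ⟨hq, (Nat.le_floor_iff hw).mp h⟩
  · rintro ⟨hq, h⟩
    exact ⟨⟨hq.pos, (Nat.le_floor_iff hw).mpr h⟩, hq⟩

theorem sum_primesUpTo_bounds : ∃ C : ℝ, 0 < C ∧ ∀ w : ℝ, 2 ≤ w →
    |∑ q ∈ primesUpTo w, (1 : ℝ) / q - Real.log (Real.log w)| ≤ C := by
  obtain ⟨C, hC, hM⟩ := mertens_interval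
  refine ⟨C / Real.log 2 + 2, by positivity, ?_⟩
  intro w hw
  have h1 := hM 2 w le_rfl hw
  have hl2 : 0 < Real.log 2 := Real.log_pos (by norm_num)
  have hlw : 0 < Real.log w := Real.log_pos (by linarith)
  have hfl : (2 : ℕ) ≤ ⌊w⌋₊ := by
    rw [Nat.le_floor_iff (by linarith)]; exact_mod_cast hw
  have hsplit : ∑ q ∈ primesUpTo w, (1 : ℝ) / q =
      1 / 2 + ∑ q ∈ (Finset.Ioc ⌊(2:ℝ)⌋₊ ⌊w⌋₊).filter Nat.Prime, (1:ℝ)/q := by
    have : ⌊(2:ℝ)⌋₊ = 2 := by norm_num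
    rw [this]
    have hu : primesUpTo w = insert 2 ((Finset.Ioc 2 ⌊w⌋₊).filter Nat.Prime) := by
      ext q
      unfold primesUpTo
      simp only [Finset.mem_filter, Finset.mem_Ioc, Finset.mem_insert]
      constructor
      · rintro ⟨⟨h0, h⟩, hq⟩
        rcases eq_or_ne q 2 with h2 | h2
        · left; exact h2
        · right; exact ⟨⟨by have := hq.two_le; omega, h⟩, hq⟩
      · rintro (rfl | ⟨⟨h0, h⟩, hq⟩)
        · exact ⟨⟨by norm_num, hfl⟩, Nat.prime_two⟩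
        · exact ⟨⟨by omega, h⟩, hq⟩
    rw [hu, Finset.sum_insert]
    · norm_num
    · simp
  rw [hsplit]
  rw [Real.log_div hlw.ne' hl2.ne'] at h1
  have hll : |Real.log (Real.log 2)| ≤ 1 := by
    rw [abs_le]
    constructor
    · -- log log 2 ≥ -1 : log 2 ≥ exp (-1)
      have h3 : Real.exp (-1) ≤ Real.log 2 := by
        have h4 := Real.exp_neg_one_lt_d9
        have h5 := Real.log_two_gt_d9
        linarith
      calc (-1 : ℝ) = Real.log (Real.exp (-1)) := by rw [Real.log_exp]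
        _ ≤ _ := Real.log_le_log (Real.exp_pos _) h3
    · have := Real.log_le_sub_one_of_pos hl2
      have h5 := Real.log_two_lt_d9
      linarith
  rw [abs_le] at h1 hll ⊢
  constructor <;> linarith [h1.1, h1.2, hll.1, hll.2]

theorem mertens_prod : ∃ c C : ℝ, 0 < c ∧ 0 < C ∧ ∀ w : ℝ, 2 ≤ w →
    c / Real.log w ≤ ∏ q ∈ primesUpTo w, (1 - (1 : ℝ) / q) ∧
    ∏ q ∈ primesUpTo w, (1 - (1 : ℝ) / q) ≤ C / Real.log w := by
  obtain ⟨C, hC, hM⟩ := sum_primesUpTo_bounds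
  obtain ⟨C2, hC2, hS⟩ := sum_inv_sq_le
  refine ⟨Real.exp (-(C + 2 * C2)), Real.exp C, Real.exp_pos _, Real.exp_pos _, ?_⟩
  intro w hw
  have hlw : 0 < Real.log w := Real.log_pos (by linarith)
  have h1 := hM w hw
  rw [abs_le] at h1
  have hq : ∀ q ∈ primesUpTo w, (0 : ℝ) ≤ 1 / q ∧ (1 : ℝ) / q ≤ 1 / 2 := by
    intro q hq
    rw [mem_primesUpTo (by linarith)] at hq
    have : (2 : ℝ) ≤ q := by exact_mod_cast hq.1.two_le
    exact ⟨by positivity, one_div_le_one_div_of_le (by norm_num) this⟩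
  constructor
  · calc Real.exp (-(C + 2 * C2)) / Real.log w
        = Real.exp (-(C + 2 * C2) - Real.log (Real.log w)) := by
          rw [Real.exp_sub, Real.exp_log hlw]
      _ ≤ Real.exp (-∑ q ∈ primesUpTo w, ((1 : ℝ) / q + 2 * ((1 : ℝ) / q) ^ 2)) := by
          apply Real.exp_le_exp.mpr
          rw [Finset.sum_add_distrib, ← Finset.mul_sum]
          have := hS (primesUpTo w)
          linarith [h1.2]
      _ = ∏ q ∈ primesUpTo w, Real.exp (-((1 : ℝ) / q + 2 * ((1 : ℝ) / q) ^ 2)) := by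
          rw [← Finset.sum_neg_distrib, Real.exp_sum]
      _ ≤ ∏ q ∈ primesUpTo w, (1 - (1 : ℝ) / q) := by
          apply Finset.prod_le_prod
          · intro q _; exact (Real.exp_pos _).le
          · intro q hq'
            exact one_sub_ge_exp' (hq q hq').1 (hq q hq').2
  · calc ∏ q ∈ primesUpTo w, (1 - (1 : ℝ) / q)
        ≤ ∏ q ∈ primesUpTo w, Real.exp (-((1 : ℝ) / q)) := by
          apply Finset.prod_le_prod
          · intro q hq'
            linarith [(hq q hq').2]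
          · intro q _
            have := Real.add_one_le_exp (-((1 : ℝ) / q))
            linarith
      _ = Real.exp (-∑ q ∈ primesUpTo w, (1 : ℝ) / q) := by
          rw [← Real.exp_sum, Finset.sum_neg_distrib]
      _ ≤ Real.exp (C - Real.log (Real.log w)) := by
          apply Real.exp_le_exp.mpr
          linarith [h1.1]
      _ = Real.exp C / Real.log w := by rw [Real.exp_sub, Real.exp_log hlw]

end Pool.Agent.Helper44
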