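import Pool.Agent.Helper44.Defs

/-!
# Smooth and rough parts
-/

set_option autoImplicit false

open Finset

namespace Pool.Agent.Helper44

/-- The part of `N` composed of primes `≤ y`. -/
noncomputable def sm (y N : ℕ) : ℕ := (N.factorization.filter (fun q => q ≤ y)).prod (fun q e => q ^ e)

/-- The part of `N` composed of primes `> y`. -/
noncomputable def ro (y N : ℕ) : ℕ := (N.factorization.filter (fun q => ¬ q ≤ y)).prod (fun q e => q ^ e)

theorem factorization_sm (y N : ℕ) :
    (sm y N).factorization = N.factorization.filter (fun q => q ≤ y) := by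
  unfold sm
  apply Nat.prod_pow_factorization_eq_self
  intro q hq
  rw [Finsupp.support_filter, Finset.mem_filter] at hq
  exact Nat.prime_of_mem_primeFactors (by simpa using hq.1)

theorem factorization_ro (y N : ℕ) :
    (ro y N).factorization = N.factorization.filter (fun q => ¬ q ≤ y) := by
  unfold ro
  apply Nat.prod_pow_factorization_eq_self
  intro q hq
  rw [Finsupp.support_filter, Finset.mem_filter] at hq
  exact Nat.prime_of_mem_primeFactors (by simpa using hq.1)

theorem sm_pos (y N : ℕ) : 0 < sm y N := by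
  unfold sm
  apply Nat.pos_of_ne_zero
  rw [Finsupp.prod, Finset.prod_ne_zero_iff]
  intro q hq
  rw [Finsupp.support_filter, Finset.mem_filter] at hq
  have : q.Prime := Nat.prime_of_mem_primeFactors (by simpa using hq.1)
  exact pow_ne_zero _ this.ne_zero

theorem ro_pos (y N : ℕ) : 0 < ro y N := by
  unfold ro
  apply Nat.pos_of_ne_zero
  rw [Finsupp.prod, Finset.prod_ne_zero_iff]
  intro q hq
  rw [Finsupp.support_filter, Finset.mem_filter] at hq
  have : q.Prime := Nat.prime_of_mem_primeFactors (by simpa using hq.1)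
  exact pow_ne_zero _ this.ne_zero

theorem sm_mul_ro {y N : ℕ} (hN : N ≠ 0) : sm y N * ro y N = N := by
  apply Nat.eq_of_factorization_eq (mul_ne_zero (sm_pos y N).ne' (ro_pos y N).ne') hN
  intro q
  rw [Nat.factorization_mul (sm_pos y N).ne' (ro_pos y N).ne', factorization_sm, factorization_ro,
    Finsupp.add_apply, Finsupp.filter_apply, Finsupp.filter_apply]
  by_cases h : q ≤ y <;> simp [h]

theorem sm_mul {y a b : ℕ} (ha : a ≠ 0) (hb : b ≠ 0) : sm y (a * b) = sm y a * sm y b := by
  apply Nat.eq_of_factorization_eq (sm_pos _ _).ne' (mul_ne_zero (sm_pos _ _).ne' (sm_pos _ _).ne')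
  intro q
  rw [Nat.factorization_mul (sm_pos y a).ne' (sm_pos y b).ne', factorization_sm, factorization_sm,
    factorization_sm, Nat.factorization_mul ha hb, Finsupp.filter_add]

theorem prime_dvd_sm {y N q : ℕ} (hq : q.Prime) (h : q ∣ sm y N) : q ≤ y ∧ q ∣ N := by
  have h1 : (sm y N).factorization q ≠ 0 := by
    rw [← Nat.pos_iff_ne_zero]
    exact hq.factorization_pos_of_dvd (sm_pos y N).ne' h
  rw [factorization_sm, Finsupp.filter_apply] at h1
  split_ifs at h1 with hqy
  · exact ⟨hqy, Nat.dvd_of_factorization_pos h1⟩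
  · exact absurd rfl h1

theorem prime_dvd_ro {y N q : ℕ} (hq : q.Prime) (h : q ∣ ro y N) : y < q ∧ q ∣ N := by
  have h1 : (ro y N).factorization q ≠ 0 := by
    rw [← Nat.pos_iff_ne_zero]
    exact hq.factorization_pos_of_dvd (ro_pos y N).ne' h
  rw [factorization_ro, Finsupp.filter_apply] at h1
  by_cases hqy : q ≤ y
  · rw [if_neg (by simpa using hqy)] at h1
    exact absurd rfl h1
  · rw [if_pos hqy] at h1
    exact ⟨by omega, Nat.dvd_of_factorization_pos h1⟩

/-- Uniqueness of the decomposition into smooth and rough parts. -/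
theorem sm_unique {y M R : ℕ} (hM : M ≠ 0) (hR : R ≠ 0)
    (h1 : ∀ q : ℕ, q.Prime → q ∣ M → q ≤ y) (h2 : ∀ q : ℕ, q.Prime → q ∣ R → y < q) :
    M = sm y (M * R) := by
  rw [sm_mul hM hR]
  have e1 : sm y M = M := by
    apply Nat.eq_of_factorization_eq (sm_pos _ _).ne' hM
    intro q
    rw [factorization_sm, Finsupp.filter_apply]
    split_ifs with hq
    · rfl
    · symm
      by_contra hne
      have hq' : q.Prime := by
        by_contra hnp
        exact hne (Nat.factorization_eq_zero_of_not_prime _ hnp)
      exact hq (h1 q hq' (Nat.dvd_of_factorization_pos hne))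
  have e2 : sm y R = 1 := by
    by_contra hne
    obtain ⟨q, hq, hqd⟩ := Nat.exists_prime_and_dvd hne
    have h3 := prime_dvd_sm hq hqd
    have h4 := h2 q hq h3.2
    omega
  rw [e1, e2, mul_one]

theorem sm_succ (y N : ℕ) : sm (y + 1) N = sm y N * (y + 1) ^ (N.factorization (y + 1)) := by
  apply Nat.eq_of_factorization_eq (sm_pos _ _).ne'
    (mul_ne_zero (sm_pos _ _).ne' (pow_ne_zero _ (by omega)))
  intro q
  rw [Nat.factorization_mul (sm_pos _ _).ne' (pow_ne_zero _ (by omega)), factorization_sm,
    factorization_sm, Finsupp.add_apply, Finsupp.filter_apply, Finsupp.filter_apply]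
  by_cases hp : (y + 1).Prime
  · rw [hp.factorization_pow, Finsupp.single_apply]
    rcases lt_trichotomy q (y + 1) with h | h | h
    · rw [if_pos (by omega), if_pos (by omega), if_neg (by omega), add_zero]
    · rw [if_pos (by omega), if_neg (by omega), if_pos h.symm, zero_add, h]
    · rw [if_neg (by omega), if_neg (by omega), if_neg (by omega), add_zero]
  · rw [Nat.factorization_eq_zero_of_not_prime N hp, pow_zero, Nat.factorization_one]
    rcases lt_trichotomy q (y + 1) with h | h | h
    · rw [if_pos (by omega), if_pos (by omega)]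
      simp
    · rw [if_pos (by omega), if_neg (by omega), h,
        Nat.factorization_eq_zero_of_not_prime N hp]
      simp
    · rw [if_neg (by omega), if_neg (by omega)]
      simp

theorem sm_le_of_zero (N : ℕ) : sm 0 N = 1 := by
  by_contra hne
  obtain ⟨q, hq, hqd⟩ := Nat.exists_prime_and_dvd hne
  have := (prime_dvd_sm hq hqd).1
  have := hq.pos
  omega

/-- A rough number has few divisors. -/
theorem card_divisors_le_of_rough {R k : ℕ} {t : ℝ} (ht : 1 < t) (hR : R ≠ 0)
    (h1 : ∀ q : ℕ, q.Prime → q ∣ R → t < q) (h2 : (R : ℝ) < t ^ k) :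
    R.divisors.card ≤ 2 ^ k := by
  rw [Nat.card_divisors hR]
  have h3 : ∏ q ∈ R.primeFactors, (R.factorization q + 1) ≤
      ∏ q ∈ R.primeFactors, 2 ^ (R.factorization q) := by
    apply Finset.prod_le_prod'
    intro q _
    exact Nat.lt_two_pow_self
  refine h3.trans ?_
  rw [Finset.prod_pow_eq_pow_sum]
  apply Nat.pow_le_pow_right (by norm_num)
  have h4 : t ^ (∑ q ∈ R.primeFactors, R.factorization q) ≤ (R : ℝ) := by
    rw [← Finset.prod_pow_eq_pow_sum]
    have h5 : (R : ℝ) = ∏ q ∈ R.primeFactors, (q : ℝ) ^ (R.factorization q) := by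
      have := Nat.prod_factorization_pow_eq_self hR
      conv_lhs => rw [← this]
      rw [Finsupp.prod]
      push_cast
      rfl
    rw [h5]
    apply Finset.prod_le_prod
    · intro q _; positivity
    · intro q hq
      apply pow_le_pow_left₀ (by linarith)
      exact (h1 q (Nat.prime_of_mem_primeFactors hq) (Nat.dvd_of_mem_primeFactors hq)).le
  have h6 : t ^ (∑ q ∈ R.primeFactors, R.factorization q) < t ^ k := h4.trans_lt h2
  exact ((pow_lt_pow_iff_right₀ ht).mp h6).le

end Pool.Agent.Helper44
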