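import Mathlib

/-!
# Truncated inclusion-exclusion and the Brun-Hooley sieve (abstract form)
-/

set_option autoImplicit false

open Finset

namespace Pool.Agent.Helper44

variable {ι : Type*} [DecidableEq ι]

/-- Elementary symmetric sum. -/
noncomputable def es (B : Finset ι) (m : ℕ) (x : ι → ℝ) : ℝ :=
  ∑ I ∈ B.powerset, if I.card = m then ∏ i ∈ I, x i else 0

/-- Truncated alternating sum. -/
noncomputable def tr (B : Finset ι) (m : ℕ) (x : ι → ℝ) : ℝ :=
  ∑ I ∈ B.powerset, if I.card ≤ m then (-1 : ℝ) ^ I.card * ∏ i ∈ I, x i else 0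

theorem es_zero (B : Finset ι) (x : ι → ℝ) : es B 0 x = 1 := by
  unfold es
  have h : ∀ I ∈ B.powerset, (if I.card = 0 then ∏ i ∈ I, x i else 0) =
      if I = ∅ then 1 else 0 := by
    intro I _
    by_cases hI : I = ∅
    · simp [hI]
    · simp [hI]
  rw [Finset.sum_congr rfl h]
  simp

theorem tr_zero (B : Finset ι) (x : ι → ℝ) : tr B 0 x = 1 := by
  unfold tr
  have h : ∀ I ∈ B.powerset, (if I.card ≤ 0 then (-1 : ℝ) ^ I.card * ∏ i ∈ I, x i else 0) =
      if I = ∅ then 1 else 0 := by
    intro I _
    by_cases hI : I = ∅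
    · simp [hI]
    · simp [hI]
  rw [Finset.sum_congr rfl h]
  simp

theorem tr_succ (B : Finset ι) (m : ℕ) (x : ι → ℝ) :
    tr B (m + 1) x = tr B m x + (-1) ^ (m + 1) * es B (m + 1) x := by
  unfold tr es
  rw [Finset.mul_sum, ← Finset.sum_add_distrib]
  apply Finset.sum_congr rfl
  intro I _
  rcases lt_trichotomy I.card (m + 1) with h | h | h
  · rw [if_pos (by omega), if_pos (by omega), if_neg (by omega)]; ring
  · rw [if_pos (by omega), if_neg (by omega), if_pos h, h]; ring
  · rw [if_neg (by omega), if_neg (by omega), if_neg (by omega)]; ring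

theorem es_insert {a : ι} {B : Finset ι} (ha : a ∉ B) (m : ℕ) (x : ι → ℝ) :
    es (insert a B) (m + 1) x = es B (m + 1) x + x a * es B m x := by
  unfold es
  rw [Finset.sum_powerset_insert ha, Finset.mul_sum]
  congr 1
  apply Finset.sum_congr rfl
  intro I hI
  have haI : a ∉ I := fun h => ha (Finset.mem_powerset.mp hI h)
  rw [Finset.card_insert_of_notMem haI, Finset.prod_insert haI]
  by_cases h : I.card = m
  · simp [h]
  · simp [h]

theorem tr_insert {a : ι} {B : Finset ι} (ha : a ∉ B) (m : ℕ) (x : ι → ℝ) :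
    tr (insert a B) (m + 1) x = tr B (m + 1) x - x a * tr B m x := by
  unfold tr
  rw [Finset.sum_powerset_insert ha, Finset.mul_sum, sub_eq_add_neg, ← Finset.sum_neg_distrib]
  congr 1
  apply Finset.sum_congr rfl
  intro I hI
  have haI : a ∉ I := fun h => ha (Finset.mem_powerset.mp hI h)
  rw [Finset.card_insert_of_notMem haI, Finset.prod_insert haI]
  by_cases h : I.card ≤ m
  · simp only [h, if_true, Nat.add_le_add_iff_right]; ring
  · simp only [h, if_false, Nat.add_le_add_iff_right]; ring

theorem es_nonneg (B : Finset ι) (m : ℕ) (x : ι → ℝ) (hx : ∀ i ∈ B, 0 ≤ x i) :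
    0 ≤ es B m x := by
  unfold es
  apply Finset.sum_nonneg
  intro I hI
  split_ifs
  · exact Finset.prod_nonneg fun i hi => hx i (Finset.mem_powerset.mp hI hi)
  · exact le_rfl

/-- Bonferroni inequalities in weighted form. -/
theorem bonferroni (B : Finset ι) (x : ι → ℝ) (hx : ∀ i ∈ B, 0 ≤ x i ∧ x i ≤ 1) (m : ℕ) :
    0 ≤ (-1 : ℝ) ^ m * (tr B m x - ∏ i ∈ B, (1 - x i)) := by
  induction B using Finset.induction_on generalizing m with
  | empty =>
    have : tr (∅ : Finset ι) m x = 1 := by simp [tr]
    simp [this]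
  | insert a B ha ih =>
    have hxB : ∀ i ∈ B, 0 ≤ x i ∧ x i ≤ 1 := fun i hi => hx i (Finset.mem_insert_of_mem hi)
    have hxa := hx a (Finset.mem_insert_self a B)
    have hP0 : 0 ≤ ∏ i ∈ B, (1 - x i) := Finset.prod_nonneg fun i hi => by linarith [(hxB i hi).2]
    rw [Finset.prod_insert ha]
    cases m with
    | zero =>
      have h0 := ih hxB 0
      rw [tr_zero] at h0 ⊢
      simp only [pow_zero, one_mul] at h0 ⊢
      nlinarith [mul_nonneg hxa.1 hP0]
    | succ m =>
      have h1 := ih hxB (m + 1)
      have h2 := ih hxB m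
      rw [tr_insert ha]
      have : (-1 : ℝ) ^ (m + 1) * (tr B (m + 1) x - x a * tr B m x - (1 - x a) * ∏ i ∈ B, (1 - x i))
        = (-1 : ℝ) ^ (m + 1) * (tr B (m + 1) x - ∏ i ∈ B, (1 - x i)) +
          x a * ((-1 : ℝ) ^ m * (tr B m x - ∏ i ∈ B, (1 - x i))) := by
        rw [pow_succ]; ring
      rw [this]
      exact add_nonneg h1 (mul_nonneg hxa.1 h2)

theorem prod_le_tr_even (B : Finset ι) (x : ι → ℝ) (hx : ∀ i ∈ B, 0 ≤ x i ∧ x i ≤ 1) (m : ℕ)
    (hm : Even m) : ∏ i ∈ B, (1 - x i) ≤ tr B m x := by
  have h := bonferroni B x hx m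
  rw [hm.neg_one_pow, one_mul] at h
  linarith

theorem tr_even_le (B : Finset ι) (x : ι → ℝ) (hx : ∀ i ∈ B, 0 ≤ x i ∧ x i ≤ 1) (m : ℕ)
    (hm : Even m) : tr B m x ≤ ∏ i ∈ B, (1 - x i) + es B (m + 1) x := by
  have h := bonferroni B x hx (m + 1)
  rw [tr_succ, hm.add_one.neg_one_pow] at h
  linarith

theorem es_le_pow_div_factorial (B : Finset ι) (x : ι → ℝ) (hx : ∀ i ∈ B, 0 ≤ x i) (m : ℕ) :
    es B m x ≤ (∑ i ∈ B, x i) ^ m / m.factorial := by
  induction B using Finset.induction_on generalizing m with
  | empty =>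
    unfold es
    cases m with
    | zero => simp
    | succ m => simp
  | insert a B ha ih =>
    have hxB : ∀ i ∈ B, 0 ≤ x i := fun i hi => hx i (Finset.mem_insert_of_mem hi)
    have hxa := hx a (Finset.mem_insert_self a B)
    cases m with
    | zero => rw [es_zero]; simp
    | succ m =>
      rw [es_insert ha, Finset.sum_insert ha]
      have h1 := ih hxB (m + 1)
      have h2 := ih hxB m
      set s := ∑ i ∈ B, x i with hs
      have hs0 : 0 ≤ s := Finset.sum_nonneg hxB
      have hb : s ^ (m + 1) + (m + 1) * (x a * s ^ m) ≤ (x a + s) ^ (m + 1) := by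
        -- binomial: first two terms
        have hexp : ∀ m : ℕ, s ^ (m + 1) + (m + 1) * (x a * s ^ m) ≤ (x a + s) ^ (m + 1) := by
          intro m
          induction m with
          | zero => simp; linarith
          | succ k ihk =>
            have : (x a + s) ^ (k + 1 + 1) = (x a + s) * (x a + s) ^ (k + 1) := by ring
            rw [this]
            calc s ^ (k + 1 + 1) + ((k + 1 : ℕ) + 1) * (x a * s ^ (k + 1))
                ≤ (x a + s) * (s ^ (k + 1) + (k + 1) * (x a * s ^ k)) := by
                  have e : (x a + s) * (s ^ (k + 1) + (k + 1) * (x a * s ^ k)) =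
                    s ^ (k + 1 + 1) + ((k + 1 : ℕ) + 1) * (x a * s ^ (k + 1)) +
                      (k + 1) * (x a * x a * s ^ k) := by
                    push_cast; ring
                  rw [e]
                  have : 0 ≤ ((k : ℝ) + 1) * (x a * x a * s ^ k) := by positivity
                  linarith
              _ ≤ _ := mul_le_mul_of_nonneg_left ihk (by linarith)
        exact hexp m
      have hf : ((m + 1).factorial : ℝ) = (m + 1) * m.factorial := by
        rw [Nat.factorial_succ]; push_cast; ring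
      have hfpos : (0 : ℝ) < m.factorial := by positivity
      calc es B (m + 1) x + x a * es B m x
          ≤ s ^ (m + 1) / (m + 1).factorial + x a * (s ^ m / m.factorial) := by
            gcongr
        _ = (s ^ (m + 1) + (m + 1) * (x a * s ^ m)) / (m + 1).factorial := by
            rw [hf]
            field_simp
        _ ≤ (x a + s) ^ (m + 1) / (m + 1).factorial := by
            gcongr

end Pool.Agent.Helper44
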