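import Mathlib

/-!
# Shared definitions for the theorem on `L(p)` (problem MP_5b95d4_nt)
-/

set_option autoImplicit false

namespace Pool.Agent.Helper44

/-- Number of dyadic intervals `[2^k, 2^(k+1))` that contain a divisor of `M`. -/
def kap (M : ℕ) : ℕ := (M.divisors.image (Nat.log 2)).card

/-- The exponent `δ = 1 - (1 + log log 2) / log 2 = 0.0860713...`. -/
noncomputable def del : ℝ := 1 - (1 + Real.log (Real.log 2)) / Real.log 2

open Classical in
/-- Vectors `b` supported on `{0, ..., J-1}` with total `k` and partial sums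
`b 0 + ... + b (h-1) ≤ h + u` for all `1 ≤ h ≤ J`. -/
noncomputable def ballotSet (J k u : ℕ) : Finset (ℕ → ℕ) :=
  (Finset.piAntidiag (Finset.range J) k).filter
    (fun b => ∀ h ∈ Finset.Icc 1 J, ∑ i ∈ Finset.range h, b i ≤ h + u)

/-- The weighted ballot sum. -/
noncomputable def ballotSum (J k u : ℕ) : ℝ :=
  ∑ b ∈ ballotSet J k u, ∏ i ∈ Finset.range J, (1 : ℝ) / ((b i).factorial : ℝ)

end Pool.Agent.Helper44
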