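import Pool.Agent.Helper25.BG.Final
import Pool.Agent.Helper69.TM.Equiv

/-!
# Sanity checks of the definitions of `MP_67bc2f_lc.BrakensiekGuruswami`

`InNP` contains `InP`, and if some language in P separates the YES instances of `PCSP(G, H)` from
the NO instances then `NPHardPCSP G H` implies that every language in NP is in P. So the
conclusion of the theorem has its usual consequences.
-/

set_option autoImplicit false

namespace Pool.Agent.Helper44.BGSanity

open Pool.Agent.Helper96 Pool.Agent.Helper69
open Pool.Agent.Helper25.PH (NPHardPCSP Yes No)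

/-- P is contained in NP. -/
theorem inNP_of_inP {L : Set (List Bool)} (h : InP L) : InNP L := by
  obtain ⟨f, hf, hL⟩ := (inP_iff L).1 h
  refine (inNP_iff L).2 ⟨fun x => f x.1, 0, hf.comp (Poly.fst Poly.id'), fun w => ?_⟩
  constructor
  · intro hw
    exact ⟨[], by simp, (hL w).2 hw⟩
  · rintro ⟨y, -, hy⟩
    exact (hL w).1 hy

/-- A polynomial time algorithm for the promise problem puts NP into P. -/
theorem np_in_p_of_separation {V W : Type} {G : SimpleGraph V} {H : SimpleGraph W}
    (hard : NPHardPCSP G H) {S : Set (List Bool)} (hS : InP S) (hY : Yes G ⊆ S)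
    (hN : ∀ w ∈ S, w ∉ No H) : ∀ L : Set (List Bool), InNP L → InP L := by
  intro L hL
  obtain ⟨f, hf, h1, h2⟩ := hard L hL
  obtain ⟨g, hg, hgS⟩ := (inP_iff S).1 hS
  refine (inP_iff L).2 ⟨fun w => g (f w), hg.comp ((polyTimeFun_iff f).1 hf), fun w => ?_⟩
  rw [hgS]
  constructor
  · intro hw
    by_contra hwL
    exact hN _ hw (h2 w hwL)
  · intro hw
    exact hY (h1 w hw)

theorem code_length (n : ℕ) (A : Fin n → Fin n → Prop) :
    (Pool.Agent.Helper25.PH.code n A).length = n * n := by
  simp [Pool.Agent.Helper25.PH.code, List.length_flatMap]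

/-- The word determines the digraph. -/
theorem code_inj {n n' : ℕ} {A : Fin n → Fin n → Prop} {A' : Fin n' → Fin n' → Prop}
    (h : Pool.Agent.Helper25.PH.code n A = Pool.Agent.Helper25.PH.code n' A') :
    ∃ e : n = n', ∀ i j, A i j ↔ A' (Fin.cast e i) (Fin.cast e j) := by
  have h1 : n * n = n' * n' := by
    rw [← code_length n A, ← code_length n' A', h]
  have e : n = n' := Nat.mul_self_inj.1 h1
  subst e
  refine ⟨rfl, fun i j => ?_⟩
  unfold Pool.Agent.Helper25.PH.code at h
  rw [List.flatMap_def, List.flatMap_def] at h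
  have h2 := List.eq_iff_flatten_eq.2 ⟨h, by simp [List.map_map, Function.comp_def]⟩
  have h3 := (List.map_inj_left.1 h2) i (List.mem_finRange i)
  have h4 := (List.map_inj_left.1 h3) j (List.mem_finRange j)
  simpa using h4

/-- The YES and the NO instances are disjoint when `G → H`. -/
theorem disjoint_of_hom {V W : Type} {G : SimpleGraph V} {H : SimpleGraph W} (φ : V → W)
    (hφ : ∀ u v, G.Adj u v → H.Adj (φ u) (φ v)) : ∀ w ∈ Yes G, w ∉ No H := by
  rintro w ⟨n, A, rfl, f, hf⟩ ⟨n', A', hw, hno⟩
  obtain ⟨e, he⟩ := code_inj hw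
  subst e
  exact hno ⟨fun i => φ (f i), fun i j hij => hφ _ _ (hf _ _ ((he i j).2 hij))⟩

end Pool.Agent.Helper44.BGSanity
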