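import Pool.Agent.Helper44.SievePairs
import Pool.Agent.Helper94.Box.BoxCount

/-!
# Sieving in boxes on the modular hyperbola
-/

set_option autoImplicit false

open Finset Real

namespace Pool.Agent.Helper44

/-- Pairs `(r, s)` in a box with `M r s ≡ 1 (mod p)`. -/
def boxSet (p M R1 R2 S2 : ℕ) : Finset (ℕ × ℕ) :=
  (Finset.Ioc R1 R2 ×ˢ Finset.Ioc 0 S2).filter (fun t => M * t.1 * t.2 ≡ 1 [MOD p])

theorem card_box_dvd (p M R1 R2 S2 d e : ℕ) (hd : 0 < d) (he : 0 < e) :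
    ((boxSet p M R1 R2 S2).filter (fun t => d ∣ t.1 ∧ e ∣ t.2)).card =
      ((Finset.Ioc (R1 / d) (R2 / d) ×ˢ Finset.Ioc 0 (S2 / e)).filter
        (fun t => (M * d * e) * t.1 * t.2 ≡ 1 [MOD p])).card := by
  symm
  apply Finset.card_bij (fun t _ => (d * t.1, e * t.2))
  · rintro ⟨x, y⟩ h
    simp only [Finset.mem_filter, Finset.mem_product, Finset.mem_Ioc, boxSet] at h ⊢
    obtain ⟨⟨⟨h1, h2⟩, h3, h4⟩, h5⟩ := h
    refine ⟨⟨⟨⟨?_, ?_⟩, ?_, ?_⟩, ?_⟩, Dvd.intro _ rfl, Dvd.intro _ rfl⟩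
    · rw [Nat.div_lt_iff_lt_mul hd] at h1; linarith [mul_comm x d]
    · rw [Nat.le_div_iff_mul_le hd] at h2; linarith [mul_comm x d]
    · positivity
    · rw [Nat.le_div_iff_mul_le he] at h4; linarith [mul_comm y e]
    · have : M * (d * x) * (e * y) = M * d * e * x * y := by ring
      rw [this]; exact h5
  · rintro ⟨x, y⟩ _ ⟨x', y'⟩ _ h
    simp only [Prod.mk.injEq] at h
    exact Prod.ext (Nat.eq_of_mul_eq_mul_left hd h.1) (Nat.eq_of_mul_eq_mul_left he h.2)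
  · rintro ⟨r, s⟩ h
    simp only [Finset.mem_filter, Finset.mem_product, Finset.mem_Ioc, boxSet] at h
    obtain ⟨⟨⟨⟨h1, h2⟩, h3, h4⟩, h5⟩, ⟨x, rfl⟩, ⟨y, rfl⟩⟩ := h
    refine ⟨(x, y), ?_, rfl⟩
    simp only [Finset.mem_filter, Finset.mem_product, Finset.mem_Ioc]
    refine ⟨⟨⟨?_, ?_⟩, ?_, ?_⟩, ?_⟩
    · rw [Nat.div_lt_iff_lt_mul hd]; linarith [mul_comm x d]
    · rw [Nat.le_div_iff_mul_le hd]; linarith [mul_comm x d]
    · rcases Nat.eq_zero_or_pos y with h0 | h0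
      · subst h0; simp at h3
      · exact h0
    · rw [Nat.le_div_iff_mul_le he]; linarith [mul_comm y e]
    · have : M * (d * x) * (e * y) = M * d * e * x * y := by ring
      rw [← this]; exact h5

theorem abs_natDiv_sub (a d : ℕ) (hd : 0 < d) : |((a / d : ℕ) : ℝ) - (a : ℝ) / d| ≤ 1 := by
  have hd' : (0 : ℝ) < d := by exact_mod_cast hd
  have h1 : ((a / d : ℕ) : ℝ) ≤ (a : ℝ) / d := Nat.cast_div_le
  have h2 : (a : ℝ) / d ≤ ((a / d : ℕ) : ℝ) + 1 := by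
    rw [div_le_iff₀ hd']
    have h3 := Nat.div_add_mod a d
    have h4 := Nat.mod_lt a hd
    have : a ≤ (a / d + 1) * d := by nlinarith
    exact_mod_cast this
  rw [abs_le]; constructor <;> linarith

theorem box_dvd_bound : ∃ C : ℝ, 0 < C ∧ ∀ p : ℕ, p.Prime → ∀ M : ℕ, ¬ p ∣ M →
    ∀ R1 R2 S2 : ℕ, R1 ≤ R2 → R2 < p → S2 < p → ∀ d e : ℕ, 0 < d → 0 < e → ¬ p ∣ d → ¬ p ∣ e →
    |evCount (boxSet p M R1 R2 S2) (fun t => d ∣ t.1 ∧ e ∣ t.2) -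
      (((R2 : ℝ) - R1) * S2 / p) / (d * e)| ≤ C * (p : ℝ) ^ (4 / 5 : ℝ) := by
  obtain ⟨C0, hC0, hbox⟩ := Pool.Agent.Helper94.box_count
  -- absorb the logarithm
  have hlog : ∀ x : ℝ, 1 ≤ x → x ^ (3 / 4 : ℝ) * (1 + Real.log x) ^ 2 ≤ 1681 * x ^ (4 / 5 : ℝ) := by
    intro x hx
    have hx0 : 0 < x := by linarith
    have h1 : Real.log x ≤ x ^ (1 / 40 : ℝ) / (1 / 40) := Real.log_le_rpow_div hx0.le (by norm_num)
    have h2 : (1 : ℝ) ≤ x ^ (1 / 40 : ℝ) := Real.one_le_rpow hx (by norm_num)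
    have h3 : 0 ≤ Real.log x := Real.log_nonneg hx
    have h4 : 1 + Real.log x ≤ 41 * x ^ (1 / 40 : ℝ) := by linarith
    calc x ^ (3 / 4 : ℝ) * (1 + Real.log x) ^ 2
        ≤ x ^ (3 / 4 : ℝ) * (41 * x ^ (1 / 40 : ℝ)) ^ 2 := by
          gcongr
      _ = 1681 * (x ^ (3 / 4 : ℝ) * (x ^ (1 / 40 : ℝ)) ^ 2) := by ring
      _ = 1681 * x ^ (4 / 5 : ℝ) := by
          rw [← Real.rpow_natCast, ← Real.rpow_mul hx0.le, ← Real.rpow_add hx0]
          norm_num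
  refine ⟨C0 * 1681 + 2, by positivity, ?_⟩
  intro p hp M hM R1 R2 S2 hR hR2 hS2 d e hd he hpd hpe
  have hp0 : (0 : ℝ) < p := by exact_mod_cast hp.pos
  have hp1 : (1 : ℝ) ≤ p := by exact_mod_cast hp.one_lt.le
  rw [evCount_eq, card_box_dvd p M R1 R2 S2 d e hd he]
  have hc : ¬ p ∣ M * d * e := by
    rw [hp.dvd_mul, hp.dvd_mul]
    tauto
  have h1 := hbox p hp (M * d * e) hc (R1 / d) (R2 / d) 0 (S2 / e)
    (Nat.div_le_div_right hR) ((Nat.div_le_self _ _).trans_lt hR2) (Nat.zero_le _)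
    ((Nat.div_le_self _ _).trans_lt hS2)
  have h2 := hlog p hp1
  set A : ℝ := ((R2 / d : ℕ) : ℝ) - ((R1 / d : ℕ) : ℝ) with hA
  set B : ℝ := ((S2 / e : ℕ) : ℝ) with hB
  set A' : ℝ := ((R2 : ℝ) - R1) / d with hA'
  set B' : ℝ := (S2 : ℝ) / e with hB'
  have hd' : (0 : ℝ) < d := by exact_mod_cast hd
  have he' : (0 : ℝ) < e := by exact_mod_cast he
  have hd1 : (1 : ℝ) ≤ d := by exact_mod_cast hd
  have he1 : (1 : ℝ) ≤ e := by exact_mod_cast he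
  -- |A - A'| ≤ 1
  have hR2p : (R2 : ℝ) ≤ p := by exact_mod_cast hR2.le
  have hS2p : (S2 : ℝ) ≤ p := by exact_mod_cast hS2.le
  have hR' : (R1 : ℝ) ≤ R2 := by exact_mod_cast hR
  have hAA : |A - A'| ≤ 1 := by
    have e1 : ((R1 / d : ℕ) : ℝ) ≤ (R1 : ℝ) / d := Nat.cast_div_le
    have e2 : ((R2 / d : ℕ) : ℝ) ≤ (R2 : ℝ) / d := Nat.cast_div_le
    have e3 := (abs_le.mp (abs_natDiv_sub R1 d hd)).1
    have e4 := (abs_le.mp (abs_natDiv_sub R2 d hd)).1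
    rw [hA, hA', sub_div, abs_le]
    constructor <;> linarith
  have hBB : |B - B'| ≤ 1 := abs_natDiv_sub S2 e he
  have hA'0 : 0 ≤ A' := div_nonneg (by linarith) hd'.le
  have hB0 : 0 ≤ B := by positivity
  have hA'p : A' ≤ p := by
    rw [hA', div_le_iff₀ hd']
    have : (0 : ℝ) ≤ R1 := by positivity
    nlinarith
  have hBp : B ≤ p := by
    rw [hB]
    have : ((S2 / e : ℕ) : ℝ) ≤ S2 := by exact_mod_cast Nat.div_le_self _ _
    linarith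
  have hdiff : |A * B / p - A' * B' / p| ≤ 2 := by
    have : A * B / p - A' * B' / p = ((A - A') * B + A' * (B - B')) / p := by ring
    rw [this, abs_div, abs_of_pos hp0, div_le_iff₀ hp0]
    calc |(A - A') * B + A' * (B - B')| ≤ |(A - A') * B| + |A' * (B - B')| := abs_add_le _ _
      _ = |A - A'| * B + A' * |B - B'| := by
          rw [abs_mul, abs_mul, abs_of_nonneg hB0, abs_of_nonneg hA'0]
      _ ≤ 1 * p + p * 1 := by
          gcongr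
      _ = 2 * p := by ring
  have hX : (((R2 : ℝ) - R1) * S2 / p) / (d * e) = A' * B' / p := by
    rw [hA', hB']; field_simp
  rw [hX]
  have h1' : |((((Finset.Ioc (R1 / d) (R2 / d) ×ˢ Finset.Ioc 0 (S2 / e)).filter
        (fun t => (M * d * e) * t.1 * t.2 ≡ 1 [MOD p])).card : ℕ) : ℝ) - A * B / p| ≤
      C0 * (p : ℝ) ^ (3 / 4 : ℝ) * (1 + Real.log p) ^ 2 := by
    have e0 : A * (B - ((0 : ℕ) : ℝ)) / p = A * B / p := by simp
    rw [← e0]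
    exact h1
  have hp45 : (1 : ℝ) ≤ (p : ℝ) ^ (4 / 5 : ℝ) := Real.one_le_rpow hp1 (by norm_num)
  calc _ ≤ |((((Finset.Ioc (R1 / d) (R2 / d) ×ˢ Finset.Ioc 0 (S2 / e)).filter
        (fun t => (M * d * e) * t.1 * t.2 ≡ 1 [MOD p])).card : ℕ) : ℝ) - A * B / p| +
        |A * B / p - A' * B' / p| := abs_sub_le _ _ _
    _ ≤ C0 * (p : ℝ) ^ (3 / 4 : ℝ) * (1 + Real.log p) ^ 2 + 2 := add_le_add h1' hdiff
    _ = C0 * ((p : ℝ) ^ (3 / 4 : ℝ) * (1 + Real.log p) ^ 2) + 2 := by ring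
    _ ≤ C0 * (1681 * (p : ℝ) ^ (4 / 5 : ℝ)) + 2 * (p : ℝ) ^ (4 / 5 : ℝ) := by
        gcongr
        linarith
    _ = _ := by ring

/-- Rough pairs: no prime factor up to `w`. -/
def roughPair (w : ℝ) (t : ℕ × ℕ) : Prop :=
  ∀ q : ℕ, q.Prime → (q : ℝ) ≤ w → ¬ q ∣ t.1 ∧ ¬ q ∣ t.2

/-- Sieve bounds in boxes. -/
theorem box_sieve : ∃ η C c : ℝ, 0 < η ∧ η ≤ 1 / 100 ∧ 0 < C ∧ 0 < c ∧
    ∀ p : ℕ, p.Prime → ∀ w : ℝ, 2 ≤ w → w ≤ (p : ℝ) ^ η → ∀ M : ℕ, ¬ p ∣ M →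
    ∀ R1 R2 S2 : ℕ, R1 ≤ R2 → R2 < p → S2 < p →
    evCount (boxSet p M R1 R2 S2) (roughPair w) ≤
      C * (((R2 : ℝ) - R1) * S2 / p) / (Real.log w) ^ 2 + C * (p : ℝ) ^ (5 / 6 : ℝ) ∧
    c * (((R2 : ℝ) - R1) * S2 / p) / (Real.log w) ^ 2 - C * (p : ℝ) ^ (5 / 6 : ℝ) ≤
      evCount (boxSet p M R1 R2 S2) (roughPair w) := by
  obtain ⟨K, C1, c1, hK, hC1, hc1, hsieve⟩ := sieve_pairs
  obtain ⟨C2, hC2, hdvd⟩ := box_dvd_bound
  refine ⟨1 / (100 * K), C1 + C2, c1, by positivity, ?_, by positivity, hc1, ?_⟩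
  · apply one_div_le_one_div_of_le (by norm_num); linarith
  intro p hp w hw hwp M hM R1 R2 S2 hR hR2 hS2
  have hp0 : (0 : ℝ) < p := by exact_mod_cast hp.pos
  have hp1 : (1 : ℝ) ≤ p := by exact_mod_cast hp.one_lt.le
  have hR' : (R1 : ℝ) ≤ R2 := by exact_mod_cast hR
  have hX0 : 0 ≤ ((R2 : ℝ) - R1) * S2 / p := by
    apply div_nonneg (mul_nonneg (by linarith) (by positivity)) hp0.le
  have hwlt : w < p := by
    refine hwp.trans_lt ?_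
    calc (p : ℝ) ^ (1 / (100 * K)) < (p : ℝ) ^ (1 : ℝ) := by
          apply Real.rpow_lt_rpow_of_exponent_lt
          · exact_mod_cast hp.one_lt
          · rw [div_lt_one (by positivity)]; linarith
      _ = p := Real.rpow_one _
  have hpq : ∀ d : ℕ, (∀ q : ℕ, q.Prime → q ∣ d → (q : ℝ) ≤ w) → ¬ p ∣ d := by
    intro d h hpd
    have := h p hp hpd
    linarith
  have h := hsieve w hw (boxSet p M R1 R2 S2) (((R2 : ℝ) - R1) * S2 / p)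
    (C2 * (p : ℝ) ^ (4 / 5 : ℝ)) hX0 (by positivity) (fun d e hd he hqd hqe =>
      hdvd p hp M hM R1 R2 S2 hR hR2 hS2 d e hd he (hpq d hqd) (hpq e hqe))
  have hwK : C2 * (p : ℝ) ^ (4 / 5 : ℝ) * w ^ K ≤ C2 * (p : ℝ) ^ (5 / 6 : ℝ) := by
    rw [mul_assoc]
    apply mul_le_mul_of_nonneg_left _ hC2.le
    calc (p : ℝ) ^ (4 / 5 : ℝ) * w ^ K ≤ (p : ℝ) ^ (4 / 5 : ℝ) * ((p : ℝ) ^ (1 / (100 * K))) ^ K := by
          gcongr
      _ = (p : ℝ) ^ (4 / 5 + 1 / 100 : ℝ) := by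
          rw [← Real.rpow_mul hp0.le, ← Real.rpow_add hp0]
          congr 1
          field_simp
      _ ≤ (p : ℝ) ^ (5 / 6 : ℝ) := by
          apply Real.rpow_le_rpow_of_exponent_le hp1
          norm_num
  have hp56 : (0 : ℝ) < (p : ℝ) ^ (5 / 6 : ℝ) := Real.rpow_pos_of_pos hp0 _
  have hfun : (fun t : ℕ × ℕ => ∀ q : ℕ, q.Prime → (q : ℝ) ≤ w → ¬ q ∣ t.1 ∧ ¬ q ∣ t.2) =
      roughPair w := rfl
  rw [hfun] at h
  constructor
  · refine h.1.trans ?_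
    have e1 : C1 * (((R2 : ℝ) - R1) * S2 / p) / (Real.log w) ^ 2 ≤
        (C1 + C2) * (((R2 : ℝ) - R1) * S2 / p) / (Real.log w) ^ 2 := by
      gcongr
      linarith
    nlinarith
  · refine le_trans ?_ h.2
    nlinarith

end Pool.Agent.Helper44
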