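import Mathlib

/-!
# Logarithmic derivative of `L(s, χ)` at `1` from finite rough sums
-/

set_option autoImplicit false

open Finset Real Filter Topology

namespace Pool.Agent.Helper44.EKL

/-- `n` has no prime factor up to `y`. -/
def Rough (y n : ℕ) : Prop := ∀ p : ℕ, p.Prime → p ∣ n → y < p

theorem abel_identity (a w : ℕ → ℝ) (k m : ℕ) (hkm : k ≤ m) :
    ∑ n ∈ Ico k m, a n * w n = (∑ i ∈ Ico k m, a i) * w m +
      ∑ n ∈ Ico k m, (∑ i ∈ Ico k (n + 1), a i) * (w n - w (n + 1)) := by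
  induction m, hkm using Nat.le_induction with
  | base => simp
  | succ m hkm ih =>
    rw [Finset.sum_Ico_succ_top hkm (fun n => a n * w n),
      Finset.sum_Ico_succ_top hkm (fun n => (∑ i ∈ Ico k (n + 1), a i) * (w n - w (n + 1))), ih,
      Finset.sum_Ico_succ_top hkm a]
    ring

theorem abel_bound {a w : ℕ → ℝ} {B : ℝ} (hB : ∀ m, |∑ i ∈ range m, a i| ≤ B) {k m : ℕ}
    (hkm : k ≤ m) (hw : ∀ n, k ≤ n → w (n + 1) ≤ w n) (hw0 : ∀ n, k ≤ n → 0 ≤ w n) :
    |∑ n ∈ Ico k m, a n * w n| ≤ 2 * B * w k := by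
  have hB' : ∀ n, k ≤ n → |∑ i ∈ Ico k n, a i| ≤ 2 * B := by
    intro n hn
    rw [Finset.sum_Ico_eq_sub _ hn]
    calc _ ≤ |∑ i ∈ range n, a i| + |∑ i ∈ range k, a i| := abs_sub _ _
      _ ≤ 2 * B := by linarith [hB n, hB k]
  rw [abel_identity a w k m hkm]
  have htel : ∀ m, k ≤ m → ∑ n ∈ Ico k m, (w n - w (n + 1)) = w k - w m := by
    intro m hm
    induction m, hm using Nat.le_induction with
    | base => simp
    | succ m hkm ih => rw [Finset.sum_Ico_succ_top hkm, ih]; ring
  calc |(∑ i ∈ Ico k m, a i) * w m +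
        ∑ n ∈ Ico k m, (∑ i ∈ Ico k (n + 1), a i) * (w n - w (n + 1))|
      ≤ |(∑ i ∈ Ico k m, a i) * w m| +
        |∑ n ∈ Ico k m, (∑ i ∈ Ico k (n + 1), a i) * (w n - w (n + 1))| := abs_add_le _ _
    _ ≤ 2 * B * w m + ∑ n ∈ Ico k m, 2 * B * (w n - w (n + 1)) := by
        apply add_le_add
        · rw [abs_mul, abs_of_nonneg (hw0 m hkm)]
          exact mul_le_mul_of_nonneg_right (hB' m hkm) (hw0 m hkm)
        · refine (abs_sum_le_sum_abs _ _).trans (sum_le_sum fun n hn => ?_)
          rw [mem_Ico] at hn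
          have := sub_nonneg.mpr (hw n hn.1)
          rw [abs_mul, abs_of_nonneg this]
          exact mul_le_mul_of_nonneg_right (hB' (n + 1) (by omega)) this
    _ = 2 * B * w k := by
        rw [← mul_sum, htel m hkm]; ring

theorem sum_multiples (f : ℕ → ℝ) {d : ℕ} (hd : 0 < d) (t : ℕ) :
    ∑ n ∈ (range t).filter (fun n => d ∣ n), f n =
      ∑ m ∈ range ((t + d - 1) / d), f (d * m) := by
  have hmem : ∀ m, m < (t + d - 1) / d ↔ d * m < t := by
    intro m
    rw [Nat.lt_iff_add_one_le, Nat.le_div_iff_mul_le hd]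
    have : (m + 1) * d = d * m + d := by ring
    omega
  symm
  apply Finset.sum_bij (fun m _ => d * m)
  · intro m hm
    rw [mem_range, hmem] at hm
    rw [mem_filter, mem_range]
    exact ⟨hm, Dvd.intro _ rfl⟩
  · intro m _ m' _ h
    exact Nat.eq_of_mul_eq_mul_left hd h
  · intro n hn
    rw [mem_filter, mem_range] at hn
    obtain ⟨hn1, m, rfl⟩ := hn
    exact ⟨m, by rw [mem_range, hmem]; exact hn1, rfl⟩
  · intro m _
    rfl

open Classical in
theorem rough_sum_bound (J : ℕ → ℝ) (hmul : ∀ m n, J (m * n) = J m * J n) (h1 : ∀ n, |J n| ≤ 1)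
    {T : ℝ} (hT : ∀ t, |∑ i ∈ range t, J i| ≤ T) (y t : ℕ) :
    |∑ i ∈ range t, if Rough y i then J i else 0| ≤ primorial y * T := by
  have hT0 : 0 ≤ T := by simpa using hT 0
  induction y generalizing t with
  | zero =>
    have : ∀ i, Rough 0 i := fun i p hp _ => hp.pos
    simp only [this, if_true, primorial_zero, Nat.cast_one, one_mul]
    exact hT t
  | succ y ih =>
    by_cases hp : (y + 1).Prime
    · have key : ∀ n, (if Rough (y + 1) n then J n else 0) =
          (if Rough y n then J n else 0) -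
            (if (y + 1) ∣ n then (if Rough y n then J n else 0) else 0) := by
        intro n
        by_cases hd : (y + 1) ∣ n
        · have : ¬ Rough (y + 1) n := fun h => absurd (h _ hp hd) (lt_irrefl _)
          rw [if_neg this, if_pos hd, sub_self]
        · rw [if_neg hd, sub_zero]
          have : Rough (y + 1) n ↔ Rough y n := by
            constructor
            · intro h p hpp hpn
              have := h p hpp hpn
              omega
            · intro h p hpp hpn
              have h2 := h p hpp hpn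
              have h3 : p ≠ y + 1 := fun h4 => hd (h4 ▸ hpn)
              omega
          simp only [this]
      have hsecond : ∑ n ∈ range t, (if (y + 1) ∣ n then (if Rough y n then J n else 0) else 0) =
          J (y + 1) * ∑ m ∈ range ((t + (y + 1) - 1) / (y + 1)), (if Rough y m then J m else 0) := by
        rw [← Finset.sum_filter, sum_multiples _ (Nat.succ_pos y), Finset.mul_sum]
        apply Finset.sum_congr rfl
        intro m _
        have : Rough y ((y + 1) * m) ↔ Rough y m := by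
          constructor
          · intro h p hpp hpn
            exact h p hpp (Dvd.dvd.mul_left hpn _)
          · intro h p hpp hpn
            rcases (hpp.dvd_mul).mp hpn with h2 | h2
            · have := (Nat.prime_dvd_prime_iff_eq hpp hp).mp h2
              omega
            · exact h p hpp h2
        by_cases hr : Rough y m
        · rw [if_pos (this.mpr hr), if_pos hr, hmul]
        · rw [if_neg (fun h => hr (this.mp h)), if_neg hr, mul_zero]
      have hprim : (primorial (y + 1) : ℝ) = (y + 1) * primorial y := by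
        have h3 : primorial (y + 1) = (y + 1) * primorial y := by
          unfold primorial
          rw [range_add_one, filter_insert, if_pos hp, prod_insert (by simp)]
        rw [h3]; push_cast; ring
      rw [Finset.sum_congr rfl (fun n _ => key n), Finset.sum_sub_distrib, hsecond]
      have e1 := ih t
      have e2 := ih ((t + (y + 1) - 1) / (y + 1))
      have hPT : 0 ≤ (primorial y : ℝ) * T := by positivity
      calc _ ≤ |∑ i ∈ range t, (if Rough y i then J i else 0)| +
            |J (y + 1) * ∑ m ∈ range ((t + (y + 1) - 1) / (y + 1)),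
              (if Rough y m then J m else 0)| := abs_sub _ _
        _ ≤ primorial y * T + 1 * (primorial y * T) := by
            apply add_le_add e1
            rw [abs_mul]
            exact mul_le_mul (h1 _) e2 (abs_nonneg _) zero_le_one
        _ = 2 * (primorial y * T) := by ring
        _ ≤ (y + 1) * (primorial y * T) := by
            apply mul_le_mul_of_nonneg_right _ hPT
            have := hp.two_le
            exact_mod_cast this
        _ = _ := by rw [hprim]; ring
    · have key : ∀ n, Rough (y + 1) n ↔ Rough y n := by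
        intro n
        constructor
        · intro h p hpp hpn
          have := h p hpp hpn
          omega
        · intro h p hpp hpn
          have h2 := h p hpp hpn
          have h3 : p ≠ y + 1 := fun h4 => hp (h4 ▸ hpp)
          omega
      have hprim : primorial (y + 1) = primorial y := by
        unfold primorial
        rw [range_add_one, filter_insert, if_neg hp]
      simp only [key, hprim]
      exact ih t

theorem tail_bound {a c : ℕ → ℝ} {B : ℝ} (hB : ∀ m, |∑ i ∈ range m, a i| ≤ B) {N : ℕ}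
    (hN : 1 ≤ N) {s : ℝ} (hsum : LSeriesSummable (fun n => ((a n * c n : ℝ) : ℂ)) s)
    (hw : ∀ n, N ≤ n → c (n + 1) / ((n + 1 : ℕ) : ℝ) ^ s ≤ c n / (n : ℝ) ^ s)
    (hw0 : ∀ n, N ≤ n → 0 ≤ c n / (n : ℝ) ^ s) :
    ‖LSeries (fun n => ((a n * c n : ℝ) : ℂ)) s -
      ((∑ n ∈ Icc 1 N, a n * (c n / (n : ℝ) ^ s) : ℝ) : ℂ)‖ ≤ 2 * B * (c N / (N : ℝ) ^ s) := by
  have hB0 : 0 ≤ B := (abs_nonneg _).trans (hB 0)
  have hterm : ∀ n : ℕ, n ≠ 0 → LSeries.term (fun n => ((a n * c n : ℝ) : ℂ)) s n =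
      ((a n * (c n / (n : ℝ) ^ s) : ℝ) : ℂ) := by
    intro n hn
    rw [LSeries.term_of_ne_zero hn]
    push_cast
    rw [Complex.ofReal_cpow (by positivity)]
    push_cast
    ring
  have hlim : Tendsto (fun M => ∑ n ∈ range M,
      LSeries.term (fun n => ((a n * c n : ℝ) : ℂ)) s n) atTop
      (𝓝 (LSeries (fun n => ((a n * c n : ℝ) : ℂ)) s)) := by
    have : Summable (LSeries.term (fun n => ((a n * c n : ℝ) : ℂ)) s) := hsum
    exact this.hasSum.tendsto_sum_nat
  have hlim2 := (hlim.sub_const ((∑ n ∈ Icc 1 N, a n * (c n / (n : ℝ) ^ s) : ℝ) : ℂ)).norm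
  apply le_of_tendsto hlim2
  filter_upwards [eventually_ge_atTop (N + 1)] with M hM
  have hsplit : ∑ n ∈ range M, LSeries.term (fun n => ((a n * c n : ℝ) : ℂ)) s n =
      ((∑ n ∈ Icc 1 N, a n * (c n / (n : ℝ) ^ s) : ℝ) : ℂ) +
      ((∑ n ∈ Ico (N + 1) M, a n * (c n / (n : ℝ) ^ s) : ℝ) : ℂ) := by
    rw [Finset.range_eq_Ico, ← Finset.sum_Ico_consecutive _ (Nat.zero_le (N + 1)) hM]
    congr 1
    · rw [Finset.sum_eq_sum_Ico_succ_bot (Nat.succ_pos N), LSeries.term_zero, zero_add]
      have : Icc 1 N = Ico (0 + 1) (N + 1) := by ext; simp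
      rw [this]
      push_cast
      apply Finset.sum_congr rfl
      intro n hn
      rw [mem_Ico] at hn
      have := hterm n (by omega)
      push_cast at this
      exact this
    · push_cast
      apply Finset.sum_congr rfl
      intro n hn
      rw [mem_Ico] at hn
      have := hterm n (by omega)
      push_cast at this
      exact this
  rw [hsplit, add_sub_cancel_left, Complex.norm_real, Real.norm_eq_abs]
  have h1 := abel_bound hB hM (w := fun n => c n / (n : ℝ) ^ s)
    (fun n hn => hw n (by omega)) (fun n hn => hw0 n (by omega))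
  refine h1.trans ?_
  apply mul_le_mul_of_nonneg_left (hw N le_rfl) (by positivity)

open Classical in
/-- Values of the level-changed character. -/
theorem changeLevel_val {q : ℕ} (hq : q.Prime) (y : ℕ) (χ : DirichletCharacter ℂ q)
    (hχ : ∀ n : ℕ, χ (n : ZMod q) = ((jacobiSym (n : ℤ) q : ℤ) : ℂ)) (n : ℕ) :
    DirichletCharacter.changeLevel (Nat.dvd_mul_right q (primorial y)) χ
      (n : ZMod (q * primorial y)) =
      (((if Rough y n then (jacobiSym (n : ℤ) q : ℝ) else 0) : ℝ) : ℂ) := by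
  have hP : ∀ p : ℕ, p.Prime → (p ∣ primorial y ↔ p ≤ y) := by
    intro p hp
    constructor
    · intro h
      have h1 : p ∈ (primorial y).primeFactors :=
        Nat.mem_primeFactors.mpr ⟨hp, h, primorial_ne_zero y⟩
      rw [primeFactors_primorial, Nat.mem_primesLE] at h1
      exact h1.1
    · intro h
      have h1 : p ∈ (primorial y).primeFactors := by
        rw [primeFactors_primorial, Nat.mem_primesLE]
        exact ⟨h, hp⟩
      exact Nat.dvd_of_mem_primeFactors h1
  by_cases hc : n.Coprime (q * primorial y)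
  · have hic : IsCoprime (n : ℤ) ((q * primorial y : ℕ) : ℤ) := Nat.isCoprime_iff_coprime.mpr hc
    have h1 := DirichletCharacter.changeLevel_eq_cast_of_dvd' χ
      (Nat.dvd_mul_right q (primorial y)) hic
    rw [Int.cast_natCast, Int.cast_natCast, hχ n] at h1
    have hr : Rough y n := by
      intro p hp hpn
      by_contra hcon
      push Not at hcon
      have h2 : p ∣ q * primorial y := Dvd.dvd.mul_left ((hP p hp).mpr hcon) _
      have h3 : p ∣ 1 := by
        rw [← hc]
        exact Nat.dvd_gcd hpn h2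
      exact hp.one_lt.ne' (Nat.dvd_one.mp h3)
    rw [h1, if_pos hr]
    push_cast
    rfl
  · have h0 : DirichletCharacter.changeLevel (Nat.dvd_mul_right q (primorial y)) χ
      (n : ZMod (q * primorial y)) = 0 := by
      apply MulChar.map_nonunit
      rw [ZMod.isUnit_iff_coprime]
      exact hc
    rw [h0]
    by_cases hr : Rough y n
    · rw [if_pos hr]
      have hcp : n.Coprime (primorial y) := by
        by_contra hcon
        obtain ⟨p, hp, hpd⟩ := Nat.exists_prime_and_dvd hcon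
        have h1 := hr p hp (hpd.trans (Nat.gcd_dvd_left _ _))
        have h2 := (hP p hp).mp (hpd.trans (Nat.gcd_dvd_right _ _))
        omega
      have hnq : ¬ n.Coprime q := fun h => hc (Nat.Coprime.mul_right h hcp)
      have : NeZero q := ⟨hq.ne_zero⟩
      have hJ : jacobiSym (n : ℤ) q = 0 := by
        rw [jacobiSym.eq_zero_iff_not_coprime]
        simpa using hnq
      rw [hJ]
      simp
    · rw [if_neg hr]
      simp

theorem chi_ne_one {q : ℕ} (hq : q.Prime) (hq4 : q % 4 = 1) (χ : DirichletCharacter ℂ q)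
    (hχ : ∀ n : ℕ, χ (n : ZMod q) = ((jacobiSym (n : ℤ) q : ℤ) : ℂ)) : χ ≠ 1 := by
  intro h1
  have : Fact q.Prime := ⟨hq⟩
  have hchar : ringChar (ZMod q) ≠ 2 := by
    rw [ZMod.ringChar_zmod_n]
    omega
  obtain ⟨a, ha⟩ := quadraticChar_exists_neg_one hchar
  have h2 := hχ a.val
  have h3 : jacobiSym ((a.val : ℕ) : ℤ) q = -1 := by
    rw [← jacobiSym.legendreSym.to_jacobiSym, legendreSym]
    push_cast
    rw [ZMod.natCast_zmod_val]
    exact ha
  rw [h3, h1, ZMod.natCast_zmod_val] at h2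
  by_cases hu : IsUnit a
  · rw [MulChar.one_apply hu] at h2
    norm_num at h2
  · rw [MulChar.map_nonunit _ hu] at h2
    norm_num at h2

theorem log_div_rpow_succ_le {n : ℕ} (hn : 3 ≤ n) {s : ℝ} (hs : 1 < s) :
    Real.log ((n + 1 : ℕ) : ℝ) / ((n + 1 : ℕ) : ℝ) ^ s ≤ Real.log (n : ℝ) / (n : ℝ) ^ s := by
  have h3 : Real.exp (s⁻¹) ≤ (n : ℝ) := by
    have h1 : Real.exp (s⁻¹) ≤ Real.exp 1 := by
      apply Real.exp_le_exp.mpr
      exact inv_le_one_of_one_le₀ hs.le
    have h2 := Real.exp_one_lt_d9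
    have h4 : (3 : ℝ) ≤ n := by exact_mod_cast hn
    linarith
  have h4 : (n : ℝ) ≤ ((n + 1 : ℕ) : ℝ) := by push_cast; linarith
  exact Real.log_div_self_rpow_antitoneOn (by linarith : (0 : ℝ) < s) (Set.mem_Ici.mpr h3)
    (Set.mem_Ici.mpr (h3.trans h4)) h4

/-- Bounds at `s = 1` for `L` and its derivative, from the bounds for `s > 1`. -/
theorem F_bounds {m : ℕ} [NeZero m]
    (χ' : DirichletCharacter ℂ m) (hne : χ' ≠ 1) (a : ℕ → ℝ) (ha1 : a 1 = 1)
    (hval : ∀ n : ℕ, χ' (n : ZMod m) = ((a n : ℝ) : ℂ)) {B : ℝ}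
    (hB : ∀ m, |∑ i ∈ range m, a i| ≤ B) {N : ℕ} (hN : 3 ≤ N) {η : ℝ}
    (h0 : |∑ n ∈ Ioc 1 N, a n / n| ≤ η)
    (h1 : |∑ n ∈ Ioc 1 N, a n * Real.log n / n| ≤ η)
    (h2 : 2 * B * Real.log N / N ≤ η) :
    ‖χ'.LFunction 1 - 1‖ ≤ 2 * η ∧ ‖deriv χ'.LFunction 1‖ ≤ 2 * η := by
  have hB0 : 0 ≤ B := (abs_nonneg _).trans (hB 0)
  have hN0 : (0 : ℝ) < N := by positivity
  have hN1 : (1 : ℝ) ≤ N := by exact_mod_cast (by omega : 1 ≤ N)
  have hlogN : 1 ≤ Real.log N := by
    rw [Real.le_log_iff_exp_le hN0]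
    have h3 : (3 : ℝ) ≤ N := by exact_mod_cast hN
    have := Real.exp_one_lt_d9
    linarith
  have hdiff : Differentiable ℂ χ'.LFunction := DirichletCharacter.differentiable_LFunction hne
  have hcont : Continuous χ'.LFunction := hdiff.continuous
  have hcont' : Continuous (deriv χ'.LFunction) := by
    have : ContDiff ℂ 1 χ'.LFunction := hdiff.contDiff
    exact this.continuous_deriv le_rfl
  have hIcc : Icc 1 N = insert 1 (Ioc 1 N) := by
    ext n; simp only [mem_Icc, mem_insert, mem_Ioc]; omega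
  have habs : ∀ s : ℝ, 1 < s → LSeries.abscissaOfAbsConv (fun n : ℕ => χ' (n : ZMod m)) <
      ((s : ℂ)).re := by
    intro s hs
    rw [DirichletCharacter.absicssaOfAbsConv_eq_one (NeZero.ne m), Complex.ofReal_re]
    exact_mod_cast hs
  -- the two series
  have hA : ∀ s : ℝ, 1 < s → ‖χ'.LFunction s -
      ((∑ n ∈ Icc 1 N, a n * (1 / (n : ℝ) ^ s) : ℝ) : ℂ)‖ ≤ 2 * B * (1 / (N : ℝ)) := by
    intro s hs
    have hf : (fun n : ℕ => χ' (n : ZMod m)) = fun n => ((a n * 1 : ℝ) : ℂ) := by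
      ext n; rw [hval n]; simp
    have hsum : LSeriesSummable (fun n : ℕ => χ' (n : ZMod m)) s :=
      LSeriesSummable_of_abscissaOfAbsConv_lt_re (habs s hs)
    have h3 : χ'.LFunction s = LSeries (fun n : ℕ => χ' (n : ZMod m)) s :=
      DirichletCharacter.LFunction_eq_LSeries χ' (by simpa using hs)
    rw [h3]
    rw [hf] at hsum ⊢
    have h4 := tail_bound hB (by omega : 1 ≤ N) (s := s) (c := fun _ => 1) hsum
      (fun n hn => by
        have hn0 : (0 : ℝ) < n := by exact_mod_cast (by omega : 0 < n)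
        apply one_div_le_one_div_of_le (by positivity)
        apply Real.rpow_le_rpow hn0.le (by push_cast; linarith) (by linarith))
      (fun n hn => by positivity)
    refine h4.trans ?_
    apply mul_le_mul_of_nonneg_left _ (by positivity)
    apply one_div_le_one_div_of_le hN0
    calc (N : ℝ) = (N : ℝ) ^ (1 : ℝ) := (Real.rpow_one _).symm
      _ ≤ (N : ℝ) ^ s := Real.rpow_le_rpow_of_exponent_le hN1 hs.le
  have hA' : ∀ s : ℝ, 1 < s → ‖-deriv χ'.LFunction s -
      ((∑ n ∈ Icc 1 N, a n * (Real.log n / (n : ℝ) ^ s) : ℝ) : ℂ)‖ ≤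
      2 * B * (Real.log N / (N : ℝ)) := by
    intro s hs
    have hf : LSeries.logMul (fun n : ℕ => χ' (n : ZMod m)) =
        fun n : ℕ => ((a n * Real.log n : ℝ) : ℂ) := by
      ext n
      unfold LSeries.logMul
      simp only []
      rw [hval n, ← Complex.natCast_log]
      push_cast
      ring
    have hsum : LSeriesSummable (LSeries.logMul (fun n : ℕ => χ' (n : ZMod m))) s :=
      LSeriesSummable_logMul_of_lt_re (habs s hs)
    have h3 : -deriv χ'.LFunction s = LSeries (LSeries.logMul (fun n : ℕ => χ' (n : ZMod m))) s := by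
      rw [DirichletCharacter.deriv_LFunction_eq_deriv_LSeries χ' (by simpa using hs),
        LSeries_deriv (habs s hs), neg_neg]
    rw [h3]
    rw [hf] at hsum ⊢
    have h4 := tail_bound hB (by omega : 1 ≤ N) (s := s) (c := fun n => Real.log n) hsum
      (fun n hn => log_div_rpow_succ_le (by omega) hs)
      (fun n hn => by
        apply div_nonneg _ (by positivity)
        apply Real.log_nonneg
        exact_mod_cast (by omega : 1 ≤ n))
    refine h4.trans ?_
    apply mul_le_mul_of_nonneg_left _ (by positivity)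
    apply div_le_div_of_nonneg_left (by linarith) hN0
    calc (N : ℝ) = (N : ℝ) ^ (1 : ℝ) := (Real.rpow_one _).symm
      _ ≤ (N : ℝ) ^ s := Real.rpow_le_rpow_of_exponent_le hN1 hs.le
  -- limits
  have hmem : ∀ᶠ s : ℝ in 𝓝[>] 1, 1 < s := eventually_mem_nhdsWithin
  have hpow : ∀ n ∈ Icc 1 N, Continuous fun s : ℝ => (n : ℝ) ^ s := by
    intro n hn
    rw [mem_Icc] at hn
    have hn0 : (n : ℝ) ≠ 0 := by exact_mod_cast (by omega : n ≠ 0)
    exact Real.continuous_const_rpow hn0
  have hpow0 : ∀ n ∈ Icc 1 N, ∀ s : ℝ, (n : ℝ) ^ s ≠ 0 := by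
    intro n hn s
    rw [mem_Icc] at hn
    have hn0 : (0 : ℝ) < n := by exact_mod_cast (by omega : 0 < n)
    exact (Real.rpow_pos_of_pos hn0 s).ne'
  have hB1 : ‖χ'.LFunction 1 - ((∑ n ∈ Icc 1 N, a n * (1 / (n : ℝ) ^ (1 : ℝ)) : ℝ) : ℂ)‖ ≤
      2 * B * (1 / (N : ℝ)) := by
    have hc : Continuous fun s : ℝ => ‖χ'.LFunction s -
      ((∑ n ∈ Icc 1 N, a n * (1 / (n : ℝ) ^ s) : ℝ) : ℂ)‖ := by
      apply Continuous.norm
      apply (hcont.comp Complex.continuous_ofReal).sub
      apply Complex.continuous_ofReal.comp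
      apply continuous_finsetSum
      intro n hn
      exact continuous_const.mul (continuous_const.div (hpow n hn) (hpow0 n hn))
    have ht := (hc.tendsto 1).mono_left (nhdsWithin_le_nhds (s := Set.Ioi (1 : ℝ)))
    have := le_of_tendsto ht (hmem.mono fun s hs => hA s hs)
    simpa using this
  have hB2 : ‖-deriv χ'.LFunction 1 -
      ((∑ n ∈ Icc 1 N, a n * (Real.log n / (n : ℝ) ^ (1 : ℝ)) : ℝ) : ℂ)‖ ≤
      2 * B * (Real.log N / (N : ℝ)) := by
    have hc : Continuous fun s : ℝ => ‖-deriv χ'.LFunction s -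
      ((∑ n ∈ Icc 1 N, a n * (Real.log n / (n : ℝ) ^ s) : ℝ) : ℂ)‖ := by
      apply Continuous.norm
      apply ((hcont'.comp Complex.continuous_ofReal).neg).sub
      apply Complex.continuous_ofReal.comp
      apply continuous_finsetSum
      intro n hn
      exact continuous_const.mul (continuous_const.div (hpow n hn) (hpow0 n hn))
    have ht := (hc.tendsto 1).mono_left (nhdsWithin_le_nhds (s := Set.Ioi (1 : ℝ)))
    have := le_of_tendsto ht (hmem.mono fun s hs => hA' s hs)
    simpa using this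
  have e1 : ∑ n ∈ Icc 1 N, a n * (1 / (n : ℝ) ^ (1 : ℝ)) = 1 + ∑ n ∈ Ioc 1 N, a n / n := by
    rw [hIcc, Finset.sum_insert (by simp), ha1]
    congr 1
    · simp
    · apply Finset.sum_congr rfl
      intro n _
      rw [Real.rpow_one]; ring
  have e2 : ∑ n ∈ Icc 1 N, a n * (Real.log n / (n : ℝ) ^ (1 : ℝ)) =
      ∑ n ∈ Ioc 1 N, a n * Real.log n / n := by
    rw [hIcc, Finset.sum_insert (by simp), ha1]
    have : (1 : ℝ) * (Real.log ((1 : ℕ) : ℝ) / ((1 : ℕ) : ℝ) ^ (1 : ℝ)) = 0 := by simp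
    rw [this, zero_add]
    apply Finset.sum_congr rfl
    intro n _
    rw [Real.rpow_one]; ring
  rw [e1] at hB1
  rw [e2] at hB2
  have hb1 : 2 * B * (1 / (N : ℝ)) ≤ η := by
    refine le_trans ?_ h2
    rw [mul_one_div]
    apply div_le_div_of_nonneg_right _ hN0.le
    calc 2 * B = 2 * B * 1 := by ring
      _ ≤ 2 * B * Real.log N := by gcongr
  have hb2 : 2 * B * (Real.log N / (N : ℝ)) ≤ η := by
    refine le_trans (le_of_eq ?_) h2
    ring
  constructor
  · calc ‖χ'.LFunction 1 - 1‖ = ‖(χ'.LFunction 1 - ((1 + ∑ n ∈ Ioc 1 N, a n / n : ℝ) : ℂ)) +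
          ((∑ n ∈ Ioc 1 N, a n / n : ℝ) : ℂ)‖ := by
          congr 1; push_cast; ring
      _ ≤ ‖χ'.LFunction 1 - ((1 + ∑ n ∈ Ioc 1 N, a n / n : ℝ) : ℂ)‖ +
          ‖((∑ n ∈ Ioc 1 N, a n / n : ℝ) : ℂ)‖ := norm_add_le _ _
      _ ≤ η + η := by
          apply add_le_add (hB1.trans hb1)
          rw [Complex.norm_real]
          exact h0
      _ = 2 * η := by ring
  · calc ‖deriv χ'.LFunction 1‖ = ‖(-deriv χ'.LFunction 1 -
          ((∑ n ∈ Ioc 1 N, a n * Real.log n / n : ℝ) : ℂ)) +
          ((∑ n ∈ Ioc 1 N, a n * Real.log n / n : ℝ) : ℂ)‖ := by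
          rw [sub_add_cancel, norm_neg]
      _ ≤ ‖-deriv χ'.LFunction 1 - ((∑ n ∈ Ioc 1 N, a n * Real.log n / n : ℝ) : ℂ)‖ +
          ‖((∑ n ∈ Ioc 1 N, a n * Real.log n / n : ℝ) : ℂ)‖ := norm_add_le _ _
      _ ≤ η + η := by
          apply add_le_add (hB2.trans hb2)
          rw [Complex.norm_real]
          exact h1
      _ = 2 * η := by ring

open Classical in
/-- The logarithmic derivative of `L(s, χ)` at `1`, up to the Euler factors at primes `p ≤ y`, is
controlled by two finite sums over rough numbers. -/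
theorem Lderiv_bound {q : ℕ} [NeZero q] (hq : q.Prime) (hq4 : q % 4 = 1)
    (χ : DirichletCharacter ℂ q)
    (hχ : ∀ n : ℕ, χ (n : ZMod q) = ((jacobiSym (n : ℤ) q : ℤ) : ℂ))
    (hPV : ∀ t : ℕ, |∑ i ∈ Finset.range t, (jacobiSym (i : ℤ) q : ℝ)| ≤
      4 * Real.sqrt q * (1 + Real.log q))
    (y N : ℕ) (hyq : y < q) (hN : 3 ≤ N) (η : ℝ) (hη : η ≤ 1 / 8)
    (h0 : |∑ n ∈ (Finset.Ioc 1 N).filter (fun n => ∀ p, p.Prime → p ∣ n → y < p),
      (jacobiSym (n : ℤ) q : ℝ) / n| ≤ η)
    (h1 : |∑ n ∈ (Finset.Ioc 1 N).filter (fun n => ∀ p, p.Prime → p ∣ n → y < p),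
      (jacobiSym (n : ℤ) q : ℝ) * Real.log n / n| ≤ η)
    (h2 : (primorial y : ℝ) * (8 * Real.sqrt q * (1 + Real.log q)) * Real.log N / N ≤ η) :
    |(deriv χ.LFunction 1 / χ.LFunction 1).re +
      ∑ p ∈ (Finset.range (y + 1)).filter Nat.Prime,
        (jacobiSym (p : ℤ) q : ℝ) * Real.log p / (p - (jacobiSym (p : ℤ) q : ℝ))| ≤ 6 * η := by
  set P := primorial y with hP
  have hP0 : P ≠ 0 := primorial_ne_zero y
  have : NeZero (q * P) := ⟨mul_ne_zero hq.ne_zero hP0⟩
  set χ' := DirichletCharacter.changeLevel (Nat.dvd_mul_right q P) χ with hχ'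
  have hne : χ ≠ 1 := chi_ne_one hq hq4 χ hχ
  have hne' : χ' ≠ 1 := by
    rw [hχ', Ne, DirichletCharacter.changeLevel_eq_one_iff]
    exact hne
  set a : ℕ → ℝ := fun n => if Rough y n then (jacobiSym (n : ℤ) q : ℝ) else 0 with ha
  have hval : ∀ n : ℕ, χ' (n : ZMod (q * P)) = ((a n : ℝ) : ℂ) := changeLevel_val hq y χ hχ
  have ha1 : a 1 = 1 := by
    have hr : Rough y 1 := fun p hp hp1 => absurd (Nat.dvd_one.mp hp1) hp.one_lt.ne'
    simp only [ha, if_pos hr]
    simp
  set B : ℝ := P * (4 * Real.sqrt q * (1 + Real.log q)) with hB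
  have hBs : ∀ m, |∑ i ∈ range m, a i| ≤ B := by
    intro m
    apply rough_sum_bound (fun n : ℕ => (jacobiSym (n : ℤ) q : ℝ))
    · intro m n
      push_cast
      rw [jacobiSym.mul_left]
      push_cast; ring
    · intro n
      have := jacobiSym.trichotomy (n : ℤ) q
      rcases this with h | h | h <;> simp [h]
    · exact hPV
  have hsum : ∀ f : ℕ → ℝ, ∑ n ∈ (Finset.Ioc 1 N).filter (fun n => ∀ p, p.Prime → p ∣ n → y < p),
      f n = ∑ n ∈ Ioc 1 N, if Rough y n then f n else 0 := by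
    intro f
    rw [Finset.sum_filter]
    rfl
  have h0' : |∑ n ∈ Ioc 1 N, a n / n| ≤ η := by
    rw [hsum] at h0
    refine le_trans (le_of_eq ?_) h0
    congr 1
    apply Finset.sum_congr rfl
    intro n _
    simp only [ha]
    split_ifs <;> simp
  have h1' : |∑ n ∈ Ioc 1 N, a n * Real.log n / n| ≤ η := by
    rw [hsum] at h1
    refine le_trans (le_of_eq ?_) h1
    congr 1
    apply Finset.sum_congr rfl
    intro n _
    simp only [ha]
    split_ifs <;> simp
  have h2' : 2 * B * Real.log N / N ≤ η := by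
    refine le_trans (le_of_eq ?_) h2
    rw [hB]; ring
  obtain ⟨hF1, hF2⟩ := F_bounds χ' hne' a ha1 hval hBs hN h0' h1' h2'
  have hη0 : 0 ≤ η := (abs_nonneg _).trans h0
  -- the factorisation
  have hfact : χ'.LFunction = fun s => χ.LFunction s *
      ∏ p ∈ (q * P).primeFactors, (1 - χ (p : ZMod q) * (p : ℂ) ^ (-s)) := by
    ext s
    exact DirichletCharacter.LFunction_changeLevel (Nat.dvd_mul_right q P) χ (Or.inl hne)
  have hFnorm : 3 / 4 ≤ ‖χ'.LFunction 1‖ := by
    have h3 : ‖(1 : ℂ)‖ ≤ ‖χ'.LFunction 1‖ + ‖χ'.LFunction 1 - 1‖ := by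
      calc ‖(1 : ℂ)‖ = ‖χ'.LFunction 1 - (χ'.LFunction 1 - 1)‖ := by congr 1; ring
        _ ≤ _ := norm_sub_le _ _
    rw [norm_one] at h3
    linarith
  have hF0 : χ'.LFunction 1 ≠ 0 := by
    intro h
    rw [h, norm_zero] at hFnorm
    norm_num at hFnorm
  have hprod0 : χ.LFunction 1 ≠ 0 ∧
      ∏ p ∈ (q * P).primeFactors, (1 - χ (p : ZMod q) * (p : ℂ) ^ (-(1 : ℂ))) ≠ 0 := by
    rw [hfact] at hF0
    exact mul_ne_zero_iff.mp hF0
  have hfac0 : ∀ p ∈ (q * P).primeFactors, (1 - χ (p : ZMod q) * (p : ℂ) ^ (-(1 : ℂ))) ≠ 0 :=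
    Finset.prod_ne_zero_iff.mp hprod0.2
  have hderp : ∀ p ∈ (q * P).primeFactors, HasDerivAt
      (fun s : ℂ => 1 - χ (p : ZMod q) * (p : ℂ) ^ (-s))
      (χ (p : ZMod q) * (Real.log p * (p : ℂ)⁻¹)) 1 := by
    intro p hp
    have hp0 : (p : ℂ) ≠ 0 := by
      exact_mod_cast (Nat.prime_of_mem_primeFactors hp).ne_zero
    have h3 : HasDerivAt (fun s : ℂ => (p : ℂ) ^ (-s))
        ((p : ℂ) ^ (-(1 : ℂ)) * Complex.log p * (-1)) 1 :=
      HasDerivAt.const_cpow (hasDerivAt_neg (1 : ℂ)) (Or.inl hp0)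
    have h4 := (h3.const_mul (χ (p : ZMod q))).const_sub 1
    refine h4.congr_deriv ?_
    rw [← Complex.natCast_log, Complex.cpow_neg_one]
    ring
  have hlogder : deriv χ'.LFunction 1 / χ'.LFunction 1 =
      deriv χ.LFunction 1 / χ.LFunction 1 + ∑ p ∈ (q * P).primeFactors,
        (χ (p : ZMod q) * (Real.log p * (p : ℂ)⁻¹)) / (1 - χ (p : ZMod q) * (p : ℂ) ^ (-(1 : ℂ))) := by
    have h3 : logDeriv χ'.LFunction 1 = logDeriv χ.LFunction 1 + ∑ p ∈ (q * P).primeFactors,
        logDeriv (fun s : ℂ => 1 - χ (p : ZMod q) * (p : ℂ) ^ (-s)) 1 := by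
      rw [hfact]
      have hd2 : ∀ p ∈ (q * P).primeFactors,
          DifferentiableAt ℂ (fun s : ℂ => 1 - χ (p : ZMod q) * (p : ℂ) ^ (-s)) 1 :=
        fun p hp => (hderp p hp).differentiableAt
      rw [logDeriv_mul 1 hprod0.1 hprod0.2
        ((DirichletCharacter.differentiable_LFunction hne).differentiableAt)
        (DifferentiableAt.fun_finsetProd hd2)]
      congr 1
      exact logDeriv_prod hfac0 hd2
    rw [logDeriv_apply, logDeriv_apply] at h3
    rw [h3]
    congr 1
    apply Finset.sum_congr rfl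
    intro p hp
    rw [logDeriv_apply, (hderp p hp).deriv]
  -- the sum over primes
  have hPF : (q * P).primeFactors = insert q ((Finset.range (y + 1)).filter Nat.Prime) := by
    rw [Nat.primeFactors_mul hq.ne_zero hP0, hq.primeFactors, hP, primeFactors_primorial,
      Nat.primesLE_eq_filter_range]
    rfl
  have hqn : q ∉ (Finset.range (y + 1)).filter Nat.Prime := by
    simp only [mem_filter, mem_range, not_and]
    intro h; omega
  have hsumC : ∑ p ∈ (q * P).primeFactors,
        (χ (p : ZMod q) * (Real.log p * (p : ℂ)⁻¹)) / (1 - χ (p : ZMod q) * (p : ℂ) ^ (-(1 : ℂ))) =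
      ((∑ p ∈ (Finset.range (y + 1)).filter Nat.Prime,
        (jacobiSym (p : ℤ) q : ℝ) * Real.log p / (p - (jacobiSym (p : ℤ) q : ℝ)) : ℝ) : ℂ) := by
    rw [hPF, Finset.sum_insert hqn]
    have hq0 : χ ((q : ℕ) : ZMod q) = 0 := by
      have hnt : Nontrivial (ZMod q) := by
        have : Fact (1 < q) := ⟨hq.one_lt⟩
        infer_instance
      rw [ZMod.natCast_self]
      exact MulChar.map_zero _
    rw [hq0, zero_mul, zero_div, zero_add]
    push_cast
    apply Finset.sum_congr rfl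
    intro p hp
    rw [mem_filter] at hp
    have hp0 : (p : ℂ) ≠ 0 := by exact_mod_cast hp.2.ne_zero
    rw [hχ p, Complex.cpow_neg_one]
    have h5 : (1 - ((jacobiSym (p : ℤ) q : ℤ) : ℂ) * (p : ℂ)⁻¹) =
        ((p : ℂ) - ((jacobiSym (p : ℤ) q : ℤ) : ℂ)) * (p : ℂ)⁻¹ := by
      field_simp
    rw [h5, ← mul_assoc, mul_div_mul_right _ _ (inv_ne_zero hp0)]
  rw [hsumC] at hlogder
  have hre : (deriv χ.LFunction 1 / χ.LFunction 1).re +
      ∑ p ∈ (Finset.range (y + 1)).filter Nat.Prime,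
        (jacobiSym (p : ℤ) q : ℝ) * Real.log p / (p - (jacobiSym (p : ℤ) q : ℝ)) =
      (deriv χ'.LFunction 1 / χ'.LFunction 1).re := by
    rw [hlogder, Complex.add_re, Complex.ofReal_re]
  rw [hre]
  calc |(deriv χ'.LFunction 1 / χ'.LFunction 1).re|
      ≤ ‖deriv χ'.LFunction 1 / χ'.LFunction 1‖ := Complex.abs_re_le_norm _
    _ = ‖deriv χ'.LFunction 1‖ / ‖χ'.LFunction 1‖ := norm_div _ _
    _ ≤ (2 * η) / (3 / 4) := by
        apply div_le_div₀ (by linarith) hF2 (by norm_num) hFnorm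
    _ ≤ 6 * η := by linarith

end Pool.Agent.Helper44.EKL
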