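import Pool.Agent.Helper44.Smooth

/-!
# The counting function `L(p)` and the set of products `a * a⁻¹`
-/

set_option autoImplicit false

open Finset

namespace Pool.Agent.Helper44

/-- `L(p)`: number of distinct values of `(a * a⁻¹ - 1) / p`. -/
def Lp (p : ℕ) : ℕ :=
  ((Finset.Icc 1 (p - 1)).image (fun a : ℕ => (a * ((a : ZMod p)⁻¹).val - 1) / p)).card

/-- The set of products `a * a⁻¹`. -/
def NN (p : ℕ) : Finset ℕ := (Finset.Icc 1 (p - 1)).image (fun a : ℕ => a * ((a : ZMod p)⁻¹).val)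

theorem inv_val_spec {p : ℕ} (hp : p.Prime) {a : ℕ} (ha1 : 1 ≤ a) (ha2 : a ≤ p - 1) :
    1 ≤ ((a : ZMod p)⁻¹).val ∧ ((a : ZMod p)⁻¹).val ≤ p - 1 ∧
      a * ((a : ZMod p)⁻¹).val ≡ 1 [MOD p] := by
  have : Fact p.Prime := ⟨hp⟩
  have hp2 := hp.two_le
  have ha0 : (a : ZMod p) ≠ 0 := by
    rw [Ne, ZMod.natCast_eq_zero_iff]
    intro h
    have := Nat.le_of_dvd (by omega) h
    omega
  have h1 : ((a : ZMod p)⁻¹).val < p := ZMod.val_lt _
  have h2 : a * ((a : ZMod p)⁻¹).val ≡ 1 [MOD p] := by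
    rw [← ZMod.natCast_eq_natCast_iff]
    push_cast
    rw [ZMod.natCast_zmod_val, mul_inv_cancel₀ ha0]
  refine ⟨?_, by omega, h2⟩
  rcases Nat.eq_zero_or_pos ((a : ZMod p)⁻¹).val with h | h
  · rw [h, mul_zero] at h2
    have := (Nat.modEq_zero_iff_dvd.mp h2.symm)
    have := Nat.le_of_dvd (by norm_num) this
    omega
  · exact h

theorem mem_NN {p : ℕ} (hp : p.Prime) {N : ℕ} :
    N ∈ NN p ↔ ∃ a b : ℕ, 1 ≤ a ∧ a ≤ p - 1 ∧ 1 ≤ b ∧ b ≤ p - 1 ∧ a * b ≡ 1 [MOD p] ∧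
      N = a * b := by
  have : Fact p.Prime := ⟨hp⟩
  have hp2 := hp.two_le
  unfold NN
  rw [Finset.mem_image]
  constructor
  · rintro ⟨a, ha, rfl⟩
    rw [Finset.mem_Icc] at ha
    have h := inv_val_spec hp ha.1 ha.2
    exact ⟨a, _, ha.1, ha.2, h.1, h.2.1, h.2.2, rfl⟩
  · rintro ⟨a, b, ha1, ha2, hb1, hb2, hab, rfl⟩
    refine ⟨a, Finset.mem_Icc.mpr ⟨ha1, ha2⟩, ?_⟩
    have hb : ((a : ZMod p)⁻¹).val = b := by
      have h1 : (a : ZMod p) * (b : ZMod p) = 1 := by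
        have := (ZMod.natCast_eq_natCast_iff (a * b) 1 p).mpr hab
        push_cast at this
        exact this
      have h2 : (a : ZMod p)⁻¹ = (b : ZMod p) := inv_eq_of_mul_eq_one_right h1
      rw [h2, ZMod.val_natCast_of_lt (by omega)]
    rw [hb]

theorem card_NN {p : ℕ} (hp : p.Prime) : (NN p).card = Lp p := by
  unfold Lp
  have h : (Finset.Icc 1 (p - 1)).image (fun a : ℕ => (a * ((a : ZMod p)⁻¹).val - 1) / p) =
      (NN p).image (fun N => (N - 1) / p) := by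
    unfold NN
    rw [Finset.image_image]
    rfl
  rw [h, Finset.card_image_of_injOn]
  intro N hN N' hN' heq
  rw [Finset.mem_coe, mem_NN hp] at hN hN'
  obtain ⟨a, b, ha1, ha2, hb1, hb2, hab, rfl⟩ := hN
  obtain ⟨a', b', ha1', ha2', hb1', hb2', hab', rfl⟩ := hN'
  simp only at heq
  have hd : ∀ n : ℕ, 1 ≤ n → n ≡ 1 [MOD p] → p * ((n - 1) / p) + 1 = n := by
    intro n hn hmod
    have h1 : p ∣ n - 1 := (Nat.modEq_iff_dvd' hn).mp hmod.symm
    rw [Nat.mul_div_cancel' h1]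
    omega
  have e1 := hd (a * b) (Nat.mul_pos ha1 hb1) hab
  have e2 := hd (a' * b') (Nat.mul_pos ha1' hb1') hab'
  rw [← e1, ← e2, heq]

end Pool.Agent.Helper44
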