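import Pool.Agent.Helper44.LDef
import Pool.Agent.Helper44.BoxSieve

/-!
# Lower bound for `L(p)`: the counting step
-/

set_option autoImplicit false

open Finset

namespace Pool.Agent.Helper44

/-- The dyadic levels of the divisors of `M`. -/
def lev (M : ℕ) : Finset ℕ := M.divisors.image (Nat.log 2)

theorem card_lev (M : ℕ) : (lev M).card = kap M := rfl

open Classical in
/-- A divisor of `M` of given dyadic level. -/
noncomputable def pick (M k : ℕ) : ℕ :=
  if h : ∃ m, m ∈ M.divisors ∧ Nat.log 2 m = k then h.choose else 1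

theorem pick_spec {M k : ℕ} (h : k ∈ lev M) : pick M k ∣ M ∧ M ≠ 0 ∧ Nat.log 2 (pick M k) = k := by
  unfold lev at h
  rw [Finset.mem_image] at h
  have h' : ∃ m, m ∈ M.divisors ∧ Nat.log 2 m = k := h
  unfold pick
  rw [dif_pos h']
  have h1 := h'.choose_spec
  rw [Nat.mem_divisors] at h1
  exact ⟨h1.1.1, h1.1.2, h1.2⟩

open Classical in
/-- The set of data `(M, k, (r, s))`. -/
noncomputable def dataSet (p : ℕ) (t : ℝ) : Finset (Σ _ : (Σ _ : ℕ, ℕ), ℕ × ℕ) :=
  ((Finset.Icc 1 ⌊t⌋₊).sigma (fun M => lev M)).sigma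
    (fun x => (boxSet p x.1 (p / (2 * pick x.1 x.2)) ((p - 1) / pick x.1 x.2)
      ((p - 1) / (x.1 / pick x.1 x.2))).filter (roughPair t))

theorem card_dataSet (p : ℕ) (t : ℝ) : ((dataSet p t).card : ℝ) =
    ∑ M ∈ Finset.Icc 1 ⌊t⌋₊, ∑ k ∈ lev M, evCount (boxSet p M (p / (2 * pick M k))
      ((p - 1) / pick M k) ((p - 1) / (M / pick M k))) (roughPair t) := by
  classical
  unfold dataSet
  rw [Finset.card_sigma, Finset.sum_sigma]
  push_cast
  apply Finset.sum_congr rfl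
  intro M _
  apply Finset.sum_congr rfl
  intro k _
  rw [evCount_eq]

/-- Arithmetic facts about an element of `dataSet`. -/
theorem dataSet_spec {p : ℕ} (hp : p.Prime) {t : ℝ} (ht : 2 ≤ t)
    {M k r s : ℕ} (h : (⟨⟨M, k⟩, (r, s)⟩ : Σ _ : (Σ _ : ℕ, ℕ), ℕ × ℕ) ∈ dataSet p t) :
    1 ≤ M ∧ M ≤ ⌊t⌋₊ ∧ 0 < r ∧ 0 < s ∧ M * r * s ∈ NN p ∧
    M = sm ⌊t⌋₊ (M * r * s) ∧ r * s = ro ⌊t⌋₊ (M * r * s) ∧
    (∀ q : ℕ, q.Prime → q ∣ r * s → t < q) ∧
    k ≤ Nat.log 2 (p / r) ∧ Nat.log 2 (p / r) ≤ k + 1 ∧ r * s < p ^ 2 := by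
  classical
  unfold dataSet at h
  rw [Finset.mem_sigma, Finset.mem_sigma, Finset.mem_filter] at h
  obtain ⟨⟨hM, hk⟩, hbox, hrough⟩ := h
  simp only at hM hk hbox hrough
  rw [Finset.mem_Icc] at hM
  obtain ⟨hm1, hM0, hm2⟩ := pick_spec hk
  set m := pick M k with hm
  unfold boxSet at hbox
  simp only [Finset.mem_filter, Finset.mem_product, Finset.mem_Ioc] at hbox
  obtain ⟨⟨⟨hr1, hr2⟩, hs1, hs2⟩, hmod⟩ := hbox
  have hp2 := hp.two_le
  have hm0 : 0 < m := Nat.pos_of_dvd_of_pos hm1 (by omega)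
  obtain ⟨n, hn⟩ := hm1
  have hn0 : 0 < n := by
    rcases Nat.eq_zero_or_pos n with h0 | h0
    · rw [h0, mul_zero] at hn; omega
    · exact h0
  have hMn : M / m = n := by rw [hn]; exact Nat.mul_div_cancel_left n hm0
  rw [hMn] at hs2
  have hr0 : 0 < r := lt_of_le_of_lt (Nat.zero_le _) hr1
  have e1 : m * r ≤ p - 1 := by
    rw [Nat.le_div_iff_mul_le hm0] at hr2; linarith [mul_comm m r]
  have e2 : n * s ≤ p - 1 := by
    rw [Nat.le_div_iff_mul_le hn0] at hs2; linarith [mul_comm n s]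
  have e3 : p < r * (2 * m) := by
    rwa [Nat.div_lt_iff_lt_mul (by omega)] at hr1
  have hmem : M * r * s ∈ NN p := by
    rw [mem_NN hp]
    refine ⟨m * r, n * s, Nat.mul_pos hm0 hr0, e1, Nat.mul_pos hn0 hs1, e2, ?_, ?_⟩
    · have : m * r * (n * s) = M * r * s := by rw [hn]; ring
      rw [this]; exact hmod
    · rw [hn]; ring
  have hrs : ∀ q : ℕ, q.Prime → q ∣ r * s → t < q := by
    intro q hq hqd
    by_contra hcon
    push Not at hcon
    have := hrough q hq hcon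
    rcases (hq.dvd_mul).mp hqd with h | h
    · exact this.1 h
    · exact this.2 h
  have ht0 : (0 : ℝ) ≤ t := by linarith
  have hsm : M = sm ⌊t⌋₊ (M * (r * s)) := by
    apply sm_unique (by omega) (Nat.mul_pos hr0 hs1).ne'
    · intro q hq hqd
      exact (Nat.le_of_dvd (by omega) hqd).trans hM.2
    · intro q hq hqd
      rw [Nat.floor_lt ht0]
      exact hrs q hq hqd
  have hsm' : M = sm ⌊t⌋₊ (M * r * s) := by rw [mul_assoc]; exact hsm
  have hN0 : M * r * s ≠ 0 := by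
    rw [mul_assoc]
    exact (Nat.mul_pos (by omega) (Nat.mul_pos hr0 hs1)).ne'
  have hro : r * s = ro ⌊t⌋₊ (M * r * s) := by
    have h1 := sm_mul_ro (y := ⌊t⌋₊) hN0
    rw [← hsm'] at h1
    have h2 : M * (r * s) = M * ro ⌊t⌋₊ (M * r * s) := by rw [h1, mul_assoc]
    exact Nat.eq_of_mul_eq_mul_left (by omega) h2
  have hpow1 : 2 ^ k ≤ m := by rw [← hm2]; exact Nat.pow_log_le_self 2 hm0.ne'
  have hpow2 : m < 2 ^ (k + 1) := by rw [← hm2]; exact Nat.lt_pow_succ_log_self (by norm_num) m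
  have hk1 : k ≤ Nat.log 2 (p / r) := by
    apply Nat.le_log_of_pow_le (by norm_num)
    rw [Nat.le_div_iff_mul_le hr0]
    calc 2 ^ k * r ≤ m * r := Nat.mul_le_mul_right r hpow1
      _ ≤ p := by omega
  have hk2 : Nat.log 2 (p / r) ≤ k + 1 := by
    have : Nat.log 2 (p / r) < k + 2 := by
      apply Nat.log_lt_of_lt_pow
      · have h5 : r ≤ m * r := Nat.le_mul_of_pos_left r hm0
        have : 0 < p / r := Nat.div_pos (by omega) hr0
        omega
      · rw [Nat.div_lt_iff_lt_mul hr0]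
        calc p < r * (2 * m) := e3
          _ ≤ r * (2 * 2 ^ (k + 1)) := by
              apply Nat.mul_le_mul_left
              omega
          _ = 2 ^ (k + 2) * r := by ring
    omega
  have hlt : r * s < p ^ 2 := by
    have h1 : r * s ≤ (m * r) * (n * s) := by
      have : (m * r) * (n * s) = (m * n) * (r * s) := by ring
      rw [this]
      exact Nat.le_mul_of_pos_left _ (Nat.mul_pos hm0 hn0)
    have h2 : (m * r) * (n * s) ≤ (p - 1) * (p - 1) := Nat.mul_le_mul e1 e2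
    have h3 : (p - 1) * (p - 1) < p ^ 2 := by
      rw [sq]
      exact Nat.mul_lt_mul'' (by omega) (by omega)
    omega
  exact ⟨hM.1, hM.2, hr0, hs1, hmem, hsm', hro, hrs, hk1, hk2, hlt⟩

/-- The counting step of the lower bound. -/
theorem lower_count {p : ℕ} (hp : p.Prime) {t : ℝ} (ht : 2 ≤ t) {k0 : ℕ}
    (hk0 : ((p : ℝ)) ^ 2 ≤ t ^ k0) :
    ∑ M ∈ Finset.Icc 1 ⌊t⌋₊, ∑ k ∈ lev M, evCount (boxSet p M (p / (2 * pick M k))
      ((p - 1) / pick M k) ((p - 1) / (M / pick M k))) (roughPair t) ≤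
      2 ^ (k0 + 1) * (Lp p : ℝ) := by
  classical
  rw [← card_dataSet, ← card_NN hp]
  have h1 : (dataSet p t).card ≤ 2 ^ (k0 + 1) *
      ((dataSet p t).image (fun x => x.1.1 * x.2.1 * x.2.2)).card := by
    apply Finset.card_le_mul_card_image
    intro N hN
    -- inject the fibre into divisors × {0,1}
    have h2 : ((dataSet p t).filter (fun x => x.1.1 * x.2.1 * x.2.2 = N)).card ≤
        ((ro ⌊t⌋₊ N).divisors ×ˢ Finset.range 2).card := by
      apply Finset.card_le_card_of_injOn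
        (fun x => (x.2.1, x.1.2 + 1 - Nat.log 2 (p / x.2.1)))
      · rintro ⟨⟨M, k⟩, ⟨r, s⟩⟩ hx
        rw [Finset.mem_coe, Finset.mem_filter] at hx
        obtain ⟨hx1, hx2⟩ := hx
        simp only at hx2
        obtain ⟨a1, a2, a3, a4, a5, a6, a7, a8, a9, a10, a11⟩ := dataSet_spec hp ht hx1
        rw [hx2] at a7
        simp only [Finset.coe_product, Set.mem_prod, Finset.mem_coe, Nat.mem_divisors,
          Finset.mem_range]
        refine ⟨⟨?_, (ro_pos _ _).ne'⟩, by omega⟩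
        rw [← a7]
        exact Dvd.intro _ rfl
      · rintro ⟨⟨M, k⟩, ⟨r, s⟩⟩ hx ⟨⟨M', k'⟩, ⟨r', s'⟩⟩ hx' heq
        rw [Finset.mem_coe, Finset.mem_filter] at hx hx'
        obtain ⟨hx1, hx2⟩ := hx
        obtain ⟨hx1', hx2'⟩ := hx'
        simp only at hx2 hx2'
        obtain ⟨a1, a2, a3, a4, a5, a6, a7, a8, a9, a10, a11⟩ := dataSet_spec hp ht hx1
        obtain ⟨b1, b2, b3, b4, b5, b6, b7, b8, b9, b10, b11⟩ := dataSet_spec hp ht hx1'
        simp only [Prod.mk.injEq] at heq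
        obtain ⟨hr, hk⟩ := heq
        subst hr
        have hMM : M = M' := by
          rw [a6, b6, hx2, hx2']
        have hss : s = s' := by
          rw [hx2] at a7
          rw [hx2'] at b7
          exact Nat.eq_of_mul_eq_mul_left a3 (a7.trans b7.symm)
        have hkk : k = k' := by omega
        subst hMM hss hkk
        rfl
    refine h2.trans ?_
    rw [Finset.card_product, Finset.card_range, pow_succ]
    apply Nat.mul_le_mul_right
    -- some element in the fibre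
    obtain ⟨⟨⟨M, k⟩, ⟨r, s⟩⟩, hx, hxN⟩ := Finset.mem_image.mp hN
    simp only at hxN
    obtain ⟨a1, a2, a3, a4, a5, a6, a7, a8, a9, a10, a11⟩ := dataSet_spec hp ht hx
    rw [hxN] at a7
    rw [← a7]
    apply card_divisors_le_of_rough (t := t) (by linarith) (Nat.mul_pos a3 a4).ne' a8
    refine lt_of_lt_of_le ?_ hk0
    exact_mod_cast a11
  have h3 : ((dataSet p t).image (fun x => x.1.1 * x.2.1 * x.2.2)) ⊆ NN p := by
    intro N hN
    obtain ⟨⟨⟨M, k⟩, ⟨r, s⟩⟩, hx, hxN⟩ := Finset.mem_image.mp hN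
    simp only at hxN
    rw [← hxN]
    exact (dataSet_spec hp ht hx).2.2.2.2.1
  have h4 := Finset.card_le_card h3
  have h5 : (dataSet p t).card ≤ 2 ^ (k0 + 1) * (NN p).card :=
    h1.trans (Nat.mul_le_mul_left _ h4)
  exact_mod_cast h5

end Pool.Agent.Helper44
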