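import Pool.Agent.Helper44.LowerCount
import Pool.Agent.Helper40.LowFinal

/-!
# Lower bound for `L(p)`
-/

set_option autoImplicit false

open Finset Real Filter

namespace Pool.Agent.Helper44

theorem eventually_rpow_ge (ε A : ℝ) (hε : 0 < ε) : ∀ᶠ p : ℕ in atTop, A ≤ (p : ℝ) ^ ε :=
  ((tendsto_rpow_atTop hε).comp tendsto_natCast_atTop_atTop).eventually_ge_atTop A

theorem log_sq_le (x : ℝ) (hx : 1 ≤ x) : (Real.log x) ^ 2 ≤ 10000 * x ^ (1 / 50 : ℝ) := by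
  have hx0 : 0 < x := by linarith
  have h1 : Real.log x ≤ x ^ (1 / 100 : ℝ) / (1 / 100) := Real.log_le_rpow_div hx0.le (by norm_num)
  have h3 : 0 ≤ Real.log x := Real.log_nonneg hx
  calc (Real.log x) ^ 2 ≤ (x ^ (1 / 100 : ℝ) / (1 / 100)) ^ 2 := pow_le_pow_left₀ h3 h1 2
    _ = 10000 * (x ^ (1 / 100 : ℝ)) ^ 2 := by ring
    _ = 10000 * x ^ (1 / 50 : ℝ) := by
        rw [← Real.rpow_natCast, ← Real.rpow_mul hx0.le]
        norm_num

/-- Lower bound for each box. -/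
theorem box_lower_bound {η C c : ℝ} (hη1 : η ≤ 1 / 100) (hC : 0 < C)
    (hc : 0 < c) (hbox : ∀ p : ℕ, p.Prime → ∀ w : ℝ, 2 ≤ w → w ≤ (p : ℝ) ^ η → ∀ M : ℕ, ¬ p ∣ M →
    ∀ R1 R2 S2 : ℕ, R1 ≤ R2 → R2 < p → S2 < p →
    evCount (boxSet p M R1 R2 S2) (roughPair w) ≤
      C * (((R2 : ℝ) - R1) * S2 / p) / (Real.log w) ^ 2 + C * (p : ℝ) ^ (5 / 6 : ℝ) ∧
    c * (((R2 : ℝ) - R1) * S2 / p) / (Real.log w) ^ 2 - C * (p : ℝ) ^ (5 / 6 : ℝ) ≤
      evCount (boxSet p M R1 R2 S2) (roughPair w)) :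
    ∀ᶠ p : ℕ in atTop, p.Prime → ∀ t : ℝ, 2 ≤ t → t ≤ (p : ℝ) ^ η → ∀ M ∈ Finset.Icc 1 ⌊t⌋₊,
      ∀ k ∈ lev M, (c / 16) * p / (M * (Real.log t) ^ 2) ≤
        evCount (boxSet p M (p / (2 * pick M k)) ((p - 1) / pick M k)
          ((p - 1) / (M / pick M k))) (roughPair t) := by
  filter_upwards [eventually_rpow_ge (99 / 100) 8 (by norm_num),
    eventually_rpow_ge (1 / 10) (160000 * C / c) (by norm_num), eventually_ge_atTop 4]
    with p hp1 hp2 hp4 hp t ht2 htp M hM k hk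
  have hP0 : (0 : ℝ) < p := by exact_mod_cast hp.pos
  have hP1 : (1 : ℝ) ≤ p := by exact_mod_cast hp.one_lt.le
  rw [Finset.mem_Icc] at hM
  obtain ⟨hm1, hM0, hm2⟩ := pick_spec hk
  set m := pick M k with hm
  have hm0 : 0 < m := Nat.pos_of_dvd_of_pos hm1 (by omega)
  obtain ⟨n, hn⟩ := hm1
  have hn0 : 0 < n := by
    rcases Nat.eq_zero_or_pos n with h0 | h0
    · rw [h0, mul_zero] at hn; omega
    · exact h0
  have hMn : M / m = n := by rw [hn]; exact Nat.mul_div_cancel_left n hm0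
  rw [hMn]
  have ht0 : 0 < t := by linarith
  have htp' : t ≤ (p : ℝ) ^ (1 / 100 : ℝ) := htp.trans (Real.rpow_le_rpow_of_exponent_le hP1 hη1)
  have hMt : (M : ℝ) ≤ t := (Nat.le_floor_iff ht0.le).mp hM.2
  have hMp : (M : ℝ) ≤ (p : ℝ) ^ (1 / 100 : ℝ) := hMt.trans htp'
  have hpsplit : (p : ℝ) = (p : ℝ) ^ (99 / 100 : ℝ) * (p : ℝ) ^ (1 / 100 : ℝ) := by
    rw [← Real.rpow_add hP0]; norm_num
  have hp100 : (0 : ℝ) < (p : ℝ) ^ (1 / 100 : ℝ) := Real.rpow_pos_of_pos hP0 _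
  have hbig : 8 * (M : ℝ) ≤ p := by
    rw [hpsplit]
    calc 8 * (M : ℝ) ≤ 8 * (p : ℝ) ^ (1 / 100 : ℝ) := by linarith
      _ ≤ _ := mul_le_mul_of_nonneg_right hp1 hp100.le
  have hMlt : M < p := by
    have : (M : ℝ) < p := by
      have : (1 : ℝ) ≤ M := by exact_mod_cast hM.1
      linarith
    exact_mod_cast this
  have hpM : ¬ p ∣ M := fun h => by
    have := Nat.le_of_dvd (by omega) h
    omega
  have hm0' : (0 : ℝ) < m := by exact_mod_cast hm0
  have hn0' : (0 : ℝ) < n := by exact_mod_cast hn0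
  have hm1' : (1 : ℝ) ≤ m := by exact_mod_cast hm0
  have hn1' : (1 : ℝ) ≤ n := by exact_mod_cast hn0
  have hMmn : (M : ℝ) = m * n := by rw [hn]; push_cast; ring
  have hR : p / (2 * m) ≤ (p - 1) / m := by
    rw [← Nat.div_div_eq_div_mul]
    apply Nat.div_le_div_right
    omega
  have hb := (hbox p hp t ht2 htp M hpM (p / (2 * m)) ((p - 1) / m) ((p - 1) / n) hR
    ((Nat.div_le_self _ _).trans_lt (by omega)) ((Nat.div_le_self _ _).trans_lt (by omega))).2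
  refine le_trans ?_ hb
  -- size of the box
  have hpc : (((p - 1 : ℕ)) : ℝ) = (p : ℝ) - 1 := by
    rw [Nat.cast_sub (by omega)]; simp
  have r1 : ((p / (2 * m) : ℕ) : ℝ) ≤ (p : ℝ) / (2 * m) := by
    have := Nat.cast_div_le (α := ℝ) (m := p) (n := 2 * m)
    push_cast at this
    exact this
  have r2 : ((p : ℝ) - 1) / m - 1 ≤ (((p - 1) / m : ℕ) : ℝ) := by
    have := (abs_le.mp (abs_natDiv_sub (p - 1) m hm0)).1
    rw [hpc] at this
    linarith
  have s2 : ((p : ℝ) - 1) / n - 1 ≤ (((p - 1) / n : ℕ) : ℝ) := by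
    have := (abs_le.mp (abs_natDiv_sub (p - 1) n hn0)).1
    rw [hpc] at this
    linarith
  have hmM : (m : ℝ) ≤ M := by rw [hMmn]; nlinarith
  have hnM : (n : ℝ) ≤ M := by rw [hMmn]; nlinarith
  have A1 : (p : ℝ) / (4 * m) ≤ (((p - 1) / m : ℕ) : ℝ) - ((p / (2 * m) : ℕ) : ℝ) := by
    have h1 : 2 ≤ (p : ℝ) / (4 * m) := by
      rw [le_div_iff₀ (by positivity)]; linarith
    have h2 : (p : ℝ) / (2 * m) = 2 * ((p : ℝ) / (4 * m)) := by field_simp; norm_num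
    have h3 : ((p : ℝ) - 1) / m = 4 * ((p : ℝ) / (4 * m)) - 1 / m := by field_simp
    have h4 : 1 / (m : ℝ) ≤ 1 := by rw [div_le_one hm0']; exact hm1'
    linarith
  have A2 : (p : ℝ) / (2 * n) ≤ (((p - 1) / n : ℕ) : ℝ) := by
    have h1 : 4 ≤ (p : ℝ) / (2 * n) := by
      rw [le_div_iff₀ (by positivity)]; linarith
    have h3 : ((p : ℝ) - 1) / n = 2 * ((p : ℝ) / (2 * n)) - 1 / n := by field_simp
    have h4 : 1 / (n : ℝ) ≤ 1 := by rw [div_le_one hn0']; exact hn1'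
    linarith
  have hX : (p : ℝ) / (8 * M) ≤
      ((((p - 1) / m : ℕ) : ℝ) - ((p / (2 * m) : ℕ) : ℝ)) * (((p - 1) / n : ℕ) : ℝ) / p := by
    rw [le_div_iff₀ hP0]
    calc (p : ℝ) / (8 * M) * p = ((p : ℝ) / (4 * m)) * ((p : ℝ) / (2 * n)) := by
          rw [hMmn]; field_simp; norm_num
      _ ≤ _ := by
          apply mul_le_mul A1 A2 (by positivity)
          refine le_trans (by positivity) A1
  have hlt : 0 < Real.log t := Real.log_pos (by linarith)
  have hM1' : (0 : ℝ) < M := by rw [hMmn]; positivity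
  have hmain : c * ((p : ℝ) / (8 * M)) / (Real.log t) ^ 2 ≤
      c * (((((p - 1) / m : ℕ) : ℝ) - ((p / (2 * m) : ℕ) : ℝ)) * (((p - 1) / n : ℕ) : ℝ) / p) /
        (Real.log t) ^ 2 := by
    gcongr
  have herr : C * (p : ℝ) ^ (5 / 6 : ℝ) ≤ (c / 16) * p / (M * (Real.log t) ^ 2) := by
    rw [le_div_iff₀ (by positivity)]
    have h1 : (Real.log t) ^ 2 ≤ 10000 * (p : ℝ) ^ (1 / 50 : ℝ) := by
      have h2 : Real.log t ≤ Real.log p := by
        apply Real.log_le_log ht0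
        refine htp'.trans ?_
        calc (p : ℝ) ^ (1 / 100 : ℝ) ≤ (p : ℝ) ^ (1 : ℝ) :=
              Real.rpow_le_rpow_of_exponent_le hP1 (by norm_num)
          _ = p := Real.rpow_one _
      calc (Real.log t) ^ 2 ≤ (Real.log p) ^ 2 := pow_le_pow_left₀ hlt.le h2 2
        _ ≤ _ := log_sq_le p hP1
    calc C * (p : ℝ) ^ (5 / 6 : ℝ) * (M * (Real.log t) ^ 2)
        ≤ C * (p : ℝ) ^ (5 / 6 : ℝ) *
            ((p : ℝ) ^ (1 / 100 : ℝ) * (10000 * (p : ℝ) ^ (1 / 50 : ℝ))) := by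
          gcongr
      _ = 10000 * C * ((p : ℝ) ^ (5 / 6 : ℝ) * (p : ℝ) ^ (1 / 100 : ℝ) *
            (p : ℝ) ^ (1 / 50 : ℝ)) := by ring
      _ = 10000 * C * (p : ℝ) ^ (5 / 6 + 1 / 100 + 1 / 50 : ℝ) := by
          rw [← Real.rpow_add hP0, ← Real.rpow_add hP0]
      _ ≤ 10000 * C * (p : ℝ) ^ (9 / 10 : ℝ) := by
          apply mul_le_mul_of_nonneg_left _ (by positivity)
          apply Real.rpow_le_rpow_of_exponent_le hP1
          norm_num
      _ = (c / 16) * ((160000 * C / c) * (p : ℝ) ^ (9 / 10 : ℝ)) := by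
          field_simp; norm_num
      _ ≤ (c / 16) * ((p : ℝ) ^ (1 / 10 : ℝ) * (p : ℝ) ^ (9 / 10 : ℝ)) := by
          gcongr
      _ = (c / 16) * p := by
          rw [← Real.rpow_add hP0]; norm_num
  have heq : c * ((p : ℝ) / (8 * M)) / (Real.log t) ^ 2 =
      2 * ((c / 16) * p / (M * (Real.log t) ^ 2)) := by
    field_simp; norm_num
  linarith

/-- The lower bound for `L(p)`. -/
theorem Lp_lower : ∃ c : ℝ, 0 < c ∧ ∀ᶠ p : ℕ in atTop, p.Prime →
    c * p / ((Real.log p) ^ del * (Real.log (Real.log p)) ^ (3 / 2 : ℝ)) ≤ (Lp p : ℝ) := by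
  obtain ⟨η, C, c, hη, hη1, hC, hc, hbox⟩ := box_sieve
  obtain ⟨c', hc', t0, hkap⟩ := Pool.Agent.Helper40.Low.kap_lower
  set k0 : ℕ := ⌈2 / η⌉₊ with hk0
  refine ⟨(c * c' / 16) * η ^ (-del) / 2 ^ (k0 + 1), by positivity, ?_⟩
  filter_upwards [box_lower_bound hη1 hC hc hbox, eventually_rpow_ge η (max 3 t0) hη,
    eventually_ge_atTop 3] with p hb hpη hp3 hp
  have hP0 : (0 : ℝ) < p := by exact_mod_cast hp.pos
  have hP1 : (1 : ℝ) ≤ p := by exact_mod_cast hp.one_lt.le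
  set t : ℝ := (p : ℝ) ^ η with ht
  have ht3 : 3 ≤ t := (le_max_left _ _).trans hpη
  have ht0' : t0 ≤ t := (le_max_right _ _).trans hpη
  have ht0 : 0 < t := by linarith
  have hlt : 0 < Real.log t := Real.log_pos (by linarith)
  have hlogt : Real.log t = η * Real.log p := Real.log_rpow hP0 η
  have hlp : 0 < Real.log p := Real.log_pos (by exact_mod_cast hp.one_lt)
  have htp : t ≤ p := by
    calc t ≤ (p : ℝ) ^ (1 : ℝ) := Real.rpow_le_rpow_of_exponent_le hP1 (by linarith)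
      _ = p := Real.rpow_one _
  have hk : ((p : ℝ)) ^ 2 ≤ t ^ k0 := by
    rw [ht, ← Real.rpow_natCast ((p : ℝ) ^ η), ← Real.rpow_mul hP0.le, ← Real.rpow_natCast]
    apply Real.rpow_le_rpow_of_exponent_le hP1
    have : 2 / η ≤ k0 := Nat.le_ceil _
    rw [div_le_iff₀ hη] at this
    push_cast
    linarith
  have hcount := lower_count hp (by linarith : (2 : ℝ) ≤ t) hk
  have hsum : (c / 16) * p / (Real.log t) ^ 2 * ∑ M ∈ Finset.Icc 1 ⌊t⌋₊, (kap M : ℝ) / M ≤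
      ∑ M ∈ Finset.Icc 1 ⌊t⌋₊, ∑ k ∈ lev M, evCount (boxSet p M (p / (2 * pick M k))
      ((p - 1) / pick M k) ((p - 1) / (M / pick M k))) (roughPair t) := by
    rw [Finset.mul_sum]
    apply Finset.sum_le_sum
    intro M hM
    calc (c / 16) * p / (Real.log t) ^ 2 * ((kap M : ℝ) / M)
        = ∑ k ∈ lev M, (c / 16) * p / (M * (Real.log t) ^ 2) := by
          rw [Finset.sum_const, card_lev, nsmul_eq_mul]
          have : (0 : ℝ) < M := by exact_mod_cast (Finset.mem_Icc.mp hM).1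
          field_simp
      _ ≤ _ := Finset.sum_le_sum fun k hk => hb hp t (by linarith) le_rfl M hM k hk
  have hkt := hkap t ht0'
  have hll0 : 0 < Real.log (Real.log t) := by
    apply Real.log_pos
    have h3 : Real.log 3 ≤ Real.log t := Real.log_le_log (by norm_num) ht3
    have h4 : 1 < Real.log 3 := by
      rw [Real.lt_log_iff_exp_lt (by norm_num)]
      have := Real.exp_one_lt_d9
      linarith
    linarith
  have hll : Real.log (Real.log t) ≤ Real.log (Real.log p) :=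
    Real.log_le_log hlt (Real.log_le_log ht0 htp)
  have h1 : (c / 16) * p / (Real.log t) ^ 2 *
      (c' * (Real.log t) ^ (2 - del) / (Real.log (Real.log t)) ^ (3 / 2 : ℝ)) ≤
      2 ^ (k0 + 1) * (Lp p : ℝ) := by
    refine le_trans ?_ (hsum.trans hcount)
    apply mul_le_mul_of_nonneg_left hkt (by positivity)
  have h2 : (Real.log t) ^ (2 - del) = (Real.log t) ^ 2 * (η ^ (-del) * (Real.log p) ^ (-del)) := by
    rw [← Real.mul_rpow hη.le hlp.le, ← hlogt, ← Real.rpow_natCast, ← Real.rpow_add hlt]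
    norm_num
    ring_nf
  have hlp' : (Real.log p) ^ (-del) = ((Real.log p) ^ del)⁻¹ := Real.rpow_neg hlp.le del
  have hll' : 0 < (Real.log (Real.log p)) ^ (3 / 2 : ℝ) := Real.rpow_pos_of_pos (by linarith) _
  have hllt : 0 < (Real.log (Real.log t)) ^ (3 / 2 : ℝ) := Real.rpow_pos_of_pos hll0 _
  have hlpd : 0 < (Real.log p) ^ del := Real.rpow_pos_of_pos hlp _
  have h3 : (c * c' / 16) * η ^ (-del) * p /
      ((Real.log p) ^ del * (Real.log (Real.log p)) ^ (3 / 2 : ℝ)) ≤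
      (c / 16) * p / (Real.log t) ^ 2 *
      (c' * (Real.log t) ^ (2 - del) / (Real.log (Real.log t)) ^ (3 / 2 : ℝ)) := by
    rw [h2, hlp']
    have e1 : (c / 16) * p / (Real.log t) ^ 2 *
      (c' * ((Real.log t) ^ 2 * (η ^ (-del) * ((Real.log p) ^ del)⁻¹)) /
        (Real.log (Real.log t)) ^ (3 / 2 : ℝ)) =
      (c * c' / 16) * η ^ (-del) * p /
      ((Real.log p) ^ del * (Real.log (Real.log t)) ^ (3 / 2 : ℝ)) := by
      field_simp
    rw [e1]
    have hηd : 0 < η ^ (-del) := Real.rpow_pos_of_pos hη _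
    gcongr
  have h4 : (c * c' / 16) * η ^ (-del) * p /
      ((Real.log p) ^ del * (Real.log (Real.log p)) ^ (3 / 2 : ℝ)) ≤
      2 ^ (k0 + 1) * (Lp p : ℝ) := h3.trans h1
  calc (c * c' / 16) * η ^ (-del) / 2 ^ (k0 + 1) * p /
        ((Real.log p) ^ del * (Real.log (Real.log p)) ^ (3 / 2 : ℝ))
      = ((c * c' / 16) * η ^ (-del) * p /
        ((Real.log p) ^ del * (Real.log (Real.log p)) ^ (3 / 2 : ℝ))) / 2 ^ (k0 + 1) := by ring
    _ ≤ (2 ^ (k0 + 1) * (Lp p : ℝ)) / 2 ^ (k0 + 1) := by gcongr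
    _ = Lp p := by field_simp

end Pool.Agent.Helper44
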