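import Pool.Agent.Helper44.MertensProd
import Pool.Agent.Helper44.BrunHooley

/-!
# Two-dimensional sieve for pairs `(r, s)`
-/

set_option autoImplicit false

open Finset Real

namespace Pool.Agent.Helper44

/-- Sieving scales `w^(1/2^j)`. -/
noncomputable def zs (w : ℝ) (j : ℕ) : ℝ := w ^ ((1 / 2 : ℝ) ^ j)

theorem zs_zero (w : ℝ) : zs w 0 = w := by simp [zs]

theorem one_le_zs {w : ℝ} (hw : 1 ≤ w) (j : ℕ) : 1 ≤ zs w j :=
  Real.one_le_rpow hw (by positivity)

theorem zs_pos {w : ℝ} (hw : 1 ≤ w) (j : ℕ) : 0 < zs w j :=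
  lt_of_lt_of_le one_pos (one_le_zs hw j)

theorem zs_succ_sq {w : ℝ} (hw : 1 ≤ w) (j : ℕ) : zs w (j + 1) ^ 2 = zs w j := by
  unfold zs
  rw [← Real.rpow_natCast, ← Real.rpow_mul (by linarith)]
  congr 1
  rw [pow_succ]
  push_cast
  ring

theorem zs_succ_le {w : ℝ} (hw : 1 ≤ w) (j : ℕ) : zs w (j + 1) ≤ zs w j := by
  have h1 := one_le_zs hw (j + 1)
  rw [← zs_succ_sq hw j]
  nlinarith

theorem zs_anti {w : ℝ} (hw : 1 ≤ w) {i j : ℕ} (hij : i ≤ j) : zs w j ≤ zs w i := by
  induction j, hij using Nat.le_induction with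
  | base => exact le_rfl
  | succ n _ ih => exact (zs_succ_le hw n).trans ih

theorem log_zs {w : ℝ} (hw : 0 < w) (j : ℕ) : Real.log (zs w j) = (1 / 2 : ℝ) ^ j * Real.log w := by
  unfold zs
  rw [Real.log_rpow hw]

/-- Number of blocks. -/
noncomputable def nb (w : ℝ) : ℕ := ⌊w⌋₊ + 1

theorem zs_nb_lt {w : ℝ} (hw : 2 ≤ w) : zs w (nb w) < 2 := by
  have hw0 : 0 < w := by linarith
  rw [← Real.log_lt_log_iff (zs_pos (by linarith) _) (by norm_num), log_zs hw0]
  have h1 : ((nb w : ℕ) : ℝ) + 1 ≤ 2 ^ (nb w) := by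
    have := Nat.lt_two_pow_self (n := nb w)
    exact_mod_cast this
  have h2 : w < nb w := by
    unfold nb
    push_cast
    exact Nat.lt_floor_add_one w
  have h3 : Real.log w ≤ w - 1 := Real.log_le_sub_one_of_pos hw0
  have h4 : Real.log 2 > 0.5 := by
    have := Real.log_two_gt_d9; linarith
  have h5 : (0 : ℝ) < 2 ^ (nb w) := by positivity
  rw [one_div, inv_pow, inv_mul_lt_iff₀ h5]
  have h6 : (1 : ℝ) ≤ 2 ^ (nb w - 1) := one_le_pow₀ (by norm_num)
  -- 2^(nb w) * log 2 > log w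
  have h7 : Real.log w ≤ Real.log (nb w) := Real.log_le_log hw0 h2.le
  have h8 : Real.log (nb w : ℝ) < (nb w : ℝ) * Real.log 2 := by
    have h9 : ((nb w : ℕ) : ℝ) < 2 ^ (nb w) := by linarith
    have h10 : (0 : ℝ) < (nb w : ℕ) := by linarith
    calc Real.log (nb w : ℝ) < Real.log (2 ^ (nb w)) := Real.log_lt_log h10 h9
      _ = (nb w : ℝ) * Real.log 2 := by rw [Real.log_pow]
  have h11 : (nb w : ℝ) * Real.log 2 ≤ 2 ^ (nb w) * Real.log 2 := by
    apply mul_le_mul_of_nonneg_right _ (by linarith)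
    linarith
  linarith

/-- Block `j` of primes (two copies). -/
noncomputable def blk (w : ℝ) (j : ℕ) : Finset (ℕ × Bool) :=
  ((Finset.Ioc ⌊zs w (j + 1)⌋₊ ⌊zs w j⌋₊).filter Nat.Prime) ×ˢ (Finset.univ : Finset Bool)

theorem mem_blk {w : ℝ} {j : ℕ} {i : ℕ × Bool} :
    i ∈ blk w j ↔ (⌊zs w (j + 1)⌋₊ < i.1 ∧ i.1 ≤ ⌊zs w j⌋₊) ∧ i.1.Prime := by
  unfold blk
  simp [Finset.mem_product]

theorem blk_disjoint {w : ℝ} (hw : 1 ≤ w) {i j : ℕ} (hij : i ≠ j) : Disjoint (blk w i) (blk w j) := by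
  rw [Finset.disjoint_left]
  intro a hi hj
  rw [mem_blk] at hi hj
  rcases lt_or_gt_of_ne hij with h | h
  · have : ⌊zs w j⌋₊ ≤ ⌊zs w (i + 1)⌋₊ := Nat.floor_le_floor (zs_anti hw h)
    omega
  · have : ⌊zs w i⌋₊ ≤ ⌊zs w (j + 1)⌋₊ := Nat.floor_le_floor (zs_anti hw h)
    omega

/-- The density of an event. -/
noncomputable def dens (i : ℕ × Bool) : ℝ := 1 / (i.1 : ℝ)

theorem dens_mem {w : ℝ} {j : ℕ} {i : ℕ × Bool} (hi : i ∈ blk w j) :
    0 ≤ dens i ∧ dens i ≤ 1 / 2 := by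
  rw [mem_blk] at hi
  have : (2 : ℝ) ≤ i.1 := by exact_mod_cast hi.2.two_le
  exact ⟨by unfold dens; positivity, one_div_le_one_div_of_le (by norm_num) this⟩

theorem sum_dens_blk (w : ℝ) (j : ℕ) : ∑ i ∈ blk w j, dens i =
    2 * ∑ q ∈ (Finset.Ioc ⌊zs w (j + 1)⌋₊ ⌊zs w j⌋₊).filter Nat.Prime, (1 : ℝ) / q := by
  unfold blk dens
  rw [Finset.sum_product]
  simp only [Finset.sum_const, Finset.card_univ, Fintype.card_bool, nsmul_eq_mul]
  rw [Finset.mul_sum]
  rfl

theorem sum_dens_blk_le : ∃ S0 : ℝ, 0 < S0 ∧ ∀ w : ℝ, 2 ≤ w → ∀ j : ℕ,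
    ∑ i ∈ blk w j, dens i ≤ S0 := by
  obtain ⟨C, hC, hM⟩ := mertens_interval
  have hl2 : 0 < Real.log 2 := Real.log_pos (by norm_num)
  refine ⟨2 * (Real.log 2 + C / Real.log 2) + 8, by positivity, ?_⟩
  intro w hw j
  rw [sum_dens_blk]
  have hw1 : (1 : ℝ) ≤ w := by linarith
  rcases lt_or_ge (zs w (j + 1)) 2 with h | h
  · -- small scale
    have h4 : zs w j < 4 := by
      rw [← zs_succ_sq hw1 j]
      have := one_le_zs hw1 (j + 1)
      nlinarith
    have hfl : ⌊zs w j⌋₊ ≤ 3 := by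
      have : ⌊zs w j⌋₊ < 4 := by
        rw [Nat.floor_lt (zs_pos hw1 j).le]
        exact_mod_cast h4
      omega
    have : ∑ q ∈ (Finset.Ioc ⌊zs w (j + 1)⌋₊ ⌊zs w j⌋₊).filter Nat.Prime, (1 : ℝ) / q ≤ 4 := by
      calc ∑ q ∈ (Finset.Ioc ⌊zs w (j + 1)⌋₊ ⌊zs w j⌋₊).filter Nat.Prime, (1 : ℝ) / q
          ≤ ∑ q ∈ (Finset.Ioc ⌊zs w (j + 1)⌋₊ ⌊zs w j⌋₊).filter Nat.Prime, 1 := by
            apply Finset.sum_le_sum
            intro q hq
            have : (1 : ℝ) ≤ q := by exact_mod_cast (Finset.mem_filter.mp hq).2.one_lt.le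
            rw [div_le_one (by linarith)]
            exact this
        _ = ((Finset.Ioc ⌊zs w (j + 1)⌋₊ ⌊zs w j⌋₊).filter Nat.Prime).card := by simp
        _ ≤ (4 : ℕ) := by
            have h1 : ((Finset.Ioc ⌊zs w (j + 1)⌋₊ ⌊zs w j⌋₊).filter Nat.Prime).card ≤
              (Finset.Ioc ⌊zs w (j + 1)⌋₊ ⌊zs w j⌋₊).card := Finset.card_filter_le _ _
            rw [Nat.card_Ioc] at h1
            exact_mod_cast (by omega)
        _ = 4 := by norm_num
    have : 0 < C / Real.log 2 := by positivity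
    linarith
  · have h1 := hM (zs w (j + 1)) (zs w j) h (zs_succ_le hw1 j)
    have hlz : 0 < Real.log (zs w (j + 1)) := Real.log_pos (by linarith)
    have h2 : Real.log (zs w j) / Real.log (zs w (j + 1)) = 2 := by
      rw [← zs_succ_sq hw1 j, Real.log_pow]
      push_cast
      field_simp
    rw [h2] at h1
    have h3 : C / Real.log (zs w (j + 1)) ≤ C / Real.log 2 := by
      apply div_le_div_of_nonneg_left hC.le hl2
      exact Real.log_le_log (by norm_num) h
    rw [abs_le] at h1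
    linarith [h1.2]

theorem card_blk_le {w : ℝ} (hw : 2 ≤ w) (j : ℕ) : ((blk w j).card : ℝ) + 1 ≤ (zs w j) ^ 3 := by
  have hw1 : (1 : ℝ) ≤ w := by linarith
  have h1 := one_le_zs hw1 j
  rcases Finset.eq_empty_or_nonempty (blk w j) with h | ⟨i, hi⟩
  · rw [h]
    simp only [Finset.card_empty, Nat.cast_zero, zero_add]
    exact one_le_pow₀ h1
  · rw [mem_blk] at hi
    have h2 : (2 : ℝ) ≤ zs w j := by
      have h3 : (i.1 : ℝ) ≤ zs w j := (Nat.le_floor_iff (zs_pos hw1 j).le).mp hi.1.2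
      have h4 : (2 : ℝ) ≤ i.1 := by exact_mod_cast hi.2.two_le
      linarith
    have h5 : ((blk w j).card : ℝ) ≤ 2 * zs w j := by
      unfold blk
      rw [Finset.card_product, Finset.card_univ, Fintype.card_bool]
      have h6 : ((Finset.Ioc ⌊zs w (j + 1)⌋₊ ⌊zs w j⌋₊).filter Nat.Prime).card ≤ ⌊zs w j⌋₊ := by
        refine (Finset.card_filter_le _ _).trans ?_
        rw [Nat.card_Ioc]; omega
      have h7 : (⌊zs w j⌋₊ : ℝ) ≤ zs w j := Nat.floor_le (zs_pos hw1 j).le
      have h8 : (((Finset.Ioc ⌊zs w (j + 1)⌋₊ ⌊zs w j⌋₊).filter Nat.Prime).card : ℝ) ≤ zs w j :=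
        le_trans (by exact_mod_cast h6) h7
      push_cast
      linarith
    nlinarith [mul_nonneg (by linarith : (0:ℝ) ≤ zs w j - 2) (by linarith : (0:ℝ) ≤ zs w j)]

theorem sum_geo_le (t : ℕ) : ∑ j ∈ range t, (1 / 2 : ℝ) ^ j ≤ 2 := by
  have h : ∀ t : ℕ, ∑ j ∈ range t, (1 / 2 : ℝ) ^ j = 2 - 2 * (1 / 2 : ℝ) ^ t := by
    intro t
    induction t with
    | zero => simp
    | succ n ih => rw [Finset.sum_range_succ, ih]; ring
  rw [h]
  have : (0 : ℝ) ≤ (1 / 2 : ℝ) ^ t := by positivity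
  linarith

theorem sum_geo_mul_le (t : ℕ) : ∑ j ∈ range t, (j : ℝ) * (1 / 2 : ℝ) ^ j ≤ 2 := by
  have h : ∀ t : ℕ, ∑ j ∈ range t, (j : ℝ) * (1 / 2 : ℝ) ^ j = 2 - (2 * t + 2) * (1 / 2 : ℝ) ^ t := by
    intro t
    induction t with
    | zero => simp
    | succ n ih => rw [Finset.sum_range_succ, ih]; push_cast; ring
  rw [h]
  have : (0 : ℝ) ≤ (2 * t + 2) * (1 / 2 : ℝ) ^ t := by positivity
  linarith

theorem biUnion_blk {w : ℝ} (hw : 2 ≤ w) :
    (Finset.univ : Finset (Fin (nb w))).biUnion (fun j => blk w j) =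
      primesUpTo w ×ˢ (Finset.univ : Finset Bool) := by
  have hw1 : (1 : ℝ) ≤ w := by linarith
  ext i
  simp only [Finset.mem_biUnion, Finset.mem_univ, true_and, mem_blk, Finset.mem_product, and_true]
  rw [mem_primesUpTo (by linarith)]
  constructor
  · rintro ⟨j, ⟨_, h2⟩, h3⟩
    refine ⟨h3, ?_⟩
    have h4 : (i.1 : ℝ) ≤ zs w j := (Nat.le_floor_iff (zs_pos hw1 j).le).mp h2
    have h5 : zs w j ≤ w := by
      have := zs_anti hw1 (Nat.zero_le (j : ℕ))
      rwa [zs_zero] at this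
    linarith
  · rintro ⟨hq, hle⟩
    -- find the last scale at least `i.1`
    have hex : ∃ j : ℕ, j < nb w ∧ (i.1 ≤ ⌊zs w j⌋₊ ∧ ¬ i.1 ≤ ⌊zs w (j + 1)⌋₊) := by
      by_contra hcon
      push Not at hcon
      have hall : ∀ j : ℕ, j ≤ nb w → i.1 ≤ ⌊zs w j⌋₊ := by
        intro j
        induction j with
        | zero =>
          intro _
          rw [zs_zero, Nat.le_floor_iff (by linarith)]
          exact hle
        | succ n ih =>
          intro hn
          exact hcon n (by omega) (ih (by omega))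
      have h6 := hall (nb w) le_rfl
      have h7 : (i.1 : ℝ) ≤ zs w (nb w) := (Nat.le_floor_iff (zs_pos hw1 _).le).mp h6
      have h8 := zs_nb_lt hw
      have h9 : (2 : ℝ) ≤ i.1 := by exact_mod_cast hq.two_le
      linarith
    obtain ⟨j, hj, h1, h2⟩ := hex
    exact ⟨⟨j, hj⟩, ⟨by simpa using h2, h1⟩, hq⟩

/-- The divisibility event. -/
def occP (i : ℕ × Bool) (rs : ℕ × ℕ) : Prop := if i.2 then i.1 ∣ rs.1 else i.1 ∣ rs.2

/-- Product of the primes on one side. -/
def sideProd (I : Finset (ℕ × Bool)) (e : Bool) : ℕ := ∏ i ∈ I.filter (fun i => i.2 = e), i.1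

theorem sideProd_dvd_iff (I : Finset (ℕ × Bool)) (hI : ∀ i ∈ I, i.1.Prime) (e : Bool) (n : ℕ) :
    sideProd I e ∣ n ↔ ∀ i ∈ I, i.2 = e → i.1 ∣ n := by
  unfold sideProd
  constructor
  · intro h i hi hie
    exact (Finset.dvd_prod_of_mem (fun i : ℕ × Bool => i.1)
      (Finset.mem_filter.mpr ⟨hi, hie⟩)).trans h
  · intro h
    have hinj : Set.InjOn (fun i : ℕ × Bool => i.1) (I.filter (fun i => i.2 = e)) := by
      intro a ha b hb hab
      have h1 := (Finset.mem_filter.mp ha).2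
      have h2 := (Finset.mem_filter.mp hb).2
      exact Prod.ext hab (h1.trans h2.symm)
    have : ∏ i ∈ I.filter (fun i => i.2 = e), i.1 =
        ∏ q ∈ (I.filter (fun i => i.2 = e)).image (fun i : ℕ × Bool => i.1), q := by
      rw [Finset.prod_image hinj]
    rw [this]
    apply Finset.prod_primes_dvd
    · intro a ha
      rw [Finset.mem_image] at ha
      obtain ⟨i, hi, rfl⟩ := ha
      exact (hI i (Finset.mem_filter.mp hi).1).prime
    · intro a ha
      rw [Finset.mem_image] at ha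
      obtain ⟨i, hi, rfl⟩ := ha
      exact h i (Finset.mem_filter.mp hi).1 (Finset.mem_filter.mp hi).2

theorem sideProd_pos (I : Finset (ℕ × Bool)) (hI : ∀ i ∈ I, i.1.Prime) (e : Bool) :
    0 < sideProd I e :=
  Finset.prod_pos fun i hi => (hI i (Finset.mem_filter.mp hi).1).pos

theorem prime_dvd_sideProd (I : Finset (ℕ × Bool)) (hI : ∀ i ∈ I, i.1.Prime) (e : Bool) {q : ℕ}
    (hq : q.Prime) (h : q ∣ sideProd I e) : ∃ i ∈ I, i.1 = q := by
  unfold sideProd at h
  rw [hq.prime.dvd_finsetProd_iff] at h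
  obtain ⟨i, hi, hqi⟩ := h
  have h1 := (Finset.mem_filter.mp hi).1
  exact ⟨i, h1, ((Nat.prime_dvd_prime_iff_eq hq (hI i h1)).mp hqi).symm⟩

theorem prod_dens (I : Finset (ℕ × Bool)) :
    ∏ i ∈ I, dens i = 1 / ((sideProd I true : ℝ) * (sideProd I false : ℝ)) := by
  unfold sideProd dens
  rw [← Finset.prod_filter_mul_prod_filter_not I (fun i => i.2 = true)]
  have : I.filter (fun i => ¬ i.2 = true) = I.filter (fun i => i.2 = false) := by
    ext i; simp
  rw [this]
  push_cast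
  rw [one_div, mul_inv, ← Finset.prod_inv_distrib, ← Finset.prod_inv_distrib]
  simp

theorem prod_blk_card_le {w : ℝ} (hw : 2 ≤ w) (b : ℕ) :
    ∏ j : Fin (nb w), (((blk w j).card : ℝ) + 1) ^ (2 * (b + (j : ℕ)) + 1) ≤
      w ^ ((12 * b + 18 : ℝ)) := by
  have hw1 : (1 : ℝ) ≤ w := by linarith
  have hw0 : (0 : ℝ) < w := by linarith
  calc ∏ j : Fin (nb w), (((blk w j).card : ℝ) + 1) ^ (2 * (b + (j : ℕ)) + 1)
      ≤ ∏ j : Fin (nb w), w ^ ((1 / 2 : ℝ) ^ (j : ℕ) * (3 * (2 * (b + (j : ℕ)) + 1))) := by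
        apply Finset.prod_le_prod
        · intro j _; positivity
        · intro j _
          calc (((blk w j).card : ℝ) + 1) ^ (2 * (b + (j : ℕ)) + 1)
              ≤ ((zs w j) ^ 3) ^ (2 * (b + (j : ℕ)) + 1) :=
                pow_le_pow_left₀ (by positivity) (card_blk_le hw j) _
            _ = w ^ ((1 / 2 : ℝ) ^ (j : ℕ) * (3 * (2 * (b + (j : ℕ)) + 1))) := by
                unfold zs
                rw [← pow_mul, ← Real.rpow_natCast, ← Real.rpow_mul hw0.le]
                congr 1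
                push_cast
                ring
    _ = w ^ (∑ j : Fin (nb w), (1 / 2 : ℝ) ^ (j : ℕ) * (3 * (2 * (b + (j : ℕ)) + 1))) := by
        rw [Real.rpow_sum_of_pos hw0]
    _ ≤ w ^ ((12 * b + 18 : ℝ)) := by
        apply Real.rpow_le_rpow_of_exponent_le hw1
        rw [Fin.sum_univ_eq_sum_range
          (fun j => (1 / 2 : ℝ) ^ (j : ℕ) * (3 * (2 * (b + (j : ℝ)) + 1))) (nb w)]
        have e : ∀ j ∈ range (nb w), (1 / 2 : ℝ) ^ (j : ℕ) * (3 * (2 * (b + (j : ℝ)) + 1)) =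
            (6 * b + 3) * (1 / 2 : ℝ) ^ j + 6 * ((j : ℝ) * (1 / 2 : ℝ) ^ j) := by
          intro j _; ring
        rw [Finset.sum_congr rfl e, Finset.sum_add_distrib, ← Finset.mul_sum, ← Finset.mul_sum]
        have h1 := sum_geo_le (nb w)
        have h2 := sum_geo_mul_le (nb w)
        have h3 : (0 : ℝ) ≤ 6 * b + 3 := by positivity
        nlinarith

/-- The two-dimensional sieve for pairs. -/
theorem sieve_pairs : ∃ K C c : ℝ, 1 ≤ K ∧ 0 < C ∧ 0 < c ∧ ∀ w : ℝ, 2 ≤ w →
    ∀ (Ω : Finset (ℕ × ℕ)) (X E : ℝ), 0 ≤ X → 0 ≤ E →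
    (∀ d e : ℕ, 0 < d → 0 < e → (∀ q : ℕ, q.Prime → q ∣ d → (q : ℝ) ≤ w) →
      (∀ q : ℕ, q.Prime → q ∣ e → (q : ℝ) ≤ w) →
      |evCount Ω (fun t => d ∣ t.1 ∧ e ∣ t.2) - X / (d * e)| ≤ E) →
    evCount Ω (fun t => ∀ q : ℕ, q.Prime → (q : ℝ) ≤ w → ¬ q ∣ t.1 ∧ ¬ q ∣ t.2) ≤
        C * X / (Real.log w) ^ 2 + E * w ^ K ∧
    c * X / (Real.log w) ^ 2 - E * w ^ K ≤
      evCount Ω (fun t => ∀ q : ℕ, q.Prime → (q : ℝ) ≤ w → ¬ q ∣ t.1 ∧ ¬ q ∣ t.2) := by
  obtain ⟨S0, hS0, hS⟩ := sum_dens_blk_le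
  obtain ⟨c1, C1, hc1, hC1, hP⟩ := mertens_prod
  -- choose b
  have hsum : Summable (fun n : ℕ => S0 ^ n / (n.factorial : ℝ)) := Real.summable_pow_div_factorial S0
  obtain ⟨s0, hs0⟩ := summable_iff_vanishing_norm.mp hsum (Real.exp (-(2 * S0)) / 2) (by positivity)
  set b := s0.sup id + 1 with hb
  set K0 : ℝ := 12 * b + 18 with hK0
  have hK0' : 0 ≤ K0 := by positivity
  refine ⟨K0 + 2, 2 * C1 ^ 2, c1 ^ 2 / 2, by linarith, by positivity, by positivity, ?_⟩
  intro w hw Ω X E hX hE hcnt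
  have hw1 : (1 : ℝ) ≤ w := by linarith
  have hw0 : (0 : ℝ) < w := by linarith
  have hlw : 0 < Real.log w := Real.log_pos (by linarith)
  have hdisj : ∀ i j : Fin (nb w), i ≠ j → Disjoint (blk w i) (blk w j) := by
    intro i j hij
    exact blk_disjoint hw1 (fun h => hij (Fin.ext h))
  have hprimeI : ∀ I : Finset (ℕ × Bool),
      I ⊆ Finset.univ.biUnion (fun j : Fin (nb w) => blk w j) → ∀ i ∈ I, i.1.Prime ∧ (i.1 : ℝ) ≤ w := by
    intro I hI i hi
    have := hI hi
    rw [biUnion_blk hw, Finset.mem_product, mem_primesUpTo hw0.le] at this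
    exact this.1
  have hcnt' : ∀ I : Finset (ℕ × Bool),
      I ⊆ Finset.univ.biUnion (fun j : Fin (nb w) => blk w j) →
      |evCount Ω (fun ω => ∀ i ∈ I, occP i ω) - X * ∏ i ∈ I, dens i| ≤ E := by
    intro I hI
    have hp := hprimeI I hI
    have hpr : ∀ i ∈ I, i.1.Prime := fun i hi => (hp i hi).1
    have hev : (fun ω : ℕ × ℕ => ∀ i ∈ I, occP i ω) =
        (fun t => sideProd I true ∣ t.1 ∧ sideProd I false ∣ t.2) := by
      funext ω
      rw [sideProd_dvd_iff I hpr, sideProd_dvd_iff I hpr]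
      apply propext
      unfold occP
      constructor
      · intro h
        constructor
        · intro i hi h2
          have := h i hi
          simpa [h2] using this
        · intro i hi h2
          have := h i hi
          simpa [h2] using this
      · rintro ⟨h1, h2⟩ i hi
        by_cases h3 : i.2 = true
        · simp only [h3, if_true]; exact h1 i hi h3
        · simp only [h3]
          exact h2 i hi (by simpa using h3)
    rw [hev, prod_dens, mul_one_div]
    apply hcnt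
    · exact sideProd_pos I hpr _
    · exact sideProd_pos I hpr _
    · intro q hq hqd
      obtain ⟨i, hi, rfl⟩ := prime_dvd_sideProd I hpr _ hq hqd
      exact (hp i hi).2
    · intro q hq hqd
      obtain ⟨i, hi, rfl⟩ := prime_dvd_sideProd I hpr _ hq hqd
      exact (hp i hi).2
  have hVlow : ∀ j : Fin (nb w), Real.exp (-(2 * S0)) ≤ ∏ i ∈ blk w j, (1 - dens i) := by
    intro j
    calc Real.exp (-(2 * S0)) ≤ Real.exp (-∑ i ∈ blk w j, 2 * dens i) := by
          apply Real.exp_le_exp.mpr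
          rw [← Finset.mul_sum]
          have := hS w hw j
          linarith
      _ = ∏ i ∈ blk w j, Real.exp (-(2 * dens i)) := by
          rw [← Finset.sum_neg_distrib, Real.exp_sum]
      _ ≤ _ := by
          apply Finset.prod_le_prod
          · intro i _; exact (Real.exp_pos _).le
          · intro i hi
            have := dens_mem hi
            exact one_sub_ge_exp this.1 this.2
  have hr : ∑ j : Fin (nb w), es (blk w j) (2 * (b + (j : ℕ)) + 1) dens /
      ∏ i ∈ blk w j, (1 - dens i) ≤ 1 / 2 := by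
    have hterm : ∀ j : Fin (nb w), es (blk w j) (2 * (b + (j : ℕ)) + 1) dens /
        ∏ i ∈ blk w j, (1 - dens i) ≤
        (S0 ^ (2 * (b + (j : ℕ)) + 1) / ((2 * (b + (j : ℕ)) + 1).factorial : ℝ)) *
          Real.exp (2 * S0) := by
      intro j
      have h1 : es (blk w j) (2 * (b + (j : ℕ)) + 1) dens ≤
          S0 ^ (2 * (b + (j : ℕ)) + 1) / ((2 * (b + (j : ℕ)) + 1).factorial : ℝ) := by
        refine (es_le_pow_div_factorial _ _ (fun i hi => (dens_mem hi).1) _).trans ?_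
        apply div_le_div_of_nonneg_right _ (by positivity)
        apply pow_le_pow_left₀ (Finset.sum_nonneg fun i hi => (dens_mem hi).1) (hS w hw j)
      have h2 := hVlow j
      have h3 : 0 < Real.exp (-(2 * S0)) := Real.exp_pos _
      rw [div_le_iff₀ (h3.trans_le h2)]
      calc es (blk w j) (2 * (b + (j : ℕ)) + 1) dens
          ≤ S0 ^ (2 * (b + (j : ℕ)) + 1) / ((2 * (b + (j : ℕ)) + 1).factorial : ℝ) * 1 := by
            rw [mul_one]; exact h1
        _ = S0 ^ (2 * (b + (j : ℕ)) + 1) / ((2 * (b + (j : ℕ)) + 1).factorial : ℝ) *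
              (Real.exp (2 * S0) * Real.exp (-(2 * S0))) := by
            rw [← Real.exp_add]; simp
        _ ≤ S0 ^ (2 * (b + (j : ℕ)) + 1) / ((2 * (b + (j : ℕ)) + 1).factorial : ℝ) *
              (Real.exp (2 * S0) * ∏ i ∈ blk w j, (1 - dens i)) := by
            gcongr
        _ = _ := by ring
    calc ∑ j : Fin (nb w), es (blk w j) (2 * (b + (j : ℕ)) + 1) dens /
          ∏ i ∈ blk w j, (1 - dens i)
        ≤ ∑ j : Fin (nb w), (S0 ^ (2 * (b + (j : ℕ)) + 1) /
            ((2 * (b + (j : ℕ)) + 1).factorial : ℝ)) * Real.exp (2 * S0) :=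
          Finset.sum_le_sum fun j _ => hterm j
      _ = (∑ n ∈ (Finset.univ : Finset (Fin (nb w))).image (fun j : Fin (nb w) => 2 * (b + (j : ℕ)) + 1),
            S0 ^ n / (n.factorial : ℝ)) * Real.exp (2 * S0) := by
          rw [← Finset.sum_mul, Finset.sum_image]
          intro i _ j _ hij
          apply Fin.ext
          simp only at hij
          omega
      _ ≤ (Real.exp (-(2 * S0)) / 2) * Real.exp (2 * S0) := by
          apply mul_le_mul_of_nonneg_right _ (Real.exp_pos _).le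
          have h4 := hs0 ((Finset.univ : Finset (Fin (nb w))).image
            (fun j : Fin (nb w) => 2 * (b + (j : ℕ)) + 1)) ?_
          · rw [Real.norm_eq_abs] at h4
            exact (le_abs_self _).trans h4.le
          · rw [Finset.disjoint_left]
            intro n hn hn'
            rw [Finset.mem_image] at hn
            obtain ⟨j, _, rfl⟩ := hn
            have : id (2 * (b + (j : ℕ)) + 1) ≤ s0.sup id := Finset.le_sup (f := id) hn'
            simp only [id] at this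
            omega
      _ = 1 / 2 := by
          rw [div_mul_eq_mul_div, ← Real.exp_add]; simp
  have hmain := brun_hooley Ω occP (fun j : Fin (nb w) => blk w j) hdisj dens
    (fun j i hi => dens_mem hi) X E hX hE hcnt' (fun j => 2 * (b + (j : ℕ)))
    (fun j => even_two_mul _) hr
  -- identify the event
  have hevent : (fun ω : ℕ × ℕ => ∀ j : Fin (nb w), ∀ i ∈ blk w j, ¬ occP i ω) =
      (fun t => ∀ q : ℕ, q.Prime → (q : ℝ) ≤ w → ¬ q ∣ t.1 ∧ ¬ q ∣ t.2) := by
    funext ω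
    apply propext
    constructor
    · intro h q hq hqw
      have hmem : ∀ e : Bool, ∃ j : Fin (nb w), (q, e) ∈ blk w j := by
        intro e
        have : (q, e) ∈ (Finset.univ : Finset (Fin (nb w))).biUnion (fun j => blk w j) := by
          rw [biUnion_blk hw, Finset.mem_product, mem_primesUpTo hw0.le]
          exact ⟨⟨hq, hqw⟩, Finset.mem_univ _⟩
        rw [Finset.mem_biUnion] at this
        obtain ⟨j, _, hj⟩ := this
        exact ⟨j, hj⟩
      obtain ⟨j1, h1⟩ := hmem true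
      obtain ⟨j2, h2⟩ := hmem false
      have h3 := h j1 _ h1
      have h4 := h j2 _ h2
      unfold occP at h3 h4
      simp only [if_true] at h3
      simp only [Bool.false_eq_true, if_false] at h4
      exact ⟨h3, h4⟩
    · intro h j i hi
      have hi' : i ∈ (Finset.univ : Finset (Fin (nb w))).biUnion (fun j => blk w j) :=
        Finset.mem_biUnion.mpr ⟨j, Finset.mem_univ _, hi⟩
      rw [biUnion_blk hw, Finset.mem_product, mem_primesUpTo hw0.le] at hi'
      have := h i.1 hi'.1.1 hi'.1.2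
      unfold occP
      split_ifs
      · exact this.1
      · exact this.2
  rw [hevent] at hmain
  -- the product
  have hprodV : ∏ j : Fin (nb w), ∏ i ∈ blk w j, (1 - dens i) =
      (∏ q ∈ primesUpTo w, (1 - (1 : ℝ) / q)) ^ 2 := by
    rw [← Finset.prod_biUnion, biUnion_blk hw, Finset.prod_product]
    · unfold dens
      simp only [Finset.prod_const, Finset.card_univ, Fintype.card_bool]
      rw [Finset.prod_pow]
    · intro i _ j _ hij
      exact hdisj i j hij
  rw [hprodV] at hmain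
  have hPw := hP w hw
  have hprod := prod_blk_card_le hw b
  have hprod0 : 0 ≤ ∏ j : Fin (nb w), (((blk w j).card : ℝ) + 1) ^ (2 * (b + (j : ℕ)) + 1) :=
    Finset.prod_nonneg fun j _ => by positivity
  have hwK : w ^ (K0 + 2) = w ^ K0 * w ^ 2 := by
    rw [Real.rpow_add hw0]
    norm_num
  have hwK0 : 0 < w ^ K0 := Real.rpow_pos_of_pos hw0 _
  have hcP : 0 < c1 / Real.log w := by positivity
  have hnb : (nb w : ℝ) + 1 ≤ w ^ 2 := by
    unfold nb
    push_cast
    have := Nat.floor_le hw0.le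
    nlinarith
  constructor
  · refine hmain.1.trans ?_
    have h1 : 2 * X * (∏ q ∈ primesUpTo w, (1 - (1 : ℝ) / q)) ^ 2 ≤
        2 * C1 ^ 2 * X / Real.log w ^ 2 := by
      calc 2 * X * (∏ q ∈ primesUpTo w, (1 - (1 : ℝ) / q)) ^ 2
          ≤ 2 * X * (C1 / Real.log w) ^ 2 := by
            apply mul_le_mul_of_nonneg_left _ (by positivity)
            exact pow_le_pow_left₀ (hcP.le.trans hPw.1) hPw.2 2
        _ = _ := by rw [div_pow]; ring
    have h2 : E * ∏ j : Fin (nb w), (((blk w j).card : ℝ) + 1) ^ (2 * (b + (j : ℕ)) + 1) ≤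
        E * w ^ (K0 + 2) := by
      apply mul_le_mul_of_nonneg_left _ hE
      refine hprod.trans ?_
      rw [hwK]
      have : (1 : ℝ) ≤ w ^ 2 := one_le_pow₀ hw1
      nlinarith
    linarith
  · refine le_trans ?_ hmain.2
    have h1 : c1 ^ 2 / 2 * X / Real.log w ^ 2 ≤
        1 / 2 * X * (∏ q ∈ primesUpTo w, (1 - (1 : ℝ) / q)) ^ 2 := by
      calc c1 ^ 2 / 2 * X / Real.log w ^ 2 = 1 / 2 * X * (c1 / Real.log w) ^ 2 := by
            rw [div_pow]; ring
        _ ≤ _ := by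
            apply mul_le_mul_of_nonneg_left _ (by positivity)
            exact pow_le_pow_left₀ hcP.le hPw.1 2
    have h2 : E * (((nb w : ℕ) + 1) *
        ∏ j : Fin (nb w), (((blk w j).card : ℝ) + 1) ^ (2 * (b + (j : ℕ)) + 1)) ≤
        E * w ^ (K0 + 2) := by
      apply mul_le_mul_of_nonneg_left _ hE
      rw [hwK, mul_comm (w ^ K0)]
      exact mul_le_mul hnb hprod hprod0 (by positivity)
    linarith

end Pool.Agent.Helper44
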