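import Pool.Agent.Helper44.UpperCount
import Pool.Agent.Helper48.KapUpperFinal

/-!
# Upper bound for `L(p)`: analytic part
-/

set_option autoImplicit false

open Finset Real Filter

namespace Pool.Agent.Helper44

theorem del_nonneg : 0 ≤ del := by
  unfold del
  have h2 : 0 < Real.log 2 := Real.log_pos (by norm_num)
  have h3 : Real.log (Real.log 2) ≤ Real.log 2 - 1 := Real.log_le_sub_one_of_pos h2
  have : (1 + Real.log (Real.log 2)) / Real.log 2 ≤ 1 := by
    rw [div_le_one h2]; linarith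
  linarith

theorem del_le_one : del ≤ 1 := by
  unfold del
  have h2 : 0 < Real.log 2 := Real.log_pos (by norm_num)
  have h3 : -1 ≤ Real.log (Real.log 2) := by
    rw [Real.le_log_iff_exp_le h2]
    have h4 : Real.exp (-1) = (Real.exp 1)⁻¹ := Real.exp_neg 1
    rw [h4]
    have h5 := Real.exp_one_gt_d9
    have h6 := Real.log_two_gt_d9
    have h7 : (Real.exp 1)⁻¹ ≤ (2 : ℝ)⁻¹ := inv_anti₀ (by norm_num) (by linarith)
    linarith
  have : 0 ≤ (1 + Real.log (Real.log 2)) / Real.log 2 := div_nonneg (by linarith) h2.le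
  linarith

theorem gpf_ge_two {M : ℕ} (hM : 1 < M) : 2 ≤ gpf M := (gpf_prime hM).two_le

/-- Sum over a smooth set all of whose elements exceed `Y`. -/
theorem class_sum {Cu y0 : ℝ} (hkap : ∀ y : ℝ, y0 ≤ y → ∀ S : Finset ℕ,
    (∀ M ∈ S, M ≠ 0 ∧ ∀ q : ℕ, q.Prime → q ∣ M → (q:ℝ) ≤ y) →
    ∑ M ∈ S, (kap M : ℝ) * (M:ℝ)^(1/Real.log y) / M ≤
      Cu * (Real.log y)^(2 - del) / (Real.log (Real.log y))^(3/2:ℝ))
    {y : ℝ} (hy0 : y0 ≤ y) (hy1 : 1 < y) {u : ℝ} (S : Finset ℕ)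
    (hS : ∀ M ∈ S, M ≠ 0 ∧ (gpf M : ℝ) ≤ y ∧ Real.exp u ≤ M) :
    ∑ M ∈ S, (kap M : ℝ) / M ≤ Real.exp (-(u / Real.log y)) *
      (Cu * (Real.log y)^(2 - del) / (Real.log (Real.log y))^(3/2:ℝ)) := by
  have hly : 0 < Real.log y := Real.log_pos hy1
  have h1 := hkap y hy0 S (fun M hM => ⟨(hS M hM).1, fun q hq hqM => by
    have h2 : q ≤ gpf M := le_gpf (hS M hM).1 hq hqM
    have h3 : (q : ℝ) ≤ gpf M := by exact_mod_cast h2
    exact h3.trans (hS M hM).2.1⟩)
  refine le_trans ?_ (mul_le_mul_of_nonneg_left h1 (Real.exp_nonneg _))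
  rw [Finset.mul_sum]
  apply Finset.sum_le_sum
  intro M hM
  obtain ⟨hM0, _, hMu⟩ := hS M hM
  have hM0' : (0 : ℝ) < M := by exact_mod_cast Nat.pos_of_ne_zero hM0
  have h4 : Real.exp (u / Real.log y) ≤ (M : ℝ) ^ (1 / Real.log y) := by
    calc Real.exp (u / Real.log y) = (Real.exp u) ^ (1 / Real.log y) := by
          rw [← Real.exp_mul]; ring_nf
      _ ≤ _ := Real.rpow_le_rpow (Real.exp_nonneg _) hMu (by positivity)
  have h5 : 1 ≤ Real.exp (-(u / Real.log y)) * (M : ℝ) ^ (1 / Real.log y) := by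
    rw [Real.exp_neg]
    rw [inv_mul_eq_div, le_div_iff₀ (Real.exp_pos _), one_mul]
    exact h4
  calc (kap M : ℝ) / M = 1 * ((kap M : ℝ) / M) := by ring
    _ ≤ (Real.exp (-(u / Real.log y)) * (M : ℝ) ^ (1 / Real.log y)) * ((kap M : ℝ) / M) := by
        gcongr
    _ = _ := by ring

/-- Telescoping decomposition according to the size of the largest prime factor. -/
theorem sum_gpf_decomp {w : ℝ} (hw : 1 ≤ w) (S : Finset ℕ) (g : ℕ → ℝ)
    (hS : ∀ M ∈ S, (gpf M : ℝ) ≤ w) (H : ℕ) :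
    ∑ M ∈ S, g M = ∑ h ∈ Finset.range H,
      ∑ M ∈ S.filter (fun M : ℕ => zs w (h + 1) < (gpf M : ℝ) ∧ (gpf M : ℝ) ≤ zs w h), g M +
      ∑ M ∈ S.filter (fun M : ℕ => (gpf M : ℝ) ≤ zs w H), g M := by
  induction H with
  | zero =>
    rw [Finset.sum_range_zero, zero_add, zs_zero]
    rw [Finset.filter_true_of_mem hS]
  | succ n ih =>
    rw [ih, Finset.sum_range_succ, add_assoc]
    congr 1
    rw [← Finset.sum_filter_add_sum_filter_not (S.filter (fun M : ℕ => (gpf M : ℝ) ≤ zs w n))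
      (fun M : ℕ => zs w (n + 1) < (gpf M : ℝ)) g]
    congr 1
    · rw [Finset.filter_filter]
      apply Finset.sum_congr _ (fun _ _ => rfl)
      ext M
      simp only [Finset.mem_filter]
      tauto
    · rw [Finset.filter_filter]
      apply Finset.sum_congr _ (fun _ _ => rfl)
      ext M
      simp only [Finset.mem_filter, not_lt]
      constructor
      · rintro ⟨h1, _, h2⟩
        exact ⟨h1, h2⟩
      · rintro ⟨h1, h2⟩
        exact ⟨h1, h2.trans (zs_succ_le hw n), h2⟩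

/-- The sum over moduli beyond a power of `w`, weighted by the sieve factor. -/
theorem beta_sum {Cu y0 : ℝ} (hC : 0 < Cu) (hkap : ∀ y : ℝ, y0 ≤ y → ∀ S : Finset ℕ,
    (∀ M ∈ S, M ≠ 0 ∧ ∀ q : ℕ, q.Prime → q ∣ M → (q:ℝ) ≤ y) →
    ∑ M ∈ S, (kap M : ℝ) * (M:ℝ)^(1/Real.log y) / M ≤
      Cu * (Real.log y)^(2 - del) / (Real.log (Real.log y))^(3/2:ℝ))
    {κ : ℝ} (hκ : 0 < κ) :
    ∃ w0 : ℝ, ∀ w : ℝ, w0 ≤ w → ∀ S : Finset ℕ,
      (∀ M ∈ S, Real.exp (κ * Real.log w) < M ∧ (gpf M : ℝ) ≤ w) →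
      ∑ M ∈ S, (kap M : ℝ) / (M * (Real.log (gpf M)) ^ 2) ≤
        (128 * Cu / κ ^ 2 + 768 * Cu / κ ^ 4) /
          ((Real.log w) ^ del * (Real.log (Real.log w)) ^ (3 / 2 : ℝ)) := by
  set A : ℝ := max y0 3 with hA
  have hA3 : 3 ≤ A := le_max_right _ _
  have hAy : y0 ≤ A := le_max_left _ _
  refine ⟨Real.exp (4 * A ^ 2), ?_⟩
  intro w hw S hS
  set x : ℝ := Real.log w with hx
  have hw0 : 0 < w := (Real.exp_pos _).trans_le hw
  have hxA : 4 * A ^ 2 ≤ x := by rw [hx, Real.le_log_iff_exp_le hw0]; exact hw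
  have hx36 : 36 ≤ x := by nlinarith
  have hx0 : 0 < x := by linarith
  have hw1 : 1 ≤ w := by
    have : Real.exp 0 ≤ w := (Real.exp_le_exp.mpr (by positivity)).trans hw
    simpa using this
  set r : ℝ := Real.sqrt x with hr
  have hr2 : r ^ 2 = x := Real.sq_sqrt hx0.le
  have hr0 : 0 ≤ r := Real.sqrt_nonneg _
  have hrA : 2 * A ≤ r := by
    rw [hr]; apply Real.le_sqrt_of_sq_le; nlinarith
  have hr6 : 6 ≤ r := by linarith
  -- the number of dyadic classes
  set H : ℕ := Nat.log 2 ⌊r⌋₊ + 1 with hH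
  have hfl : 1 ≤ ⌊r⌋₊ := Nat.le_floor (by push_cast; linarith)
  have hH1 : ((2 : ℝ)) ^ (H - 1) ≤ r := by
    have h1 : 2 ^ (Nat.log 2 ⌊r⌋₊) ≤ ⌊r⌋₊ := Nat.pow_log_le_self 2 (by omega)
    have h2 : ((2 ^ (Nat.log 2 ⌊r⌋₊) : ℕ) : ℝ) ≤ (⌊r⌋₊ : ℝ) := by exact_mod_cast h1
    have h3 : (⌊r⌋₊ : ℝ) ≤ r := Nat.floor_le hr0
    rw [hH, Nat.add_sub_cancel]
    push_cast at h2
    linarith
  have hH2 : r ≤ (2 : ℝ) ^ H := by
    have h1 : ⌊r⌋₊ < 2 ^ (Nat.log 2 ⌊r⌋₊ + 1) := Nat.lt_pow_succ_log_self (by norm_num) _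
    have h2 : ((⌊r⌋₊ + 1 : ℕ) : ℝ) ≤ ((2 ^ H : ℕ) : ℝ) := by exact_mod_cast h1
    have h3 : r < ⌊r⌋₊ + 1 := Nat.lt_floor_add_one r
    push_cast at h2
    linarith
  have hH3 : (2 : ℝ) ^ H ≤ 2 * r := by
    rw [hH, pow_succ]
    rw [hH, Nat.add_sub_cancel] at hH1
    linarith
  -- properties of the scales
  have hlog : ∀ h : ℕ, Real.log (zs w h) = x / 2 ^ h := by
    intro h
    rw [log_zs hw0 h, one_div, inv_pow, inv_mul_eq_div]
  have hscale : ∀ h ≤ H, r / 2 ≤ Real.log (zs w h) := by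
    intro h hh
    rw [hlog h, le_div_iff₀ (by positivity)]
    have h1 : (2 : ℝ) ^ h ≤ 2 ^ H := pow_le_pow_right₀ (by norm_num) hh
    have h2 : (2 : ℝ) ^ h ≤ 2 * r := h1.trans hH3
    nlinarith
  have hbig : ∀ h ≤ H, A ≤ Real.log (zs w h) := fun h hh => by
    have := hscale h hh
    linarith
  have hzy : ∀ h ≤ H, y0 ≤ zs w h := by
    intro h hh
    have h1 := hbig h hh
    have h2 : 0 < zs w h := zs_pos hw1 h
    have h3 : Real.log (zs w h) ≤ zs w h - 1 := Real.log_le_sub_one_of_pos h2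
    linarith
  have hz1 : ∀ h ≤ H, 1 < zs w h := by
    intro h hh
    have h1 := hbig h hh
    have h2 : 0 < zs w h := zs_pos hw1 h
    have h3 : Real.log (zs w h) ≤ zs w h - 1 := Real.log_le_sub_one_of_pos h2
    linarith
  have hlx : 0 < Real.log x := Real.log_pos (by linarith)
  have hll : ∀ h ≤ H, Real.log x / 4 ≤ Real.log (Real.log (zs w h)) := by
    intro h hh
    have h1 := hscale h hh
    have h2 : Real.log (r / 2) ≤ Real.log (Real.log (zs w h)) :=
      Real.log_le_log (by linarith) h1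
    refine le_trans ?_ h2
    rw [Real.log_div (by linarith) (by norm_num), hr, Real.log_sqrt hx0.le]
    have h3 : Real.log 2 ≤ Real.log x / 4 := by
      have h4 : Real.log ((2 : ℝ) ^ 4) ≤ Real.log x := Real.log_le_log (by norm_num) (by linarith)
      rw [Real.log_pow] at h4
      push_cast at h4
      linarith
    linarith
  set Q : ℝ := (Real.log x) ^ (3 / 2 : ℝ) with hQ
  have hQ0 : 0 < Q := Real.rpow_pos_of_pos hlx _
  have hllp : ∀ h ≤ H, Q / 8 ≤ (Real.log (Real.log (zs w h))) ^ (3 / 2 : ℝ) := by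
    intro h hh
    have h1 : (Real.log x / 4) ^ (3 / 2 : ℝ) ≤ (Real.log (Real.log (zs w h))) ^ (3 / 2 : ℝ) :=
      Real.rpow_le_rpow (by positivity) (hll h hh) (by norm_num)
    refine le_trans (le_of_eq ?_) h1
    rw [Real.div_rpow hlx.le (by norm_num)]
    congr 1
    have : (4 : ℝ) = 2 ^ (2 : ℝ) := by norm_num
    rw [this, ← Real.rpow_mul (by norm_num)]
    norm_num
  have hM1 : ∀ M ∈ S, 1 < M := by
    intro M hM
    have h1 := (hS M hM).1
    have h2 : (1 : ℝ) < M := by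
      refine lt_of_le_of_lt ?_ h1
      have : Real.exp 0 ≤ Real.exp (κ * x) := Real.exp_le_exp.mpr (by positivity)
      simpa using this
    exact_mod_cast h2
  set D : ℝ := x ^ del with hD
  have hD0 : 0 < D := Real.rpow_pos_of_pos hx0 _
  -- bound for a set of smooth numbers
  have hset : ∀ h ≤ H, ∀ S' ⊆ S, (∀ M ∈ S', (gpf M : ℝ) ≤ zs w h) →
      ∑ M ∈ S', (kap M : ℝ) / M ≤
        Real.exp (-(κ * 2 ^ h)) * (8 * Cu * (Real.log (zs w h)) ^ (2 - del) / Q) := by
    intro h hh S' hS' hS''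
    have h1 := class_sum hkap (hzy h hh) (hz1 h hh) (u := κ * x) S'
      (fun M hM => ⟨by have := hM1 M (hS' hM); omega, hS'' M hM, (hS M (hS' hM)).1.le⟩)
    have h2 : κ * x / Real.log (zs w h) = κ * 2 ^ h := by
      rw [hlog h]; field_simp
    rw [h2] at h1
    refine h1.trans ?_
    apply mul_le_mul_of_nonneg_left _ (Real.exp_nonneg _)
    have h3 := hllp h hh
    have h4 : 0 < (Real.log (zs w h)) ^ (2 - del) :=
      Real.rpow_pos_of_pos (by linarith [hbig h hh]) _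
    calc Cu * (Real.log (zs w h)) ^ (2 - del) / (Real.log (Real.log (zs w h))) ^ (3 / 2 : ℝ)
        ≤ Cu * (Real.log (zs w h)) ^ (2 - del) / (Q / 8) := by
          apply div_le_div_of_nonneg_left (by positivity) (by positivity) h3
      _ = _ := by field_simp
  rw [sum_gpf_decomp hw1 S _ (fun M hM => (hS M hM).2) H]
  -- classes
  have hclass : ∀ h ∈ Finset.range H,
      ∑ M ∈ S.filter (fun M : ℕ => zs w (h + 1) < (gpf M : ℝ) ∧ (gpf M : ℝ) ≤ zs w h),
        (kap M : ℝ) / (M * (Real.log (gpf M)) ^ 2) ≤ (64 * Cu / κ ^ 2) / (D * Q) * (1 / 2) ^ h := by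
    intro h hh
    rw [Finset.mem_range] at hh
    set S' := S.filter (fun M : ℕ => zs w (h + 1) < (gpf M : ℝ) ∧ (gpf M : ℝ) ≤ zs w h) with hS'
    have hl0 : 0 < Real.log (zs w h) := by linarith [hbig h hh.le]
    have h1 : ∑ M ∈ S', (kap M : ℝ) / (M * (Real.log (gpf M)) ^ 2) ≤
        4 / (Real.log (zs w h)) ^ 2 * ∑ M ∈ S', (kap M : ℝ) / M := by
      rw [Finset.mul_sum]
      apply Finset.sum_le_sum
      intro M hM
      rw [hS', Finset.mem_filter] at hM
      have hM0 : (0 : ℝ) < M := by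
        have := hM1 M hM.1
        exact_mod_cast (by omega : 0 < M)
      have h2 : Real.log (zs w h) / 2 ≤ Real.log (gpf M) := by
        have h3 : Real.log (zs w (h + 1)) ≤ Real.log (gpf M) :=
          Real.log_le_log (zs_pos hw1 _) hM.2.1.le
        refine le_trans (le_of_eq ?_) h3
        rw [hlog, hlog, pow_succ]
        field_simp
      have h4 : (Real.log (zs w h) / 2) ^ 2 ≤ (Real.log (gpf M)) ^ 2 :=
        pow_le_pow_left₀ (by positivity) h2 2
      calc (kap M : ℝ) / (M * (Real.log (gpf M)) ^ 2)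
          ≤ (kap M : ℝ) / (M * (Real.log (zs w h) / 2) ^ 2) := by
            apply div_le_div_of_nonneg_left (by positivity) (by positivity)
            exact mul_le_mul_of_nonneg_left h4 hM0.le
        _ = _ := by field_simp; norm_num
    have h5 := hset h hh.le S' (Finset.filter_subset _ _)
      (fun M hM => by rw [hS', Finset.mem_filter] at hM; exact hM.2.2)
    have h6 : (Real.log (zs w h)) ^ (2 - del) =
        (Real.log (zs w h)) ^ 2 * (Real.log (zs w h)) ^ (-del) := by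
      rw [← Real.rpow_natCast, ← Real.rpow_add hl0]
      norm_num
      ring_nf
    have h7 : (Real.log (zs w h)) ^ (-del) ≤ 2 ^ h / D := by
      rw [hlog h, Real.rpow_neg (by positivity), Real.div_rpow hx0.le (by positivity), inv_div]
      apply div_le_div_of_nonneg_right _ hD0.le
      calc ((2 : ℝ) ^ h) ^ del ≤ ((2 : ℝ) ^ h) ^ (1 : ℝ) :=
            Real.rpow_le_rpow_of_exponent_le (one_le_pow₀ (by norm_num)) del_le_one
        _ = 2 ^ h := Real.rpow_one _
    have h8 : Real.exp (-(κ * 2 ^ h)) ≤ 2 / (κ * 2 ^ h) ^ 2 := by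
      have h9 := Real.pow_div_factorial_le_exp (κ * 2 ^ h) (by positivity) 2
      rw [Real.exp_neg, inv_le_comm₀ (Real.exp_pos _) (by positivity), inv_div]
      simpa using h9
    calc ∑ M ∈ S', (kap M : ℝ) / (M * (Real.log (gpf M)) ^ 2)
        ≤ 4 / (Real.log (zs w h)) ^ 2 * ∑ M ∈ S', (kap M : ℝ) / M := h1
      _ ≤ 4 / (Real.log (zs w h)) ^ 2 * (Real.exp (-(κ * 2 ^ h)) *
            (8 * Cu * (Real.log (zs w h)) ^ (2 - del) / Q)) := by
          gcongr
      _ = 32 * Cu * Real.exp (-(κ * 2 ^ h)) * (Real.log (zs w h)) ^ (-del) / Q := by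
          rw [h6]; field_simp; norm_num
      _ ≤ 32 * Cu * (2 / (κ * 2 ^ h) ^ 2) * (2 ^ h / D) / Q := by
          have : 0 ≤ (Real.log (zs w h)) ^ (-del) := Real.rpow_nonneg hl0.le _
          gcongr
      _ = (64 * Cu / κ ^ 2) / (D * Q) * (1 / 2) ^ h := by
          rw [one_div, inv_pow]
          field_simp
          norm_num
  have hclasses : ∑ h ∈ Finset.range H,
      ∑ M ∈ S.filter (fun M : ℕ => zs w (h + 1) < (gpf M : ℝ) ∧ (gpf M : ℝ) ≤ zs w h),
        (kap M : ℝ) / (M * (Real.log (gpf M)) ^ 2) ≤ (128 * Cu / κ ^ 2) / (D * Q) := by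
    calc _ ≤ ∑ h ∈ Finset.range H, (64 * Cu / κ ^ 2) / (D * Q) * (1 / 2) ^ h :=
          Finset.sum_le_sum hclass
      _ = (64 * Cu / κ ^ 2) / (D * Q) * ∑ h ∈ Finset.range H, (1 / 2 : ℝ) ^ h := by
          rw [Finset.mul_sum]
      _ ≤ (64 * Cu / κ ^ 2) / (D * Q) * 2 := by
          apply mul_le_mul_of_nonneg_left (sum_geo_le H) (by positivity)
      _ = _ := by ring
  -- tail
  have htail : ∑ M ∈ S.filter (fun M : ℕ => (gpf M : ℝ) ≤ zs w H),
        (kap M : ℝ) / (M * (Real.log (gpf M)) ^ 2) ≤ (768 * Cu / κ ^ 4) / (D * Q) := by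
    set S' := S.filter (fun M : ℕ => (gpf M : ℝ) ≤ zs w H) with hS'
    have hl0 : 0 < Real.log (zs w H) := by linarith [hbig H le_rfl]
    have h1 : ∑ M ∈ S', (kap M : ℝ) / (M * (Real.log (gpf M)) ^ 2) ≤
        4 * ∑ M ∈ S', (kap M : ℝ) / M := by
      rw [Finset.mul_sum]
      apply Finset.sum_le_sum
      intro M hM
      rw [hS', Finset.mem_filter] at hM
      have hM1' := hM1 M hM.1
      have hM0 : (0 : ℝ) < M := by exact_mod_cast (by omega : 0 < M)
      have h2 : 1 / 2 ≤ Real.log (gpf M) := by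
        have h3 : Real.log 2 ≤ Real.log (gpf M) := by
          apply Real.log_le_log (by norm_num)
          exact_mod_cast gpf_ge_two hM1'
        have := Real.log_two_gt_d9
        linarith
      have h4 : (1 / 2 : ℝ) ^ 2 ≤ (Real.log (gpf M)) ^ 2 :=
        pow_le_pow_left₀ (by norm_num) h2 2
      calc (kap M : ℝ) / (M * (Real.log (gpf M)) ^ 2)
          ≤ (kap M : ℝ) / (M * (1 / 2 : ℝ) ^ 2) := by
            apply div_le_div_of_nonneg_left (by positivity) (by positivity)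
            exact mul_le_mul_of_nonneg_left h4 hM0.le
        _ = _ := by field_simp; norm_num
    have h5 := hset H le_rfl S' (Finset.filter_subset _ _)
      (fun M hM => by rw [hS', Finset.mem_filter] at hM; exact hM.2)
    have h6 : (Real.log (zs w H)) ^ (2 - del) ≤ x ^ 2 / D := by
      have hd1 := del_le_one
      calc (Real.log (zs w H)) ^ (2 - del) ≤ x ^ (2 - del) := by
            apply Real.rpow_le_rpow hl0.le _ (by linarith)
            rw [hlog H]
            apply div_le_self hx0.le (one_le_pow₀ (by norm_num))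
        _ = x ^ 2 / D := by
            rw [hD, Real.rpow_sub hx0]
            norm_num
    have h8 : Real.exp (-(κ * 2 ^ H)) ≤ 24 / (κ ^ 4 * x ^ 2) := by
      have h9 := Real.pow_div_factorial_le_exp (κ * r) (by positivity) 4
      have h10 : Real.exp (-(κ * 2 ^ H)) ≤ Real.exp (-(κ * r)) := by
        apply Real.exp_le_exp.mpr
        have := mul_le_mul_of_nonneg_left hH2 hκ.le
        linarith
      refine h10.trans ?_
      rw [Real.exp_neg, inv_le_comm₀ (Real.exp_pos _) (by positivity), inv_div]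
      have h11 : (κ * r) ^ 4 = κ ^ 4 * x ^ 2 := by
        rw [← hr2]; ring
      rw [h11] at h9
      have h12 : ((Nat.factorial 4 : ℕ) : ℝ) = 24 := by norm_num [Nat.factorial]
      rw [h12] at h9
      exact h9
    calc ∑ M ∈ S', (kap M : ℝ) / (M * (Real.log (gpf M)) ^ 2)
        ≤ 4 * ∑ M ∈ S', (kap M : ℝ) / M := h1
      _ ≤ 4 * (Real.exp (-(κ * 2 ^ H)) *
            (8 * Cu * (Real.log (zs w H)) ^ (2 - del) / Q)) := by
          gcongr
      _ ≤ 4 * ((24 / (κ ^ 4 * x ^ 2)) * (8 * Cu * (x ^ 2 / D) / Q)) := by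
          have : 0 ≤ (Real.log (zs w H)) ^ (2 - del) := Real.rpow_nonneg hl0.le _
          gcongr
      _ = (768 * Cu / κ ^ 4) / (D * Q) := by
          field_simp
          norm_num
  calc _ ≤ (128 * Cu / κ ^ 2) / (D * Q) + (768 * Cu / κ ^ 4) / (D * Q) := add_le_add hclasses htail
    _ = _ := by ring

end Pool.Agent.Helper44
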