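import Pool.Agent.Helper44.LowerCount

/-!
# Upper bound for `L(p)`: the counting step
-/

set_option autoImplicit false

open Finset

namespace Pool.Agent.Helper44

/-- Largest prime factor. -/
def gpf (M : ℕ) : ℕ := M.primeFactors.sup id

theorem le_gpf {M q : ℕ} (hM : M ≠ 0) (hq : q.Prime) (h : q ∣ M) : q ≤ gpf M :=
  Finset.le_sup (f := id) (Nat.mem_primeFactors.mpr ⟨hq, h, hM⟩)

theorem gpf_le {M y : ℕ} (h : ∀ q : ℕ, q.Prime → q ∣ M → q ≤ y) : gpf M ≤ y := by
  unfold gpf
  apply Finset.sup_le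
  intro q hq
  exact h q (Nat.prime_of_mem_primeFactors hq) (Nat.dvd_of_mem_primeFactors hq)

theorem gpf_prime {M : ℕ} (hM : 1 < M) : (gpf M).Prime := by
  obtain ⟨q, hq, hqd⟩ := Nat.exists_prime_and_dvd (by omega : M ≠ 1)
  have hne : M.primeFactors.Nonempty := ⟨q, Nat.mem_primeFactors.mpr ⟨hq, hqd, by omega⟩⟩
  obtain ⟨r, hr, hr'⟩ := Finset.exists_mem_eq_sup M.primeFactors hne id
  unfold gpf
  rw [hr']
  exact Nat.prime_of_mem_primeFactors hr

/-- The box attached to `(M, k)`. -/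
def ubox (p M k : ℕ) : Finset (ℕ × ℕ) :=
  boxSet p M 0 ((p - 1) / 2 ^ k) (min (p - 1) (2 ^ (k + 1) * (p - 1) / M))

/-- Structure of an element of `NN p` relative to a smoothness level `y`. -/
theorem NN_structure {p : ℕ} (hp : p.Prime) {N : ℕ} (hN : N ∈ NN p) (y : ℕ) :
    ∃ k ∈ lev (sm y N), ∃ t ∈ ubox p (sm y N) k, N = sm y N * t.1 * t.2 ∧
      (∀ q : ℕ, q.Prime → q ≤ y → ¬ q ∣ t.1 ∧ ¬ q ∣ t.2) := by
  rw [mem_NN hp] at hN
  obtain ⟨a, b, ha1, ha2, hb1, hb2, hab, rfl⟩ := hN
  have hsab : sm y (a * b) = sm y a * sm y b := sm_mul (by omega) (by omega)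
  have ea := sm_mul_ro (y := y) (N := a) (by omega)
  have eb := sm_mul_ro (y := y) (N := b) (by omega)
  have hma := sm_pos y a
  have hmb := sm_pos y b
  have hra := ro_pos y a
  have hrb := ro_pos y b
  have hpow1 : 2 ^ (Nat.log 2 (sm y a)) ≤ sm y a := Nat.pow_log_le_self 2 hma.ne'
  have hpow2 : sm y a < 2 ^ (Nat.log 2 (sm y a) + 1) := Nat.lt_pow_succ_log_self (by norm_num) _
  have hNeq : a * b = sm y a * sm y b * ro y a * ro y b := by
    calc a * b = (sm y a * ro y a) * (sm y b * ro y b) := by rw [ea, eb]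
      _ = _ := by ring
  refine ⟨Nat.log 2 (sm y a), ?_, (ro y a, ro y b), ?_, ?_, ?_⟩
  · unfold lev
    rw [Finset.mem_image]
    refine ⟨sm y a, ?_, rfl⟩
    rw [Nat.mem_divisors, hsab]
    exact ⟨Dvd.intro _ rfl, (Nat.mul_pos hma hmb).ne'⟩
  · unfold ubox boxSet
    simp only [Finset.mem_filter, Finset.mem_product, Finset.mem_Ioc]
    refine ⟨⟨⟨hra, ?_⟩, hrb, ?_⟩, ?_⟩
    · rw [Nat.le_div_iff_mul_le (by positivity)]
      calc ro y a * 2 ^ Nat.log 2 (sm y a) ≤ ro y a * sm y a := Nat.mul_le_mul_left _ hpow1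
        _ = a := by rw [mul_comm, ea]
        _ ≤ p - 1 := ha2
    · apply le_min
      · calc ro y b ≤ sm y b * ro y b := Nat.le_mul_of_pos_left _ hmb
          _ = b := eb
          _ ≤ p - 1 := hb2
      · rw [Nat.le_div_iff_mul_le (sm_pos _ _), hsab]
        calc ro y b * (sm y a * sm y b) = sm y a * (sm y b * ro y b) := by ring
          _ = sm y a * b := by rw [eb]
          _ ≤ 2 ^ (Nat.log 2 (sm y a) + 1) * (p - 1) := Nat.mul_le_mul hpow2.le hb2
    · rw [hsab, ← hNeq]; exact hab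
  · rw [hsab, ← hNeq]
  · intro q hq hqy
    constructor
    · intro h
      have := (prime_dvd_ro hq h).1
      omega
    · intro h
      have := (prime_dvd_ro hq h).1
      omega

open Classical in
/-- Exceptional elements: divisible by a large power of a small prime. -/
noncomputable def NNbad (p y1 : ℕ) (T' : ℝ) : Finset ℕ :=
  (NN p).filter (fun N => ∃ q : ℕ, q.Prime ∧ q ≤ y1 ∧ T' < ((q ^ (N.factorization q) : ℕ) : ℝ))

open Classical in
/-- The counting step of the upper bound. -/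
theorem upper_count {p : ℕ} (hp : p.Prime) {w1 Z T T' : ℝ} (hw1 : 0 ≤ w1) (hZ : 1 ≤ Z)
    (hT0 : 0 < T') (hTT : T * T' ≤ Z) (hT1 : 1 ≤ T) :
    ((NN p).card : ℝ) ≤
      ∑ M ∈ Finset.Icc 1 ⌊Z⌋₊, ∑ k ∈ lev M, evCount (ubox p M k) (roughPair w1) +
      ∑ M ∈ (Finset.Icc 1 ⌊Z⌋₊).filter (fun M : ℕ => T < (M : ℝ) ∧ (gpf M : ℝ) ≤ w1),
        ∑ k ∈ lev M, evCount (ubox p M k) (roughPair (gpf M)) +
      (NNbad p ⌊w1⌋₊ T').card := by
  set y1 := ⌊w1⌋₊ with hy1
  set A : Finset ℕ := (Finset.Icc 1 ⌊Z⌋₊).biUnion (fun M => (lev M).biUnion (fun k =>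
    ((ubox p M k).filter (roughPair w1)).image (fun t => M * t.1 * t.2))) with hA
  set B : Finset ℕ := ((Finset.Icc 1 ⌊Z⌋₊).filter
    (fun M : ℕ => T < (M : ℝ) ∧ (gpf M : ℝ) ≤ w1)).biUnion (fun M => (lev M).biUnion (fun k =>
    ((ubox p M k).filter (roughPair (gpf M))).image (fun t => M * t.1 * t.2))) with hB
  have hsub : NN p ⊆ (A ∪ B) ∪ NNbad p y1 T' := by
    intro N hN
    by_cases hcase : (sm y1 N : ℝ) ≤ Z
    · -- case alpha
      apply Finset.mem_union_left
      apply Finset.mem_union_left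
      obtain ⟨k, hk, t, ht, hNt, hrough⟩ := NN_structure hp hN y1
      rw [hA, Finset.mem_biUnion]
      refine ⟨sm y1 N, Finset.mem_Icc.mpr ⟨sm_pos _ _, Nat.le_floor hcase⟩, ?_⟩
      rw [Finset.mem_biUnion]
      refine ⟨k, hk, ?_⟩
      rw [Finset.mem_image]
      refine ⟨t, Finset.mem_filter.mpr ⟨ht, ?_⟩, hNt.symm⟩
      intro q hq hqw
      exact hrough q hq (Nat.le_floor hqw)
    · -- case beta
      push Not at hcase
      have hex : ∃ y : ℕ, y < y1 ∧ (sm y N : ℝ) ≤ Z ∧ Z < (sm (y + 1) N : ℝ) := by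
        by_contra hcon
        push Not at hcon
        have hall : ∀ y : ℕ, y ≤ y1 → (sm y N : ℝ) ≤ Z := by
          intro y
          induction y with
          | zero =>
            intro _
            rw [sm_le_of_zero]
            simpa using hZ
          | succ n ih =>
            intro hn
            exact hcon n (by omega) (ih (by omega))
        exact absurd (hall y1 le_rfl) (not_le.mpr hcase)
      obtain ⟨y, hy, hy1', hy2⟩ := hex
      have hq : (y + 1).Prime := by
        by_contra hnp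
        rw [sm_succ, Nat.factorization_eq_zero_of_not_prime N hnp, pow_zero, mul_one] at hy2
        linarith
      by_cases hbad : T' < (((y + 1) ^ (N.factorization (y + 1)) : ℕ) : ℝ)
      · apply Finset.mem_union_right
        unfold NNbad
        rw [Finset.mem_filter]
        exact ⟨hN, y + 1, hq, by omega, hbad⟩
      · push Not at hbad
        apply Finset.mem_union_left
        apply Finset.mem_union_right
        have hTM : T < (sm y N : ℝ) := by
          rw [sm_succ] at hy2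
          push_cast at hy2 hbad
          have h1 : (sm y N : ℝ) * ((y : ℝ) + 1) ^ (N.factorization (y + 1)) ≤ (sm y N : ℝ) * T' :=
            mul_le_mul_of_nonneg_left hbad (by positivity)
          have h2 : T * T' < (sm y N : ℝ) * T' := by linarith
          exact lt_of_mul_lt_mul_right h2 hT0.le
        obtain ⟨k, hk, t, ht, hNt, hrough⟩ := NN_structure hp hN y
        have hgpf : gpf (sm y N) ≤ y := gpf_le fun q hq hqd => (prime_dvd_sm hq hqd).1
        rw [hB, Finset.mem_biUnion]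
        refine ⟨sm y N, ?_, ?_⟩
        · rw [Finset.mem_filter, Finset.mem_Icc]
          refine ⟨⟨sm_pos _ _, Nat.le_floor hy1'⟩, hTM, ?_⟩
          have : gpf (sm y N) ≤ y1 := by omega
          exact (Nat.le_floor_iff hw1).mp this
        · rw [Finset.mem_biUnion]
          refine ⟨k, hk, ?_⟩
          rw [Finset.mem_image]
          refine ⟨t, Finset.mem_filter.mpr ⟨ht, ?_⟩, hNt.symm⟩
          intro q hq hqw
          have : q ≤ gpf (sm y N) := by exact_mod_cast hqw
          exact hrough q hq (by omega)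
  have hcard := (Finset.card_le_card hsub).trans
    ((Finset.card_union_le _ _).trans (Nat.add_le_add_right (Finset.card_union_le _ _) _))
  have hAc : (A.card : ℝ) ≤ ∑ M ∈ Finset.Icc 1 ⌊Z⌋₊, ∑ k ∈ lev M,
      evCount (ubox p M k) (roughPair w1) := by
    have h1 : A.card ≤ ∑ M ∈ Finset.Icc 1 ⌊Z⌋₊, ∑ k ∈ lev M,
        ((ubox p M k).filter (roughPair w1)).card := by
      refine Finset.card_biUnion_le.trans (Finset.sum_le_sum fun M _ => ?_)
      refine Finset.card_biUnion_le.trans (Finset.sum_le_sum fun k _ => ?_)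
      exact Finset.card_image_le
    calc (A.card : ℝ) ≤ ((∑ M ∈ Finset.Icc 1 ⌊Z⌋₊, ∑ k ∈ lev M,
        ((ubox p M k).filter (roughPair w1)).card : ℕ) : ℝ) := by exact_mod_cast h1
      _ = _ := by
        push_cast
        apply Finset.sum_congr rfl; intro M _
        apply Finset.sum_congr rfl; intro k _
        rw [evCount_eq]
  have hBc : (B.card : ℝ) ≤ ∑ M ∈ (Finset.Icc 1 ⌊Z⌋₊).filter
      (fun M : ℕ => T < (M : ℝ) ∧ (gpf M : ℝ) ≤ w1), ∑ k ∈ lev M,
      evCount (ubox p M k) (roughPair (gpf M)) := by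
    have h1 : B.card ≤ ∑ M ∈ (Finset.Icc 1 ⌊Z⌋₊).filter
      (fun M : ℕ => T < (M : ℝ) ∧ (gpf M : ℝ) ≤ w1), ∑ k ∈ lev M,
        ((ubox p M k).filter (roughPair (gpf M))).card := by
      refine Finset.card_biUnion_le.trans (Finset.sum_le_sum fun M _ => ?_)
      refine Finset.card_biUnion_le.trans (Finset.sum_le_sum fun k _ => ?_)
      exact Finset.card_image_le
    calc (B.card : ℝ) ≤ ((∑ M ∈ (Finset.Icc 1 ⌊Z⌋₊).filter
      (fun M : ℕ => T < (M : ℝ) ∧ (gpf M : ℝ) ≤ w1), ∑ k ∈ lev M,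
        ((ubox p M k).filter (roughPair (gpf M))).card : ℕ) : ℝ) := by exact_mod_cast h1
      _ = _ := by
        push_cast
        apply Finset.sum_congr rfl; intro M _
        apply Finset.sum_congr rfl; intro k _
        rw [evCount_eq]
  have hcard' : ((NN p).card : ℝ) ≤ (A.card : ℝ) + B.card + (NNbad p y1 T').card := by
    exact_mod_cast hcard
  linarith

end Pool.Agent.Helper44
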