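import Pool.Agent.Helper44.UpperAnalysis
import Pool.Agent.Helper44.LowerFinal

/-!
# Upper bound for `L(p)`
-/

set_option autoImplicit false

open Finset Real Filter

namespace Pool.Agent.Helper44

/-- Elements of `NN p` divisible by a fixed `d` coprime to `p`. -/
theorem card_NN_dvd {p d : ℕ} (hp : p.Prime) (hpd : ¬ p ∣ d) :
    ((NN p).filter (fun N => d ∣ N)).card ≤ p / d + 1 := by
  have hcop : Nat.Coprime d p := ((Nat.Prime.coprime_iff_not_dvd hp).mpr hpd).symm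
  have h : ((NN p).filter (fun N => d ∣ N)).card ≤ (Finset.range (p / d + 1)).card := by
    apply Finset.card_le_card_of_injOn (fun N => N / (d * p))
    · intro N hN
      rw [Finset.mem_coe, Finset.mem_filter, mem_NN hp] at hN
      obtain ⟨⟨a, b, ha1, ha2, hb1, hb2, hab, rfl⟩, hdN⟩ := hN
      rw [Finset.mem_coe, Finset.mem_range]
      have h1 : a * b ≤ p * p := Nat.mul_le_mul (by omega) (by omega)
      have h2 : a * b / (d * p) ≤ p * p / (d * p) := Nat.div_le_div_right h1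
      rw [Nat.mul_div_mul_right _ _ hp.pos] at h2
      simp only
      omega
    · intro N hN N' hN' heq
      rw [Finset.mem_coe, Finset.mem_filter, mem_NN hp] at hN hN'
      obtain ⟨⟨a, b, ha1, ha2, hb1, hb2, hab, hNe⟩, hdN⟩ := hN
      obtain ⟨⟨a', b', ha1', ha2', hb1', hb2', hab', hNe'⟩, hdN'⟩ := hN'
      simp only at heq
      have h1 : N ≡ N' [MOD p] := by
        rw [hNe, hNe']; exact hab.trans hab'.symm
      have h2 : N ≡ N' [MOD d] :=
        ((Nat.modEq_zero_iff_dvd.mpr hdN)).trans (Nat.modEq_zero_iff_dvd.mpr hdN').symm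
      have h3 : N ≡ N' [MOD d * p] := (Nat.modEq_and_modEq_iff_modEq_mul hcop).mp ⟨h2, h1⟩
      rw [← Nat.div_add_mod N (d * p), ← Nat.div_add_mod N' (d * p), heq, h3]
  simpa using h

/-- The exceptional set is small. -/
theorem card_NNbad : ∀ᶠ p : ℕ in atTop, p.Prime → ∀ y1 : ℕ, (y1 : ℝ) ≤ (p : ℝ) ^ (1 / 1000 : ℝ) →
    ((NNbad p y1 ((p : ℝ) ^ (1 / 32 : ℝ))).card : ℝ) ≤ 3 * (p : ℝ) ^ (991 / 1000 : ℝ) := by
  classical
  filter_upwards [eventually_ge_atTop 3] with p hp3 hp y1 hy1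
  have hP0 : (0 : ℝ) < p := by exact_mod_cast hp.pos
  have hP1 : (1 : ℝ) < p := by exact_mod_cast hp.one_lt
  set u : ℝ := (p : ℝ) ^ (1 / 100 : ℝ) with hu
  set v : ℝ := (p : ℝ) ^ (11 / 1000 : ℝ) with hv
  have hu1 : 1 < u := Real.one_lt_rpow hP1 (by norm_num)
  have hv0 : 0 < v := Real.rpow_pos_of_pos hP0 _
  have huv : u * (p : ℝ) ^ (1 / 1000 : ℝ) = v := by
    rw [hu, hv, ← Real.rpow_add hP0]; norm_num
  have hvp : v < p := by
    calc v < (p : ℝ) ^ (1 : ℝ) := Real.rpow_lt_rpow_of_exponent_lt hP1 (by norm_num)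
      _ = p := Real.rpow_one _
  have hsub : NNbad p y1 ((p : ℝ) ^ (1 / 32 : ℝ)) ⊆
      ((Finset.Icc 1 ⌊v⌋₊).filter (fun h : ℕ => u ≤ (h : ℝ))).biUnion
        (fun h => (NN p).filter (fun N => h ^ 2 ∣ N)) := by
    intro N hN
    unfold NNbad at hN
    rw [Finset.mem_filter] at hN
    obtain ⟨hNN, q, hq, hqy, hbig⟩ := hN
    -- minimal exponent
    have hq1 : (1 : ℝ) < q := by exact_mod_cast hq.one_lt
    have hqp : (q : ℝ) ≤ (p : ℝ) ^ (1 / 1000 : ℝ) := by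
      have : (q : ℝ) ≤ y1 := by exact_mod_cast hqy
      linarith
    have hex : ∃ j : ℕ, u ≤ (q : ℝ) ^ j := by
      obtain ⟨j, hj⟩ := pow_unbounded_of_one_lt u hq1
      exact ⟨j, hj.le⟩
    set j := Nat.find hex with hj
    have hj1 : u ≤ (q : ℝ) ^ j := Nat.find_spec hex
    have hj0 : j ≠ 0 := by
      intro h0
      rw [h0, pow_zero] at hj1
      linarith
    have hj2 : (q : ℝ) ^ (j - 1) < u := by
      have := Nat.find_min hex (m := j - 1) (by omega)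
      exact not_le.mp this
    have hj3 : (q : ℝ) ^ j ≤ v := by
      have h1 : (q : ℝ) ^ j = (q : ℝ) ^ (j - 1) * q := by
        rw [← pow_succ]; congr 1; omega
      rw [h1, ← huv]
      apply mul_le_mul hj2.le hqp (by linarith) (by linarith)
    have hdvd : (q ^ j) ^ 2 ∣ N := by
      have hN0 : N ≠ 0 := by
        rw [mem_NN hp] at hNN
        obtain ⟨a, b, ha1, ha2, hb1, hb2, hab, rfl⟩ := hNN
        positivity
      rw [← pow_mul]
      apply (hq.pow_dvd_iff_le_factorization hN0).mpr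
      have h1 : (q : ℝ) ^ (j * 2) < (q : ℝ) ^ (N.factorization q) := by
        refine lt_of_le_of_lt ?_ (by push_cast at hbig; exact hbig)
        rw [pow_mul]
        calc ((q : ℝ) ^ j) ^ 2 ≤ v ^ 2 := pow_le_pow_left₀ (by positivity) hj3 2
          _ = (p : ℝ) ^ (22 / 1000 : ℝ) := by
              rw [hv, ← Real.rpow_natCast, ← Real.rpow_mul hP0.le]; norm_num
          _ ≤ _ := Real.rpow_le_rpow_of_exponent_le hP1.le (by norm_num)
      exact ((pow_lt_pow_iff_right₀ hq1).mp h1).le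
    rw [Finset.mem_biUnion]
    refine ⟨q ^ j, ?_, ?_⟩
    · rw [Finset.mem_filter, Finset.mem_Icc]
      refine ⟨⟨Nat.one_le_iff_ne_zero.mpr (pow_ne_zero _ hq.ne_zero), ?_⟩, ?_⟩
      · apply Nat.le_floor; push_cast; exact hj3
      · push_cast; exact hj1
    · rw [Finset.mem_filter]
      exact ⟨hNN, hdvd⟩
  have h1 := (Finset.card_le_card hsub).trans Finset.card_biUnion_le
  have h2 : ((∑ h ∈ (Finset.Icc 1 ⌊v⌋₊).filter (fun h : ℕ => u ≤ (h : ℝ)),
      ((NN p).filter (fun N => h ^ 2 ∣ N)).card : ℕ) : ℝ) ≤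
      ∑ h ∈ (Finset.Icc 1 ⌊v⌋₊).filter (fun h : ℕ => u ≤ (h : ℝ)), (p / u ^ 2 + 1) := by
    push_cast
    apply Finset.sum_le_sum
    intro h hh
    rw [Finset.mem_filter, Finset.mem_Icc] at hh
    have hhv : (h : ℝ) ≤ v := (Nat.le_floor_iff hv0.le).mp hh.1.2
    have hhp : ¬ p ∣ h ^ 2 := by
      intro hdv
      have h3 := hp.dvd_of_dvd_pow hdv
      have h4 := Nat.le_of_dvd (by omega) h3
      have h5 : (p : ℝ) ≤ h := by exact_mod_cast h4
      linarith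
    have h3 := card_NN_dvd hp hhp
    have h4 : ((((NN p).filter (fun N => h ^ 2 ∣ N)).card : ℕ) : ℝ) ≤ ((p / h ^ 2 + 1 : ℕ) : ℝ) := by
      exact_mod_cast h3
    refine h4.trans ?_
    have h5 : ((p / h ^ 2 : ℕ) : ℝ) ≤ (p : ℝ) / ((h ^ 2 : ℕ) : ℝ) := Nat.cast_div_le
    have h6 : (p : ℝ) / ((h ^ 2 : ℕ) : ℝ) ≤ p / u ^ 2 := by
      have hu0 : 0 < u := by linarith
      push_cast
      apply div_le_div_of_nonneg_left hP0.le (by positivity)
      exact pow_le_pow_left₀ (by linarith) hh.2 2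
    push_cast at h5 h6 ⊢
    linarith
  have h3 : ∑ h ∈ (Finset.Icc 1 ⌊v⌋₊).filter (fun h : ℕ => u ≤ (h : ℝ)), ((p : ℝ) / u ^ 2 + 1) ≤
      v * (p / u ^ 2 + 1) := by
    rw [Finset.sum_const, nsmul_eq_mul]
    apply mul_le_mul_of_nonneg_right _ (by positivity)
    have h4 : ((Finset.Icc 1 ⌊v⌋₊).filter (fun h : ℕ => u ≤ (h : ℝ))).card ≤ ⌊v⌋₊ := by
      refine (Finset.card_filter_le _ _).trans ?_
      simp
    have h5 : ((((Finset.Icc 1 ⌊v⌋₊).filter (fun h : ℕ => u ≤ (h : ℝ))).card : ℕ) : ℝ) ≤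
        (⌊v⌋₊ : ℝ) := by exact_mod_cast h4
    exact h5.trans (Nat.floor_le hv0.le)
  have h4 : v * (p / u ^ 2 + 1) ≤ 3 * (p : ℝ) ^ (991 / 1000 : ℝ) := by
    have e1 : v * (p / u ^ 2) = (p : ℝ) ^ (991 / 1000 : ℝ) := by
      rw [hv, hu, ← Real.rpow_natCast, ← Real.rpow_mul hP0.le]
      nth_rewrite 2 [← Real.rpow_one (p : ℝ)]
      rw [← Real.rpow_sub hP0, ← Real.rpow_add hP0]
      norm_num
    have e2 : v ≤ (p : ℝ) ^ (991 / 1000 : ℝ) :=
      Real.rpow_le_rpow_of_exponent_le hP1.le (by norm_num)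
    have e3 : 0 < (p : ℝ) ^ (991 / 1000 : ℝ) := Real.rpow_pos_of_pos hP0 _
    calc v * (p / u ^ 2 + 1) = v * (p / u ^ 2) + v := by ring
      _ ≤ _ := by rw [e1]; linarith
  have h5 : ((NNbad p y1 ((p : ℝ) ^ (1 / 32 : ℝ))).card : ℝ) ≤
      ((∑ h ∈ (Finset.Icc 1 ⌊v⌋₊).filter (fun h : ℕ => u ≤ (h : ℝ)),
      ((NN p).filter (fun N => h ^ 2 ∣ N)).card : ℕ) : ℝ) := by exact_mod_cast h1
  linarith

/-- Upper bound for each box. -/
theorem ubox_upper {η C c : ℝ} (hC : 0 < C)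
    (hbox : ∀ p : ℕ, p.Prime → ∀ w : ℝ, 2 ≤ w → w ≤ (p : ℝ) ^ η → ∀ M : ℕ, ¬ p ∣ M →
    ∀ R1 R2 S2 : ℕ, R1 ≤ R2 → R2 < p → S2 < p →
    evCount (boxSet p M R1 R2 S2) (roughPair w) ≤
      C * (((R2 : ℝ) - R1) * S2 / p) / (Real.log w) ^ 2 + C * (p : ℝ) ^ (5 / 6 : ℝ) ∧
    c * (((R2 : ℝ) - R1) * S2 / p) / (Real.log w) ^ 2 - C * (p : ℝ) ^ (5 / 6 : ℝ) ≤
      evCount (boxSet p M R1 R2 S2) (roughPair w))
    {p : ℕ} (hp : p.Prime) {M : ℕ} (hM0 : 0 < M) (hMp : M < p) (k : ℕ) {w : ℝ} (hw : 2 ≤ w)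
    (hwp : w ≤ (p : ℝ) ^ η) :
    evCount (ubox p M k) (roughPair w) ≤
      2 * C * p / (M * (Real.log w) ^ 2) + C * (p : ℝ) ^ (5 / 6 : ℝ) := by
  have hP0 : (0 : ℝ) < p := by exact_mod_cast hp.pos
  have hp2 := hp.two_le
  have hM0' : (0 : ℝ) < M := by exact_mod_cast hM0
  have hpM : ¬ p ∣ M := fun h => by
    have := Nat.le_of_dvd hM0 h
    omega
  have h := (hbox p hp w hw hwp M hpM 0 ((p - 1) / 2 ^ k)
    (min (p - 1) (2 ^ (k + 1) * (p - 1) / M)) (Nat.zero_le _)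
    ((Nat.div_le_self _ _).trans_lt (by omega)) ((min_le_left _ _).trans_lt (by omega))).1
  refine h.trans ?_
  have hlw : 0 < Real.log w := Real.log_pos (by linarith)
  have r2 : (((p - 1) / 2 ^ k : ℕ) : ℝ) ≤ (p : ℝ) / 2 ^ k := by
    have h1 : (((p - 1) / 2 ^ k : ℕ) : ℝ) ≤ ((p - 1 : ℕ) : ℝ) / ((2 ^ k : ℕ) : ℝ) := Nat.cast_div_le
    refine h1.trans ?_
    push_cast
    apply div_le_div_of_nonneg_right _ (by positivity)
    exact_mod_cast Nat.sub_le _ _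
  have s2 : ((min (p - 1) (2 ^ (k + 1) * (p - 1) / M) : ℕ) : ℝ) ≤ 2 ^ (k + 1) * (p : ℝ) / M := by
    have h0 : ((min (p - 1) (2 ^ (k + 1) * (p - 1) / M) : ℕ) : ℝ) ≤
        ((2 ^ (k + 1) * (p - 1) / M : ℕ) : ℝ) := by exact_mod_cast min_le_right _ _
    have h1 : ((2 ^ (k + 1) * (p - 1) / M : ℕ) : ℝ) ≤
        ((2 ^ (k + 1) * (p - 1) : ℕ) : ℝ) / (M : ℝ) := Nat.cast_div_le
    refine h0.trans (h1.trans ?_)
    apply div_le_div_of_nonneg_right _ hM0'.le
    rw [Nat.cast_mul]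
    push_cast
    apply mul_le_mul_of_nonneg_left _ (by positivity)
    exact_mod_cast Nat.sub_le _ _
  have hX : (((((p - 1) / 2 ^ k : ℕ) : ℝ) - ((0 : ℕ) : ℝ)) *
      ((min (p - 1) (2 ^ (k + 1) * (p - 1) / M) : ℕ) : ℝ) / p) ≤ 2 * p / M := by
    rw [div_le_iff₀ hP0]
    calc ((((p - 1) / 2 ^ k : ℕ) : ℝ) - ((0 : ℕ) : ℝ)) *
      ((min (p - 1) (2 ^ (k + 1) * (p - 1) / M) : ℕ) : ℝ) ≤
        ((p : ℝ) / 2 ^ k) * (2 ^ (k + 1) * (p : ℝ) / M) := by
          rw [Nat.cast_zero, sub_zero]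
          apply mul_le_mul r2 s2 (by positivity) (by positivity)
      _ = 2 * p / M * p := by
          rw [pow_succ]; field_simp
  have hX' : C * (((((p - 1) / 2 ^ k : ℕ) : ℝ) - ((0 : ℕ) : ℝ)) *
      ((min (p - 1) (2 ^ (k + 1) * (p - 1) / M) : ℕ) : ℝ) / p) / (Real.log w) ^ 2 ≤
      C * (2 * p / M) / (Real.log w) ^ 2 := by
    gcongr
  have e : C * (2 * (p : ℝ) / M) / (Real.log w) ^ 2 = 2 * C * p / (M * (Real.log w) ^ 2) := by
    field_simp
  rw [e] at hX'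
  linarith

theorem kap_le (M : ℕ) : kap M ≤ M := by
  unfold kap
  exact Finset.card_image_le.trans (Nat.card_divisors_le_self M)

/-- Power savings beat the logarithmic denominators. -/
theorem err_small {ε : ℝ} (hε : 0 < ε) : ∀ᶠ p : ℕ in atTop, (p : ℝ) ^ (1 - ε) ≤
    p / ((Real.log p) ^ del * (Real.log (Real.log p)) ^ (3 / 2 : ℝ)) := by
  have hlogev : ∀ᶠ p : ℕ in atTop, (3 : ℝ) ≤ Real.log p :=
    (Real.tendsto_log_atTop.comp tendsto_natCast_atTop_atTop).eventually_ge_atTop 3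
  filter_upwards [eventually_rpow_ge (ε / 4) ((4 / ε) ^ 3) (by positivity), hlogev,
    eventually_ge_atTop 1] with p h1 h2 h3
  have hP0 : (0 : ℝ) < p := by exact_mod_cast h3
  have hP1 : (1 : ℝ) ≤ p := by exact_mod_cast h3
  set L : ℝ := Real.log p with hL
  have hL0 : 0 < L := by linarith
  have hlL : 0 < Real.log L := Real.log_pos (by linarith)
  have e1 : L ^ del ≤ L := by
    calc L ^ del ≤ L ^ (1 : ℝ) := Real.rpow_le_rpow_of_exponent_le (by linarith) del_le_one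
      _ = L := Real.rpow_one _
  have e2 : (Real.log L) ^ (3 / 2 : ℝ) ≤ L ^ 2 := by
    have h4 : Real.log L ≤ L := by
      have := Real.log_le_sub_one_of_pos hL0
      linarith
    calc (Real.log L) ^ (3 / 2 : ℝ) ≤ L ^ (3 / 2 : ℝ) := Real.rpow_le_rpow hlL.le h4 (by norm_num)
      _ ≤ L ^ (2 : ℝ) := Real.rpow_le_rpow_of_exponent_le (by linarith) (by norm_num)
      _ = L ^ 2 := by norm_num
  have e3 : L ≤ (p : ℝ) ^ (ε / 4) / (ε / 4) := Real.log_le_rpow_div hP0.le (by positivity)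
  have hpe : 0 < (p : ℝ) ^ (ε / 4) := Real.rpow_pos_of_pos hP0 _
  have e4 : L ^ del * (Real.log L) ^ (3 / 2 : ℝ) ≤ (p : ℝ) ^ ε := by
    calc L ^ del * (Real.log L) ^ (3 / 2 : ℝ) ≤ L * L ^ 2 := by
          apply mul_le_mul e1 e2 (Real.rpow_nonneg hlL.le _) hL0.le
      _ = L ^ 3 := by ring
      _ ≤ ((p : ℝ) ^ (ε / 4) / (ε / 4)) ^ 3 := pow_le_pow_left₀ hL0.le e3 3
      _ = (4 / ε) ^ 3 * ((p : ℝ) ^ (ε / 4)) ^ 3 := by
          rw [← mul_pow]; congr 1; field_simp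
      _ ≤ (p : ℝ) ^ (ε / 4) * ((p : ℝ) ^ (ε / 4)) ^ 3 := by
          apply mul_le_mul_of_nonneg_right h1 (by positivity)
      _ = ((p : ℝ) ^ (ε / 4)) ^ 4 := by ring
      _ = (p : ℝ) ^ ε := by
          rw [← Real.rpow_natCast, ← Real.rpow_mul hP0.le]
          congr 1
          push_cast
          ring
  have hD0 : 0 < L ^ del * (Real.log L) ^ (3 / 2 : ℝ) :=
    mul_pos (Real.rpow_pos_of_pos hL0 _) (Real.rpow_pos_of_pos hlL _)
  rw [le_div_iff₀ hD0]
  calc (p : ℝ) ^ (1 - ε) * (L ^ del * (Real.log L) ^ (3 / 2 : ℝ))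
      ≤ (p : ℝ) ^ (1 - ε) * (p : ℝ) ^ ε := by
        apply mul_le_mul_of_nonneg_left e4 (Real.rpow_nonneg hP0.le _)
    _ = p := by
        rw [← Real.rpow_add hP0]; simp

/-- The upper bound for `L(p)`. -/
theorem Lp_upper : ∃ C : ℝ, 0 < C ∧ ∀ᶠ p : ℕ in atTop, p.Prime →
    (Lp p : ℝ) ≤ C * p / ((Real.log p) ^ del * (Real.log (Real.log p)) ^ (3 / 2 : ℝ)) := by
  obtain ⟨η, C, c, hη, hη1, hC, hc, hbox⟩ := box_sieve
  obtain ⟨Cu, hCu, y0, hkap⟩ := Pool.Agent.Helper48.kap_upper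
  set η' : ℝ := min η (1 / 1000) with hη'
  have hη'0 : 0 < η' := lt_min hη (by norm_num)
  have hη'1 : η' ≤ η := min_le_left _ _
  have hη'2 : η' ≤ 1 / 1000 := min_le_right _ _
  set κ : ℝ := 1 / (32 * η') with hκ
  have hκ0 : 0 < κ := by positivity
  obtain ⟨w0, hbeta⟩ := beta_sum hCu hkap hκ0
  set K1 : ℝ := 128 * Cu / κ ^ 2 + 768 * Cu / κ ^ 4 with hK1
  have hK10 : 0 < K1 := by positivity
  refine ⟨16 * C * Cu / η' ^ 2 + 16 * C * K1 / η' + 2 * C + 3, by positivity, ?_⟩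
  have hlogev : ∀ A : ℝ, ∀ᶠ p : ℕ in atTop, A ≤ Real.log p := fun A =>
    (Real.tendsto_log_atTop.comp tendsto_natCast_atTop_atTop).eventually_ge_atTop A
  filter_upwards [card_NNbad, err_small (ε := 9 / 1000) (by norm_num),
    eventually_rpow_ge η' (max 2 w0) hη'0, eventually_rpow_ge (1 / 16) (max 2 y0) (by norm_num),
    hlogev 256, hlogev (η' ^ (-2 : ℝ)), eventually_ge_atTop 3]
    with p hbad herr hpw hpZ hL256 hLη hp3 hp
  have hP0 : (0 : ℝ) < p := by exact_mod_cast hp.pos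
  have hP1 : (1 : ℝ) < p := by exact_mod_cast hp.one_lt
  set L : ℝ := Real.log p with hL
  have hL0 : 0 < L := by linarith
  set w1 : ℝ := (p : ℝ) ^ η' with hw1
  set Z : ℝ := (p : ℝ) ^ (1 / 16 : ℝ) with hZ
  set T : ℝ := (p : ℝ) ^ (1 / 32 : ℝ) with hT
  have hw12 : 2 ≤ w1 := (le_max_left _ _).trans hpw
  have hw1w : w0 ≤ w1 := (le_max_right _ _).trans hpw
  have hZ2 : 2 ≤ Z := (le_max_left _ _).trans hpZ
  have hZy : y0 ≤ Z := (le_max_right _ _).trans hpZ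
  have hZ0 : 0 < Z := by linarith
  have hT1 : 1 ≤ T := Real.one_le_rpow hP1.le (by norm_num)
  have hTT : T * T ≤ Z := by
    rw [hT, hZ, ← Real.rpow_add hP0]; norm_num
  have hlw : Real.log w1 = η' * L := Real.log_rpow hP0 η'
  have hlZ : Real.log Z = 1 / 16 * L := Real.log_rpow hP0 _
  have hw1p : w1 ≤ (p : ℝ) ^ η := Real.rpow_le_rpow_of_exponent_le hP1.le hη'1
  have hZp : Z < p := by
    calc Z < (p : ℝ) ^ (1 : ℝ) := Real.rpow_lt_rpow_of_exponent_lt hP1 (by norm_num)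
      _ = p := Real.rpow_one _
  have hlL : 0 < Real.log L := Real.log_pos (by linarith)
  set D : ℝ := L ^ del with hD
  set Q : ℝ := (Real.log L) ^ (3 / 2 : ℝ) with hQ
  have hD0 : 0 < D := Real.rpow_pos_of_pos hL0 _
  have hQ0 : 0 < Q := Real.rpow_pos_of_pos hlL _
  have hcount := upper_count hp (by linarith : (0 : ℝ) ≤ w1) (by linarith : (1 : ℝ) ≤ Z)
    (by linarith : 0 < T) hTT hT1
  rw [card_NN hp] at hcount
  have hMrange : ∀ M ∈ Finset.Icc 1 ⌊Z⌋₊, 0 < M ∧ M < p ∧ (M : ℝ) ≤ Z := by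
    intro M hM
    rw [Finset.mem_Icc] at hM
    have h1 : (M : ℝ) ≤ Z := (Nat.le_floor_iff hZ0.le).mp hM.2
    refine ⟨hM.1, ?_, h1⟩
    have : (M : ℝ) < p := by linarith
    exact_mod_cast this
  set E : ℝ := C * (p : ℝ) ^ (5 / 6 : ℝ) with hE
  have hE0 : 0 ≤ E := by positivity
  have hkapsum : ∀ S ⊆ Finset.Icc 1 ⌊Z⌋₊, ∑ M ∈ S, (kap M : ℝ) * E ≤
      C * (p : ℝ) ^ (991 / 1000 : ℝ) := by
    intro S hS
    calc ∑ M ∈ S, (kap M : ℝ) * E ≤ ∑ M ∈ Finset.Icc 1 ⌊Z⌋₊, (kap M : ℝ) * E :=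
          Finset.sum_le_sum_of_subset_of_nonneg hS (fun _ _ _ => by positivity)
      _ ≤ ∑ M ∈ Finset.Icc 1 ⌊Z⌋₊, Z * E := by
          apply Finset.sum_le_sum
          intro M hM
          apply mul_le_mul_of_nonneg_right _ hE0
          have h1 : (kap M : ℝ) ≤ M := by exact_mod_cast kap_le M
          exact h1.trans (hMrange M hM).2.2
      _ = ⌊Z⌋₊ * (Z * E) := by simp
      _ ≤ Z * (Z * E) := by
          apply mul_le_mul_of_nonneg_right (Nat.floor_le hZ0.le) (by positivity)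
      _ = C * (p : ℝ) ^ (23 / 24 : ℝ) := by
          rw [hE, hZ]
          have : (p : ℝ) ^ (1 / 16 : ℝ) * ((p : ℝ) ^ (1 / 16 : ℝ) * (C * (p : ℝ) ^ (5 / 6 : ℝ))) =
            C * ((p : ℝ) ^ (1 / 16 : ℝ) * (p : ℝ) ^ (1 / 16 : ℝ) * (p : ℝ) ^ (5 / 6 : ℝ)) := by ring
          rw [this, ← Real.rpow_add hP0, ← Real.rpow_add hP0]
          norm_num
      _ ≤ _ := by
          apply mul_le_mul_of_nonneg_left _ hC.le
          apply Real.rpow_le_rpow_of_exponent_le hP1.le (by norm_num)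
  -- first sum
  have hA : ∑ M ∈ Finset.Icc 1 ⌊Z⌋₊, ∑ k ∈ lev M, evCount (ubox p M k) (roughPair w1) ≤
      16 * C * Cu / η' ^ 2 * p / (D * Q) + C * (p : ℝ) ^ (991 / 1000 : ℝ) := by
    have h1 : ∑ M ∈ Finset.Icc 1 ⌊Z⌋₊, ∑ k ∈ lev M, evCount (ubox p M k) (roughPair w1) ≤
        ∑ M ∈ Finset.Icc 1 ⌊Z⌋₊, (2 * C * p / (Real.log w1) ^ 2 * ((kap M : ℝ) / M) +
          (kap M : ℝ) * E) := by
      apply Finset.sum_le_sum
      intro M hM
      obtain ⟨hM0, hMp, hMZ⟩ := hMrange M hM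
      calc ∑ k ∈ lev M, evCount (ubox p M k) (roughPair w1)
          ≤ ∑ k ∈ lev M, (2 * C * p / (M * (Real.log w1) ^ 2) + E) :=
            Finset.sum_le_sum fun k _ => ubox_upper hC hbox hp hM0 hMp k hw12 hw1p
        _ = (kap M : ℝ) * (2 * C * p / (M * (Real.log w1) ^ 2) + E) := by
            rw [Finset.sum_const, card_lev, nsmul_eq_mul]
        _ = _ := by
            have : (0 : ℝ) < M := by exact_mod_cast hM0
            field_simp
    have h2 := class_sum hkap hZy (by linarith : 1 < Z) (u := 0) (Finset.Icc 1 ⌊Z⌋₊) (by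
      intro M hM
      obtain ⟨hM0, hMp, hMZ⟩ := hMrange M hM
      refine ⟨by omega, ?_, ?_⟩
      · have h3 : gpf M ≤ M := gpf_le fun q hq hqM => Nat.le_of_dvd hM0 hqM
        have h4 : (gpf M : ℝ) ≤ M := by exact_mod_cast h3
        exact h4.trans hMZ
      · rw [Real.exp_zero]; exact_mod_cast hM0)
    rw [zero_div, neg_zero, Real.exp_zero, one_mul] at h2
    have h3 : Real.log L / 4 ≤ Real.log (Real.log Z) := by
      rw [hlZ, Real.log_mul (by norm_num) hL0.ne', one_div, Real.log_inv]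
      have h4 : Real.log ((16 : ℝ) ^ 2) ≤ Real.log L := Real.log_le_log (by norm_num) (by linarith)
      rw [Real.log_pow] at h4
      push_cast at h4
      linarith
    have h5 : Q / 8 ≤ (Real.log (Real.log Z)) ^ (3 / 2 : ℝ) := by
      have h6 : (Real.log L / 4) ^ (3 / 2 : ℝ) ≤ (Real.log (Real.log Z)) ^ (3 / 2 : ℝ) :=
        Real.rpow_le_rpow (by positivity) h3 (by norm_num)
      refine le_trans (le_of_eq ?_) h6
      rw [Real.div_rpow hlL.le (by norm_num)]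
      congr 1
      have : (4 : ℝ) = 2 ^ (2 : ℝ) := by norm_num
      rw [this, ← Real.rpow_mul (by norm_num)]
      norm_num
    have h7 : (Real.log Z) ^ (2 - del) ≤ L ^ 2 / D := by
      have hd1 := del_le_one
      calc (Real.log Z) ^ (2 - del) ≤ L ^ (2 - del) := by
            apply Real.rpow_le_rpow _ _ (by linarith)
            · rw [hlZ]; positivity
            · rw [hlZ]; linarith
        _ = L ^ 2 / D := by
            rw [hD, Real.rpow_sub hL0]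
            norm_num
    have h8 : ∑ M ∈ Finset.Icc 1 ⌊Z⌋₊, (kap M : ℝ) / M ≤ Cu * (L ^ 2 / D) / (Q / 8) := by
      refine h2.trans ?_
      have h9 : 0 ≤ (Real.log Z) ^ (2 - del) := Real.rpow_nonneg (by rw [hlZ]; positivity) _
      gcongr
    calc _ ≤ _ := h1
      _ = 2 * C * p / (Real.log w1) ^ 2 * ∑ M ∈ Finset.Icc 1 ⌊Z⌋₊, (kap M : ℝ) / M +
          ∑ M ∈ Finset.Icc 1 ⌊Z⌋₊, (kap M : ℝ) * E := by
          rw [Finset.sum_add_distrib, Finset.mul_sum]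
      _ ≤ 2 * C * p / (Real.log w1) ^ 2 * (Cu * (L ^ 2 / D) / (Q / 8)) +
          C * (p : ℝ) ^ (991 / 1000 : ℝ) := by
          apply add_le_add _ (hkapsum _ (Finset.Subset.refl _))
          apply mul_le_mul_of_nonneg_left h8 (by positivity)
      _ = _ := by
          rw [hlw]
          field_simp
          ring
  -- second sum
  have hB : ∑ M ∈ (Finset.Icc 1 ⌊Z⌋₊).filter (fun M : ℕ => T < (M : ℝ) ∧ (gpf M : ℝ) ≤ w1),
        ∑ k ∈ lev M, evCount (ubox p M k) (roughPair (gpf M)) ≤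
      16 * C * K1 / η' * p / (D * Q) + C * (p : ℝ) ^ (991 / 1000 : ℝ) := by
    set S := (Finset.Icc 1 ⌊Z⌋₊).filter (fun M : ℕ => T < (M : ℝ) ∧ (gpf M : ℝ) ≤ w1) with hS
    have h1 : ∑ M ∈ S, ∑ k ∈ lev M, evCount (ubox p M k) (roughPair (gpf M)) ≤
        ∑ M ∈ S, (2 * C * p * ((kap M : ℝ) / (M * (Real.log (gpf M)) ^ 2)) +
          (kap M : ℝ) * E) := by
      apply Finset.sum_le_sum
      intro M hM
      rw [hS, Finset.mem_filter] at hM
      obtain ⟨hM0, hMp, hMZ⟩ := hMrange M hM.1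
      have hM1 : 1 < M := by
        have : (1 : ℝ) < M := lt_of_le_of_lt hT1 hM.2.1
        exact_mod_cast this
      have hg2 : (2 : ℝ) ≤ gpf M := by exact_mod_cast gpf_ge_two hM1
      calc ∑ k ∈ lev M, evCount (ubox p M k) (roughPair (gpf M))
          ≤ ∑ k ∈ lev M, (2 * C * p / (M * (Real.log (gpf M)) ^ 2) + E) :=
            Finset.sum_le_sum fun k _ => ubox_upper hC hbox hp hM0 hMp k hg2 (hM.2.2.trans hw1p)
        _ = (kap M : ℝ) * (2 * C * p / (M * (Real.log (gpf M)) ^ 2) + E) := by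
            rw [Finset.sum_const, card_lev, nsmul_eq_mul]
        _ = _ := by ring
    have h2 := hbeta w1 hw1w S (by
      intro M hM
      rw [hS, Finset.mem_filter] at hM
      refine ⟨?_, hM.2.2⟩
      have h3 : κ * Real.log w1 = L * (1 / 32) := by
        rw [hlw, hκ]; field_simp
      rw [h3, hL, ← Real.rpow_def_of_pos hP0]
      exact hM.2.1)
    have h3 : Real.log L / 4 ≤ Real.log (Real.log w1) := by
      rw [hlw, Real.log_mul hη'0.ne' hL0.ne']
      have h4 : Real.log (η' ^ (-2 : ℝ)) ≤ Real.log L :=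
        Real.log_le_log (Real.rpow_pos_of_pos hη'0 _) hLη
      rw [Real.log_rpow hη'0] at h4
      linarith
    have h5 : Q / 8 ≤ (Real.log (Real.log w1)) ^ (3 / 2 : ℝ) := by
      have h6 : (Real.log L / 4) ^ (3 / 2 : ℝ) ≤ (Real.log (Real.log w1)) ^ (3 / 2 : ℝ) :=
        Real.rpow_le_rpow (by positivity) h3 (by norm_num)
      refine le_trans (le_of_eq ?_) h6
      rw [Real.div_rpow hlL.le (by norm_num)]
      congr 1
      have : (4 : ℝ) = 2 ^ (2 : ℝ) := by norm_num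
      rw [this, ← Real.rpow_mul (by norm_num)]
      norm_num
    have h7 : η' * D ≤ (Real.log w1) ^ del := by
      rw [hlw, Real.mul_rpow hη'0.le hL0.le]
      apply mul_le_mul_of_nonneg_right _ hD0.le
      calc η' = η' ^ (1 : ℝ) := (Real.rpow_one _).symm
        _ ≤ η' ^ del := Real.rpow_le_rpow_of_exponent_ge hη'0 (by linarith) del_le_one
    have h8 : ∑ M ∈ S, (kap M : ℝ) / (M * (Real.log (gpf M)) ^ 2) ≤
        K1 / ((η' * D) * (Q / 8)) := by
      refine h2.trans ?_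
      apply div_le_div_of_nonneg_left hK10.le (by positivity)
      exact mul_le_mul h7 h5 (by positivity) ((by positivity : (0 : ℝ) ≤ η' * D).trans h7)
    calc _ ≤ _ := h1
      _ = 2 * C * p * ∑ M ∈ S, (kap M : ℝ) / (M * (Real.log (gpf M)) ^ 2) +
          ∑ M ∈ S, (kap M : ℝ) * E := by
          rw [Finset.sum_add_distrib, Finset.mul_sum]
      _ ≤ 2 * C * p * (K1 / ((η' * D) * (Q / 8))) + C * (p : ℝ) ^ (991 / 1000 : ℝ) := by
          apply add_le_add _ (hkapsum _ (Finset.filter_subset _ _))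
          apply mul_le_mul_of_nonneg_left h8 (by positivity)
      _ = _ := by
          field_simp
          ring
  have hB' := hbad hp ⌊w1⌋₊ ((Nat.floor_le (by linarith)).trans
    (Real.rpow_le_rpow_of_exponent_le hP1.le hη'2))
  have herr' : (p : ℝ) ^ (991 / 1000 : ℝ) ≤ p / (D * Q) := by
    refine le_trans (le_of_eq ?_) herr
    norm_num
  have hfin : (Lp p : ℝ) ≤ 16 * C * Cu / η' ^ 2 * p / (D * Q) + 16 * C * K1 / η' * p / (D * Q) +
      (2 * C + 3) * (p : ℝ) ^ (991 / 1000 : ℝ) := by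
    linarith
  calc (Lp p : ℝ) ≤ _ := hfin
    _ ≤ 16 * C * Cu / η' ^ 2 * p / (D * Q) + 16 * C * K1 / η' * p / (D * Q) +
      (2 * C + 3) * (p / (D * Q)) := by
        gcongr
    _ = _ := by ring

end Pool.Agent.Helper44
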